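import Mathlib
import Pool.Agent.Work.MP_787500_nt.KT.Main
import Pool.Agent.Work.MP_787500_nt.KS.V15
import Pool.Agent.Work.MP_787500_nt.LB.TameN

/-!
# Local cocycles at the ramified primes of the quadratic field

Coefficients: `F ^ n`, `F` a finite field of characteristic 2, with an action `A` by matrices that is trivial on inertia.
`finrank_cobS`: coboundaries; `RamL`: the local group; `RamL.count`: the number of cocycles is `|F| ^ (n + dim of the fixed space)`.
-/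

set_option autoImplicit false
set_option linter.unusedSectionVars false

namespace Pool.Agent.Work.MP_787500_nt.QP

open Matrix
open Pool.Agent.Work.MP_787500_nt.GP (IsAct TameD tame_gen)
open Pool.Agent.Work.MP_787500_nt.PA (TwoSys homs)
open Pool.Agent.Work.MP_787500_nt.KR (FSys Z1 Z2 Sm1 Smooth two res zM big CountsF Opn IsChar)
open Pool.Agent.Work.MP_787500_nt.KT
open Pool.Agent.Work.MP_787500_nt.KS (mem_homs_two mem_homs_res unr_hom)

/-- a tame local group with a ramified quadratic character -/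
structure RamL {G : Type*} [Group G] (S : FSys G) (χ a : G → ℤ_[2]) (σ τ : G) (l : ℕ)
    (I : Subgroup G) (φ : G) (ε : G → ZMod 2) : Prop where
  tame : TameD (two S) χ a σ τ l
  cnt : CountsF S 0
  chr : IsChar S χ
  chI : ∀ g ∈ I, χ g = 1
  chF : χ φ = l
  eps : ε ∈ homs (two S) (⊤ : Subgroup G)
  tI : τ ∈ I
  et : ε τ = 1
  comm : ∀ g h : G, g * h * g⁻¹ * h⁻¹ ∈ I
  dens : ∀ W, S.mem W → ∀ g, ∃ i : ℕ, ∃ n ∈ I, (φ ^ i * n)⁻¹ * g ∈ W

section hom

variable {G : Type*} [Group G] {S : FSys G} {χ a : G → ℤ_[2]} {σ τ : G} {l : ℕ}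
    {I : Subgroup G} {φ : G} {ε : G → ZMod 2}

/-- A homomorphism of an open subgroup that contains inertia is trivial on the part of inertia in the kernel of the
ramified character. -/
theorem RamL.hom_zero (R : RamL S χ a σ τ l I φ ε) {C : Subgroup G} (hopn : Opn S C) (hIC : I ≤ C)
    {y : C → ZMod 2} (hy : y ∈ homs (two (res S C)) (⊤ : Subgroup C)) {g : G}
    (hg : g ∈ I) (hεg : ε g = 0) : y ⟨g, hIC hg⟩ = 0 := by
  classical
  obtain ⟨hfd, hrk⟩ := R.cnt _ hopn
  rw [zero_mul, zero_add] at hrk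
  have hidx : C.index ≠ 0 := by
    obtain ⟨W, hW, h1⟩ := hopn
    exact fun h0 => S.index hW (Nat.eq_zero_of_zero_dvd (h0 ▸ Subgroup.index_dvd_of_le h1))
  obtain ⟨k, hk0, -, hσk⟩ := Subgroup.exists_pow_mem_of_index_ne_zero hidx σ
  have hχpow : ∀ m : ℕ, χ (σ ^ m) = ((l ^ m : ℕ) : ℤ_[2]) := by
    intro m
    induction m with
    | zero => rw [pow_zero, R.chr.one]; simp
    | succ m ih => rw [pow_succ, R.chr.mul, ih, R.tame.σχ]; push_cast; ring
  have hlk : 1 < l ^ k := Nat.one_lt_pow hk0.ne' (by have := R.tame.lt; omega)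
  obtain ⟨f, hf, hf0, hfI⟩ := unr_hom (C := C) R.chr hσk (by
    rw [hχpow]
    intro h1
    have : l ^ k = 1 := by exact_mod_cast h1
    omega) (by
    rw [hχpow]
    intro h1
    have h2 : ((l ^ k + 1 : ℕ) : ℤ_[2]) = 0 := by
      rw [Nat.cast_add, h1]
      simp
    have : l ^ k + 1 = 0 := by exact_mod_cast h2
    omega)
  obtain ⟨⟨Wε, hWε, h1ε⟩, h2ε⟩ := (mem_homs_two S).1 R.eps
  let e1 : homs (two (res S C)) (⊤ : Subgroup C) := ⟨fun a => ε a, by
    rw [mem_homs_res]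
    exact ⟨⟨Wε, hWε, fun w hw => h1ε w hw⟩, fun a b => h2ε a b⟩⟩
  let e2 : homs (two (res S C)) (⊤ : Subgroup C) := ⟨f, hf⟩
  have hli : LinearIndependent (ZMod 2) ![e1, e2] := by
    rw [LinearIndependent.pair_iff]
    intro a b hab
    have h3 : ∀ y : C, a * ε y + b * f y = 0 := fun y =>
      congrFun (congrArg Subtype.val hab) y
    have h4 := h3 ⟨τ, hIC R.tI⟩
    rw [hfI _ (R.chI τ R.tI), mul_zero, add_zero] at h4
    have h5 : a = 0 := by
      have : a * ε τ = 0 := h4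
      rwa [R.et, mul_one] at this
    refine ⟨h5, ?_⟩
    by_contra hb
    apply hf0
    funext y
    have h6 := h3 y
    rw [h5, zero_mul, zero_add] at h6
    exact (mul_eq_zero.1 h6).resolve_left hb
  have hspan := hli.span_eq_top_of_card_eq_finrank' (by rw [hrk]; rfl)
  have h3 : (⟨y, hy⟩ : homs (two (res S C)) (⊤ : Subgroup C)) ∈
      Submodule.span (ZMod 2) (Set.range ![e1, e2]) := by
    rw [hspan]
    trivial
  have h4 : Set.range ![e1, e2] = {e1, e2} := by
    rw [Matrix.range_cons, Matrix.range_cons, Matrix.range_empty, Set.union_empty]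
    rfl
  rw [h4, Submodule.mem_span_pair] at h3
  obtain ⟨a, b, hab⟩ := h3
  have h5 : a * ε g + b * f ⟨g, hIC hg⟩ = y ⟨g, hIC hg⟩ := congrFun (congrArg Subtype.val hab) ⟨g, hIC hg⟩
  rw [← h5, hεg, hfI _ (R.chI g hg), mul_zero, mul_zero, add_zero]

theorem RamL.eadd (R : RamL S χ a σ τ l I φ ε) (g h : G) : ε (g * h) = ε g + ε h :=
  ((mem_homs_two S).1 R.eps).2 g h

theorem RamL.chpow (R : RamL S χ a σ τ l I φ ε) (m : ℕ) : χ (φ ^ m) = (l : ℤ_[2]) ^ m := by
  induction m with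
  | zero => rw [pow_zero, R.chr.one, pow_zero]
  | succ m ih => rw [pow_succ, R.chr.mul, ih, R.chF, pow_succ]

end hom

variable {F : Type*} [Field F] [Finite F] [CharP F 2] [Algebra (ZMod 2) F] {n : ℕ}

section fix

variable {G : Type*} [Group G] (A : G →* Matrix (Fin n) (Fin n) F)

/-- the vectors fixed by the group -/
def fixG : Submodule F (Fin n → F) where
  carrier := {m | ∀ g, A g *ᵥ m = m}
  add_mem' := fun {a b} ha hb g => by rw [mulVec_add, ha, hb]
  zero_mem' := fun g => mulVec_zero _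
  smul_mem' := fun c {a} ha g => by rw [mulVec_smul, ha]

theorem mem_fixG {m : Fin n → F} : m ∈ fixG A ↔ ∀ g, A g *ᵥ m = m := Iff.rfl

/-- the coboundary map -/
def cobL : (Fin n → F) →ₗ[F] (G → Fin n → F) where
  toFun m g := A g *ᵥ m + m
  map_add' a b := by
    funext g
    show A g *ᵥ (a + b) + (a + b) = A g *ᵥ a + a + (A g *ᵥ b + b)
    rw [mulVec_add]
    abel
  map_smul' c a := by
    funext g
    show A g *ᵥ (c • a) + c • a = c • (A g *ᵥ a + a)
    rw [mulVec_smul, smul_add]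

theorem smul_Z (c : ZMod 2) (x : Fin n → F) : c • x = (algebraMap (ZMod 2) F c) • x := by
  ext i
  rw [Pi.smul_apply, Pi.smul_apply, Algebra.smul_def, smul_eq_mul]

theorem mem_coc {S : FSys G} {A : G → Matrix (Fin n) (Fin n) F} {x : G → Fin n → F} :
    x ∈ cocS S A ↔ Z1 S (KT.act A) x := Iff.rfl

theorem vadd_self (m : Fin n → F) : m + m = 0 := by
  ext i
  exact CharTwo.add_self_eq_zero _

theorem add_eq_zero2 {a b : Fin n → F} : a + b = 0 ↔ a = b := by
  constructor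
  · intro h
    have h1 : a + b + b = 0 + b := by rw [h]
    rwa [add_assoc, vadd_self, add_zero, zero_add] at h1
  · rintro rfl
    exact vadd_self _

theorem ker_cobL : LinearMap.ker (cobL A) = fixG A := by
  ext m
  rw [LinearMap.mem_ker, mem_fixG]
  constructor
  · intro h g
    exact add_eq_zero2.1 (congrFun h g)
  · intro h
    funext g
    exact add_eq_zero2.2 (h g)

theorem range_cobL : LinearMap.range (cobL A) = cobS (A : G → Matrix (Fin n) (Fin n) F) := by
  ext x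
  constructor
  · rintro ⟨m, rfl⟩
    exact ⟨m, fun g => rfl⟩
  · rintro ⟨m, hm⟩
    exact ⟨m, funext fun g => (hm g).symm⟩

/-- The number of coboundaries. -/
theorem finrank_cobS : Module.finrank F (cobS (A : G → Matrix (Fin n) (Fin n) F)) +
    Module.finrank F (fixG A) = n := by
  have h := LinearMap.finrank_range_add_finrank_ker (cobL A)
  rwa [range_cobL, ker_cobL, Module.finrank_fin_fun] at h

end fix

/-! ## Partial sums of powers -/

section psum

/-- partial sums of powers -/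
def psum (B : Matrix (Fin n) (Fin n) F) (u : Fin n → F) : ℕ → Fin n → F
  | 0 => 0
  | k + 1 => psum B u k + B ^ k *ᵥ u

variable {B : Matrix (Fin n) (Fin n) F} {u : Fin n → F}

theorem psum_add (i j : ℕ) : psum B u (i + j) = psum B u i + B ^ i *ᵥ psum B u j := by
  induction j with
  | zero => rw [psum, add_zero, mulVec_zero, add_zero]
  | succ j ih =>
    rw [← add_assoc, psum, ih, psum, mulVec_add, mulVec_mulVec, ← pow_add, add_assoc]

theorem psum_mul {d : ℕ} (hd : B ^ d = 1) (m : ℕ) : psum B u (d * m) = m • psum B u d := by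
  induction m with
  | zero => rw [mul_zero, psum, zero_smul]
  | succ m ih =>
    rw [mul_add, mul_one, add_comm (d * m), psum_add, hd, one_mulVec, ih, succ_nsmul, add_comm]

theorem psum_even {d q : ℕ} (hd : B ^ d = 1) (hq : Even q) : psum B u (d * q) = 0 := by
  obtain ⟨r, rfl⟩ := hq
  rw [psum_mul hd, add_smul, vadd_self]

theorem psum_one : psum B u 1 = u := by
  rw [psum, psum, pow_zero, one_mulVec, zero_add]

end psum

section act

variable {G : Type*} [Group G] {S : FSys G} {χ a : G → ℤ_[2]} {σ τ : G} {l : ℕ}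
  {I : Subgroup G} {φ : G} {ε : G → ZMod 2} {A : G →* Matrix (Fin n) (Fin n) F}

theorem sm_one (hsm : Smooth S (KT.act (A : G → Matrix (Fin n) (Fin n) F))) :
    ∃ W, S.mem W ∧ ∀ w ∈ W, A w = 1 := by
  obtain ⟨W, hW, hW1⟩ := hsm
  refine ⟨W, hW, fun w hw => ?_⟩
  ext i j
  have h1 := congrFun (hW1 w hw (Pi.single j 1)) i
  have h2 : (A w *ᵥ Pi.single j 1) i = (Pi.single j 1 : Fin n → F) i := h1
  rw [mulVec_single_one] at h2
  rw [one_apply]
  simpa [Pi.single_apply, eq_comm] using h2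

/-- The image is cyclic. -/
theorem RamL.cyc (R : RamL S χ a σ τ l I φ ε)
    (hsm : Smooth S (KT.act (A : G → Matrix (Fin n) (Fin n) F))) (hI : ∀ g ∈ I, A g = 1) (g : G) :
    ∃ i : ℕ, A g = A φ ^ i := by
  obtain ⟨W, hW, hW1⟩ := sm_one hsm
  obtain ⟨i, n, hn, h1⟩ := R.dens W hW g
  refine ⟨i, ?_⟩
  have h2 : g = φ ^ i * n * ((φ ^ i * n)⁻¹ * g) := by group
  rw [h2, map_mul, hW1 _ h1, mul_one, map_mul, hI n hn, mul_one, map_pow]

theorem co_one {x : G → Fin n → F} (hx : ∀ g h, x (g * h) = x g + A g *ᵥ x h) : x 1 = 0 := by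
  have h1 := hx 1 1
  rw [one_mul, map_one, one_mulVec] at h1
  exact left_eq_add.1 h1

theorem co_inv {x : G → Fin n → F} (hx : ∀ g h, x (g * h) = x g + A g *ᵥ x h) (g : G) :
    A g *ᵥ x g⁻¹ = x g := by
  have h1 := hx g g⁻¹
  rw [mul_inv_cancel, co_one hx] at h1
  exact (add_eq_zero2.1 h1.symm).symm

/-- a cocycle is trivial on the part of inertia in the kernel of the ramified character -/
theorem RamL.co_zero (R : RamL S χ a σ τ l I φ ε)
    (hsm : Smooth S (KT.act (A : G → Matrix (Fin n) (Fin n) F))) (hI : ∀ g ∈ I, A g = 1)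
    {x : G → Fin n → F} (hx : Z1 S (KT.act (A : G → Matrix (Fin n) (Fin n) F)) x) {g : G} (hg : g ∈ I)
    (hεg : ε g = 0) : x g = 0 := by
  classical
  have hfd : Module.Finite (ZMod 2) F := Module.Finite.of_finite
  let b := Module.finBasis (ZMod 2) F
  obtain ⟨W, hW, hW1⟩ := sm_one hsm
  obtain ⟨⟨V, hV, h1⟩, h2⟩ := hx
  have h2' : ∀ g h, x (g * h) = x g + A g *ᵥ x h := h2
  have hx1 := co_one h2'
  let C : Subgroup G := A.ker
  have hC : ∀ g, g ∈ C ↔ A g = 1 := fun g => MonoidHom.mem_ker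
  have hIC : I ≤ C := fun g hg => (hC g).2 (hI g hg)
  have hopn : Opn S C := ⟨W, hW, fun w hw => (hC w).2 (hW1 w hw)⟩
  funext i
  apply b.repr.injective
  ext k
  rw [Pi.zero_apply, map_zero, Finsupp.zero_apply]
  have hy : (fun c : C => b.repr (x c i) k) ∈ homs (two (res S C)) (⊤ : Subgroup C) := by
    rw [mem_homs_res]
    refine ⟨⟨V, hV, fun w hw => ?_⟩, fun c d => ?_⟩
    · have h3 := h1 1 w hw
      rw [one_mul, hx1] at h3
      show b.repr (x w i) k = 0
      rw [h3, Pi.zero_apply, map_zero, Finsupp.zero_apply]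
    · show b.repr (x (c * d : G) i) k = b.repr (x c i) k + b.repr (x d i) k
      rw [h2', (hC _).1 c.2, one_mulVec, Pi.add_apply, map_add, Finsupp.add_apply]
  exact R.hom_zero hopn hIC hy hg hεg

/-- the values of a cocycle on inertia -/
theorem RamL.co_I (R : RamL S χ a σ τ l I φ ε)
    (hsm : Smooth S (KT.act (A : G → Matrix (Fin n) (Fin n) F))) (hI : ∀ g ∈ I, A g = 1)
    {x : G → Fin n → F} (hx : Z1 S (KT.act (A : G → Matrix (Fin n) (Fin n) F)) x) {g : G} (hg : g ∈ I) :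
    x g = ε g • x τ := by
  by_cases h3 : ε g = 0
  · rw [R.co_zero hsm hI hx hg h3, h3, zero_smul]
  · have h4 : ε g = 1 := by
      have : ∀ a : ZMod 2, a ≠ 0 → a = 1 := by decide
      exact this _ h3
    have h2' : ∀ g h, x (g * h) = x g + A g *ᵥ x h := hx.2
    have h5 : ε (g * τ⁻¹) = 0 := by
      have h6 := R.eadd (g * τ⁻¹) τ
      rw [inv_mul_cancel_right, h4, R.et] at h6
      exact (right_eq_add.1 h6)
    have h6 := R.co_zero hsm hI hx (I.mul_mem hg (I.inv_mem R.tI)) h5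
    have h7 := h2' (g * τ⁻¹) τ
    rw [inv_mul_cancel_right, h6, zero_add, hI _ (I.mul_mem hg (I.inv_mem R.tI)),
      one_mulVec] at h7
    rw [h7, h4, one_smul]

theorem RamL.eps_inv (R : RamL S χ a σ τ l I φ ε) (g : G) : ε g⁻¹ = ε g := by
  have h1 := R.eadd g g⁻¹
  have h2 := R.eadd 1 1
  rw [mul_one] at h2
  rw [mul_inv_cancel, left_eq_add.1 h2] at h1
  have : ∀ a b : ZMod 2, 0 = a + b → b = a := by decide
  exact this _ _ h1

/-- the value at `τ` is fixed -/
theorem RamL.co_fix (R : RamL S χ a σ τ l I φ ε)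
    (hsm : Smooth S (KT.act (A : G → Matrix (Fin n) (Fin n) F))) (hI : ∀ g ∈ I, A g = 1)
    {x : G → Fin n → F} (hx : Z1 S (KT.act (A : G → Matrix (Fin n) (Fin n) F)) x) :
    x τ ∈ fixG A := by
  intro g
  have h2' : ∀ g h, x (g * h) = x g + A g *ᵥ x h := hx.2
  have h3 : g * τ * g⁻¹ ∈ I := by
    have h4 := I.mul_mem (R.comm g τ) R.tI
    rwa [inv_mul_cancel_right] at h4
  have h4 : ε (g * τ * g⁻¹) = 1 := by
    rw [R.eadd, R.eadd, R.et, R.eps_inv, add_comm (ε g) 1, add_assoc]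
    have : ∀ a : ZMod 2, 1 + (a + a) = 1 := by decide
    exact this _
  have h5 := R.co_I hsm hI hx h3
  rw [h4, one_smul, h2', h2', map_mul, hI τ R.tI, mul_one, co_inv h2' g,
    add_comm (x g) (A g *ᵥ x τ), add_assoc, vadd_self, add_zero] at h5
  exact h5

/-- a cocycle with `x φ = 0` and `x τ = 0` is zero -/
theorem RamL.co_inj (R : RamL S χ a σ τ l I φ ε)
    (hsm : Smooth S (KT.act (A : G → Matrix (Fin n) (Fin n) F))) (hI : ∀ g ∈ I, A g = 1)
    {x : G → Fin n → F} (hx : Z1 S (KT.act (A : G → Matrix (Fin n) (Fin n) F)) x) (h1 : x φ = 0)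
    (h2 : x τ = 0) : x = 0 := by
  have h2' : ∀ g h, x (g * h) = x g + A g *ᵥ x h := hx.2
  have hx1 := co_one h2'
  obtain ⟨V, hV, h3⟩ := hx.1
  funext g
  obtain ⟨i, m, hm, h4⟩ := R.dens V hV g
  have h5 : g = φ ^ i * m * ((φ ^ i * m)⁻¹ * g) := by group
  have hpow : ∀ k : ℕ, x (φ ^ k) = 0 := by
    intro k
    induction k with
    | zero => rw [pow_zero, hx1]
    | succ k ih => rw [pow_succ, h2', ih, h1, mulVec_zero, add_zero]
  rw [h5, h3 _ _ h4, h2', hpow, R.co_I hsm hI hx hm, h2, smul_zero, mulVec_zero, add_zero]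
  rfl

/-- the ramified cocycles -/
theorem RamL.co_ram (R : RamL S χ a σ τ l I φ ε) {v : Fin n → F} (hv : v ∈ fixG A) :
    Z1 S (KT.act (A : G → Matrix (Fin n) (Fin n) F)) (fun g => ε g • v) := by
  obtain ⟨⟨W, hW, h1⟩, h2⟩ := (mem_homs_two S).1 R.eps
  have h1' : ∀ w ∈ W, ε w = 0 := h1
  refine ⟨⟨W, hW, fun g w hw => ?_⟩, fun g h => ?_⟩
  · show ε (g * w) • v = ε g • v
    rw [R.eadd, h1' w hw, add_zero]
  · show ε (g * h) • v = ε g • v + A g *ᵥ (ε h • v)
    have h3 : A g *ᵥ (ε h • v) = ε h • v := by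
      rw [smul_Z, mulVec_smul, hv g]
    rw [h3, R.eadd, add_smul]

/-- The unramified cocycles. -/
theorem RamL.co_unr (R : RamL S χ a σ τ l I φ ε)
    (hsm : Smooth S (KT.act (A : G → Matrix (Fin n) (Fin n) F))) (hI : ∀ g ∈ I, A g = 1)
    (u : Fin n → F) : ∃ x, Z1 S (KT.act (A : G → Matrix (Fin n) (Fin n) F)) x ∧ x φ = u ∧
      ∀ g ∈ I, x g = 0 := by
  classical
  obtain ⟨B, hB⟩ : ∃ B, B = A φ := ⟨_, rfl⟩
  -- the order of `B`
  obtain ⟨d, hd0, hd1, hd2⟩ : ∃ d : ℕ, d ≠ 0 ∧ B ^ d = 1 ∧ ∀ m, B ^ m = 1 → d ∣ m := by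
    refine ⟨orderOf B, ?_, pow_orderOf_eq_one B, fun m hm => orderOf_dvd_of_pow_eq_one hm⟩
    have h1 : orderOf B = orderOf (A.toHomUnits φ) := by
      rw [← orderOf_units, MonoidHom.coe_toHomUnits, hB]
    rw [h1]
    exact (orderOf_pos _).ne'
  obtain ⟨k₂, m₂, hm₂, hd⟩ := Nat.exists_eq_two_pow_mul_odd hd0
  obtain ⟨N, e, -, hke, -, hord⟩ := LB.exists_ord R.tame.odd R.tame.lt (k₂ + 1)
  have hl : IsUnit (l : ℤ_[2]) := by
    rw [← R.chF]
    refine IsUnit.of_mul_eq_one (χ φ⁻¹) ?_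
    rw [← R.chr.mul, mul_inv_cancel, R.chr.one]
  -- the indices
  let ok : G → ℕ → Prop := fun g i => A g = B ^ i ∧ (2 : ℤ_[2]) ^ N ∣ χ g - (l : ℤ_[2]) ^ i
  obtain ⟨W, hW, hW1⟩ := sm_one hsm
  obtain ⟨W', hW', hW2⟩ := R.chr.cont N
  have hWN : ∀ w ∈ W', (2 : ℤ_[2]) ^ N ∣ χ w - 1 := by
    intro w hw
    have h1 := hW2 1 w hw
    rwa [one_mul, R.chr.one] at h1
  have hex : ∀ g, ∃ i, ok g i := by
    intro g
    obtain ⟨i, m, hm, h1⟩ := R.dens (W ⊓ W') (S.inf hW hW') g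
    have h2 : g = φ ^ i * m * ((φ ^ i * m)⁻¹ * g) := by group
    refine ⟨i, ?_, ?_⟩
    · rw [h2, map_mul, hW1 _ h1.1, mul_one, map_mul, hI m hm, mul_one, map_pow, hB]
    · have h3 := hWN _ h1.2
      have h4 : χ g = (l : ℤ_[2]) ^ i * χ ((φ ^ i * m)⁻¹ * g) := by
        conv_lhs => rw [h2]
        rw [R.chr.mul, R.chr.mul, R.chI m hm, mul_one, R.chpow]
      rw [h4]
      have h5 : (l : ℤ_[2]) ^ i * χ ((φ ^ i * m)⁻¹ * g) - (l : ℤ_[2]) ^ i =
          (l : ℤ_[2]) ^ i * (χ ((φ ^ i * m)⁻¹ * g) - 1) := by ring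
      rw [h5]
      exact Dvd.dvd.mul_left h3 _
  have hle : ∀ g i j, i ≤ j → ok g i → ok g j → psum B u i = psum B u j := by
    rintro g i j hij ⟨h1, h2⟩ ⟨h3, h4⟩
    obtain ⟨r, rfl⟩ := Nat.exists_eq_add_of_le hij
    have h5 : B ^ r = 1 := by
      have h6 : B ^ i * B ^ r = B ^ i := by rw [← pow_add, ← h3, h1]
      have h7 : A φ⁻¹ ^ i * B ^ i = 1 := by
        rw [hB, ← map_pow, ← map_pow, ← map_mul, inv_pow, inv_mul_cancel, map_one]
      calc B ^ r = A φ⁻¹ ^ i * B ^ i * B ^ r := by rw [h7, one_mul]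
        _ = 1 := by rw [mul_assoc, h6, h7]
    have h6 : (2 : ℤ_[2]) ^ N ∣ (l : ℤ_[2]) ^ r - 1 := by
      have h7 : (2 : ℤ_[2]) ^ N ∣ (l : ℤ_[2]) ^ i * ((l : ℤ_[2]) ^ r - 1) := by
        have h8 := dvd_sub h2 h4
        have h9 : χ g - (l : ℤ_[2]) ^ i - (χ g - (l : ℤ_[2]) ^ (i + r)) =
            (l : ℤ_[2]) ^ i * ((l : ℤ_[2]) ^ r - 1) := by ring
        rwa [h9] at h8
      exact (IsUnit.dvd_mul_left (hl.pow i)).1 h7
    obtain ⟨q, rfl⟩ := hd2 r h5
    have h7 : Even q := by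
      have h8 : 2 ^ (k₂ + 1) ∣ d * q := (pow_dvd_pow 2 hke).trans (hord _ h6)
      rw [hd, pow_succ, mul_assoc] at h8
      have h9 : 2 ∣ m₂ * q := Nat.dvd_of_mul_dvd_mul_left (by positivity) h8
      rcases (Nat.Prime.dvd_mul Nat.prime_two).1 h9 with h | h
      · exact absurd (even_iff_two_dvd.2 h) (Nat.not_even_iff_odd.2 hm₂)
      · exact even_iff_two_dvd.2 h
    rw [psum_add, psum_even hd1 h7, mulVec_zero, add_zero]
  have hwd : ∀ g i j, ok g i → ok g j → psum B u i = psum B u j := by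
    intro g i j h1 h2
    rcases le_total i j with h | h
    · exact hle g i j h h1 h2
    · exact (hle g j i h h2 h1).symm
  choose ix hix using hex
  have hx : ∀ g i, ok g i → psum B u (ix g) = psum B u i := fun g i h => hwd g _ _ (hix g) h
  refine ⟨fun g => psum B u (ix g), ⟨⟨W ⊓ W', S.inf hW hW', fun g w hw => ?_⟩, fun g h => ?_⟩, ?_, ?_⟩
  · refine (hx (g * w) (ix g) ⟨?_, ?_⟩)
    · rw [map_mul, hW1 w hw.1, mul_one]
      exact (hix g).1
    · have h1 := hWN w hw.2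
      have h2 : χ (g * w) - (l : ℤ_[2]) ^ ix g = χ g * (χ w - 1) + (χ g - (l : ℤ_[2]) ^ ix g) := by
        rw [R.chr.mul]
        ring
      rw [h2]
      exact dvd_add (Dvd.dvd.mul_left h1 _) (hix g).2
  · show psum B u (ix (g * h)) = psum B u (ix g) + A g *ᵥ psum B u (ix h)
    rw [hx (g * h) (ix g + ix h) ⟨?_, ?_⟩, psum_add, ← (hix g).1]
    · rw [map_mul, (hix g).1, (hix h).1, pow_add]
    · have h2 : χ (g * h) - (l : ℤ_[2]) ^ (ix g + ix h) =
          χ g * (χ h - (l : ℤ_[2]) ^ ix h) + (l : ℤ_[2]) ^ ix h * (χ g - (l : ℤ_[2]) ^ ix g) := by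
        rw [R.chr.mul, pow_add]
        ring
      rw [h2]
      exact dvd_add (Dvd.dvd.mul_left (hix h).2 _) (Dvd.dvd.mul_left (hix g).2 _)
  · show psum B u (ix φ) = u
    rw [hx φ 1 ⟨by rw [hB, pow_one], by rw [R.chF, pow_one, sub_self]; exact dvd_zero _⟩, psum_one]
  · intro g hg
    show psum B u (ix g) = 0
    rw [hx g 0 ⟨by rw [hI g hg, pow_zero], by rw [R.chI g hg, pow_zero, sub_self]; exact dvd_zero _⟩]
    rfl

/-- THE NUMBER OF LOCAL COCYCLES. -/
theorem RamL.count (R : RamL S χ a σ τ l I φ ε)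
    (hsm : Smooth S (KT.act (A : G → Matrix (Fin n) (Fin n) F))) (hI : ∀ g ∈ I, A g = 1) :
    Module.finrank F (cocS S (A : G → Matrix (Fin n) (Fin n) F)) =
      n + Module.finrank F (fixG A) := by
  let L : cocS S (A : G → Matrix (Fin n) (Fin n) F) →ₗ[F] (Fin n → F) × fixG A :=
    { toFun := fun x => (x.1 φ, ⟨x.1 τ, R.co_fix hsm hI x.2⟩)
      map_add' := fun _ _ => rfl
      map_smul' := fun _ _ => rfl }
  have hL : Function.Bijective L := by
    constructor
    · rw [injective_iff_map_eq_zero]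
      intro x hx
      have h1 : x.1 φ = 0 := congrArg Prod.fst hx
      have h2 : x.1 τ = 0 := congrArg (fun z : (Fin n → F) × fixG A => z.2.1) hx
      exact Subtype.ext (R.co_inj hsm hI x.2 h1 h2)
    · rintro ⟨u, ⟨v, hv⟩⟩
      obtain ⟨x, hx, h1, h2⟩ := R.co_unr hsm hI (u + ε φ • v)
      have h3 := (cocS S (A : G → Matrix (Fin n) (Fin n) F)).add_mem (R.co_ram hv)
        (mem_coc.2 hx)
      refine ⟨⟨_, h3⟩, Prod.ext ?_ (Subtype.ext ?_)⟩
      · show ε φ • v + x φ = u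
        rw [h1, add_comm u, ← add_assoc, vadd_self, zero_add]
      · show ε τ • v + x τ = v
        rw [h2 τ R.tI, add_zero, R.et, one_smul]
  rw [(LinearEquiv.ofBijective L hL).finrank_eq, Module.finrank_prod, Module.finrank_fin_fun]

end act

end Pool.Agent.Work.MP_787500_nt.QP
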