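import Mathlib
import Pool.Agent.Work.MP_787500_nt.QP.N1
import Pool.Agent.Work.MP_787500_nt.KS.V19

/-!
# The parity of the fixed space at the ramified primes; cocycles for the system `big S N`
-/

set_option autoImplicit false
set_option linter.unusedSectionVars false

namespace Pool.Agent.Work.MP_787500_nt.QP

open Matrix
open Pool.Agent.Work.MP_787500_nt.GP (A0 hf smul_hf IsAct TameD tame_gen tw iota)
open Pool.Agent.Work.MP_787500_nt.PA (TwoSys homs)
open Pool.Agent.Work.MP_787500_nt.KR (FSys Z1 Z2 Sm1 Smooth two res zM big CountsF Opn IsChar)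
open Pool.Agent.Work.MP_787500_nt.KT
open Pool.Agent.Work.MP_787500_nt.KS (mem_homs_two cup_z2 iota_cup pad_two)

variable {F : Type*} [Field F] [Finite F] [CharP F 2] [Algebra (ZMod 2) F] {n : ℕ}

section act

variable [Sy F n] {G : Type*} [Group G] {S : FSys G} {χ a : G → ℤ_[2]} {σ τ : G} {l : ℕ}
  {I : Subgroup G} {φ : G} {ε : G → ZMod 2} {A : G →* Matrix (Fin n) (Fin n) F}

theorem tauZ_one : tauZ (1 : Matrix (Fin n) (Fin n) F) = 0 := by
  unfold tauZ
  have h : fixv (1 : Matrix (Fin n) (Fin n) F) = ⊤ := by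
    rw [eq_top_iff]
    intro u _
    rw [mem_fixv, one_mulVec]
  rw [h, finrank_top, Module.finrank_fin_fun]
  exact (ZMod.natCast_eq_zero_iff_even).2 (n_even F n)

/-- the parity of the dimension of the space of fixed vectors is a homomorphism -/
theorem RamL.tau_add (R : RamL S χ a σ τ l I φ ε)
    (hsm : Smooth S (KT.act (A : G → Matrix (Fin n) (Fin n) F))) (hI : ∀ g ∈ I, A g = 1)
    (hsp : ∀ g, IsSp (A g)) (g h : G) : tauZ (A (g * h)) = tauZ (A g) + tauZ (A h) := by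
  obtain ⟨v, hv⟩ := kk_cob_cyclic (A := A) hsp φ (fun g => R.cyc hsm hI g)
  exact tauZ_mul hsp hv g h

theorem RamL.tau_homs (R : RamL S χ a σ τ l I φ ε)
    (hsm : Smooth S (KT.act (A : G → Matrix (Fin n) (Fin n) F))) (hI : ∀ g ∈ I, A g = 1)
    (hsp : ∀ g, IsSp (A g)) : (fun g => tauZ (A g)) ∈ homs (two S) (⊤ : Subgroup G) := by
  rw [mem_homs_two]
  obtain ⟨W, hW, h1⟩ := sm_one hsm
  exact ⟨⟨W, hW, fun w hw => by
    show tauZ (A w) = 0
    rw [h1 w hw, tauZ_one]⟩, fun g h => R.tau_add hsm hI hsp g h⟩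

theorem RamL.fix_eq (R : RamL S χ a σ τ l I φ ε)
    (hsm : Smooth S (KT.act (A : G → Matrix (Fin n) (Fin n) F))) (hI : ∀ g ∈ I, A g = 1) :
    fixG A = fixv (A φ) := by
  ext m
  constructor
  · exact fun h => h φ
  · intro h g
    obtain ⟨i, hi⟩ := R.cyc hsm hI g
    rw [hi]
    have h' : A φ *ᵥ m = m := h
    clear hi
    induction i with
    | zero => rw [pow_zero, one_mulVec]
    | succ i ih => rw [pow_succ, ← mulVec_mulVec, h', ih]

/-- The parity of the dimension of the fixed space. -/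
theorem RamL.tau_sig (R : RamL S χ a σ τ l I φ ε)
    (hsm : Smooth S (KT.act (A : G → Matrix (Fin n) (Fin n) F))) (hI : ∀ g ∈ I, A g = 1)
    (hsp : ∀ g, IsSp (A g)) : tauZ (A σ) = (Module.finrank F (fixG A) : ZMod 2) := by
  obtain ⟨N, e, hkN, hke, -, hord⟩ := LB.exists_ord R.tame.odd R.tame.lt 1
  obtain ⟨W, hW, hW1⟩ := sm_one hsm
  obtain ⟨W', hW', hW2⟩ := R.chr.cont N
  have hWN : ∀ w ∈ W', (2 : ℤ_[2]) ^ N ∣ χ w - 1 := by
    intro w hw
    have h1 := hW2 1 w hw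
    rwa [one_mul, R.chr.one] at h1
  obtain ⟨i, m, hm, h1⟩ := R.dens (W ⊓ W') (S.inf hW hW') σ
  have h2 : σ = φ ^ i * m * ((φ ^ i * m)⁻¹ * σ) := by group
  have h4 : χ σ = (l : ℤ_[2]) ^ i * χ ((φ ^ i * m)⁻¹ * σ) := by
    conv_lhs => rw [h2]
    rw [R.chr.mul, R.chr.mul, R.chI m hm, mul_one, R.chpow]
  have h5 : (2 : ℤ_[2]) ^ N ∣ (l : ℤ_[2]) - (l : ℤ_[2]) ^ i := by
    rw [R.tame.σχ] at h4
    have h6 : (l : ℤ_[2]) - (l : ℤ_[2]) ^ i =
        (l : ℤ_[2]) ^ i * (χ ((φ ^ i * m)⁻¹ * σ) - 1) := by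
      linear_combination h4
    rw [h6]
    exact Dvd.dvd.mul_left (hWN _ h1.2) _
  have hl : IsUnit (l : ℤ_[2]) := by
    rw [← R.chF]
    refine IsUnit.of_mul_eq_one (χ φ⁻¹) ?_
    rw [← R.chr.mul, mul_inv_cancel, R.chr.one]
  have hi : Odd i := by
    rcases i with _ | i
    · exfalso
      have h6 : (2 : ℤ_[2]) ^ N ∣ (l : ℤ_[2]) ^ 1 - 1 := by
        rwa [pow_one, ← pow_zero (l : ℤ_[2])]
      have h7 := hord 1 h6
      rw [Nat.dvd_one, Nat.pow_eq_one] at h7
      rcases h7 with h7 | h7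
      · omega
      · omega
    · have h6 : (2 : ℤ_[2]) ^ N ∣ (l : ℤ_[2]) ^ i - 1 := by
        have h7 : (l : ℤ_[2]) - (l : ℤ_[2]) ^ (i + 1) = -((l : ℤ_[2]) * ((l : ℤ_[2]) ^ i - 1)) := by
          rw [pow_succ]
          ring
        rw [h7, dvd_neg] at h5
        exact (IsUnit.dvd_mul_left hl).1 h5
      have h7 := hord i h6
      have h8 : 2 ∣ i := (dvd_pow_self 2 (by omega)).trans h7
      exact (even_iff_two_dvd.2 h8).add_one
  have h6 : A σ = A φ ^ i := by
    rw [h2, map_mul, hW1 _ h1.1, mul_one, map_mul, hI m hm, mul_one, map_pow]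
  have h7 : ∀ k : ℕ, tauZ (A φ ^ k) = (k : ZMod 2) * tauZ (A φ) := by
    intro k
    induction k with
    | zero => rw [pow_zero, tauZ_one, Nat.cast_zero, zero_mul]
    | succ k ih =>
      have h8 := R.tau_add hsm hI hsp (φ ^ k) φ
      rw [← pow_succ, map_pow, map_pow, ih] at h8
      rw [h8, Nat.cast_succ, add_mul, one_mul]
  have h8 : ((i : ℕ) : ZMod 2) = 1 := (ZMod.natCast_eq_one_iff_odd).2 hi
  rw [h6, h7, h8, one_mul, R.fix_eq hsm hI]
  rfl

/-- The local term. -/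
theorem RamL.term (R : RamL S χ a σ τ l I φ ε)
    (hsm : Smooth S (KT.act (A : G → Matrix (Fin n) (Fin n) F))) (hI : ∀ g ∈ I, A g = 1)
    (hsp : ∀ g, IsSp (A g)) {inv : (G → G → A0) → A0} {u : ℤ_[2]} (hu : IsUnit u)
    (hinv : ∀ f, GP.Z2 (two S) (tw χ) f → inv f = u • iota σ τ l f) (hχ : PA.IsChar (two S) χ) :
    inv (fun g h => hf (ε g * (Module.finrank F (fixv (A h)) : ZMod 2))) =
      hf (Module.finrank F (fixG A) : ZMod 2) := by
  have h1 := R.tau_homs hsm hI hsp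
  have h2 := cup_z2 hχ R.eps h1
  have h3 := hinv _ h2
  refine h3.trans ?_
  rw [iota_cup R.eps R.tame.odd R.et (by rw [hI τ R.tI, tauZ_one]), R.tau_sig hsm hI hsp]
  exact smul_hf (pad_two hu) _

end act

/-! ## The system `big` -/

section big

variable {G : Type*} [Group G] {S : FSys G} {N : Subgroup G} {A : G →* Matrix (Fin n) (Fin n) F}

theorem sm_big (hsm : Smooth (big S N) (KT.act (A : G → Matrix (Fin n) (Fin n) F))) :
    Smooth S (KT.act (A : G → Matrix (Fin n) (Fin n) F)) := by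
  obtain ⟨W, ⟨-, ⟨V, hV, hVW⟩, -⟩, h1⟩ := hsm
  exact ⟨V, hV, fun w hw => h1 w (hVW hw)⟩

/-- The cocycles for `big S N`. -/
theorem cocS_big (hsm : Smooth (big S N) (KT.act (A : G → Matrix (Fin n) (Fin n) F))) :
    cocS (big S N) (A : G → Matrix (Fin n) (Fin n) F) = cocS S (A : G → Matrix (Fin n) (Fin n) F) := by
  ext x
  rw [mem_coc, mem_coc]
  constructor
  · rintro ⟨⟨W, ⟨-, ⟨V, hV, hVW⟩, -⟩, h1⟩, h2⟩
    exact ⟨⟨V, hV, fun g w hw => h1 g w (hVW hw)⟩, h2⟩
  · rintro ⟨⟨V, hV, h1⟩, h2⟩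
    refine ⟨?_, h2⟩
    have h2' : ∀ g h, x (g * h) = x g + A g *ᵥ x h := h2
    have hx1 := co_one h2'
    obtain ⟨W₀, hW₀, hA⟩ := sm_one hsm
    obtain ⟨hn, ⟨V₀, hV₀, hVW₀⟩, k₀, hk₀⟩ := hW₀
    let W' : Subgroup G :=
      { carrier := {g | g ∈ W₀ ∧ x g = 0}
        mul_mem' := by
          rintro a b ⟨ha, ha'⟩ ⟨hb, hb'⟩
          refine ⟨mul_mem ha hb, ?_⟩
          rw [h2', ha', hb', mulVec_zero, add_zero]
        one_mem' := ⟨W₀.one_mem, hx1⟩
        inv_mem' := by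
          rintro a ⟨ha, ha'⟩
          refine ⟨inv_mem ha, ?_⟩
          have h3 := h2' a a⁻¹
          rw [mul_inv_cancel, hx1, ha', zero_add, hA a ha, one_mulVec] at h3
          exact h3.symm }
    have hW' : ∀ g, g ∈ W' ↔ g ∈ W₀ ∧ x g = 0 := fun g => Iff.rfl
    refine ⟨W', ⟨⟨fun w hw g => ?_⟩, ⟨V ⊓ V₀, S.inf hV hV₀, fun g hg => ?_⟩, ?_⟩, fun g w hw => ?_⟩
    · rw [hW'] at hw ⊢
      refine ⟨hn.conj_mem w hw.1 g, ?_⟩
      rw [h2', h2', hw.2, mulVec_zero, add_zero, map_mul, hA w hw.1, mul_one, co_inv h2']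
      exact vadd_self _
    · rw [hW']
      refine ⟨hVW₀ hg.2, ?_⟩
      have h3 := h1 1 g hg.1
      rwa [one_mul, hx1] at h3
    · -- the index
      have hle : W' ≤ W₀ := fun g hg => hg.1
      let f : (W₀ ⊓ N : Subgroup G) →* Multiplicative (Fin n → F) :=
        { toFun := fun g => Multiplicative.ofAdd (x g)
          map_one' := by
            show Multiplicative.ofAdd (x 1) = 1
            rw [hx1]
            rfl
          map_mul' := fun a b => by
            show Multiplicative.ofAdd (x (a * b)) = _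
            rw [h2', hA a a.2.1, one_mulVec]
            rfl }
      have hf : ∀ g : (W₀ ⊓ N : Subgroup G), g ∈ f.ker ↔ x g = 0 := fun g => Iff.rfl
      have h3 : W'.relIndex (W₀ ⊓ N) = f.ker.index := by
        show (W'.subgroupOf (W₀ ⊓ N)).index = _
        congr 1
        ext g
        rw [Subgroup.mem_subgroupOf, hW', hf]
        exact ⟨fun h => h.2, fun h => ⟨g.2.1, h⟩⟩
      have h4 : ∃ k, f.ker.index = 2 ^ k := by
        rw [Subgroup.index_ker]
        have h5 : Nat.card f.range ∣ Nat.card (Multiplicative (Fin n → F)) :=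
          Subgroup.card_subgroup_dvd_card _
        have h6 : ∃ m, Nat.card (Multiplicative (Fin n → F)) = 2 ^ m := by
          have hfd : Module.Finite (ZMod 2) F := Module.Finite.of_finite
          refine ⟨Module.finrank (ZMod 2) (Fin n → F), ?_⟩
          have h7 : Nat.card (Fin n → F) = Nat.card (ZMod 2) ^ Module.finrank (ZMod 2) (Fin n → F) :=
            Module.natCard_eq_pow_finrank
          rw [Nat.card_zmod] at h7
          exact h7
        obtain ⟨m, hm⟩ := h6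
        rw [hm] at h5
        obtain ⟨k, -, hk⟩ := (Nat.dvd_prime_pow Nat.prime_two).1 h5
        exact ⟨k, hk⟩
      obtain ⟨k, hk⟩ := h4
      have h5 : W₀.relIndex N = (W₀ ⊓ N).relIndex N := (Subgroup.inf_relIndex_right _ _).symm
      have h6 : W'.relIndex N = (W' ⊓ N).relIndex N := (Subgroup.inf_relIndex_right _ _).symm
      have h7 := Subgroup.relIndex_mul_relIndex (W' ⊓ N) (W₀ ⊓ N) N
        (inf_le_inf_right N hle) inf_le_right
      have h8 : (W' ⊓ N).relIndex (W₀ ⊓ N) = W'.relIndex (W₀ ⊓ N) := by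
        have e : W' ⊓ N ⊓ (W₀ ⊓ N) = W' ⊓ (W₀ ⊓ N) := by
          ext g
          simp only [Subgroup.mem_inf]
          tauto
        rw [← Subgroup.inf_relIndex_right, e, Subgroup.inf_relIndex_right]
      rw [h8, h3, hk, ← h5, hk₀, ← h6] at h7
      exact ⟨k + k₀, by rw [← h7, pow_add]⟩
    · rw [h2', hw.2, mulVec_zero, add_zero]

end big

end Pool.Agent.Work.MP_787500_nt.QP
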