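import Mathlib
import Pool.Agent.Work.MP_787500_nt.QP.N2
import Pool.Agent.Work.MP_787500_nt.GA.RealLD

/-!
# The Kramer step with local numbers; the real place
-/

set_option autoImplicit false
set_option linter.unusedSectionVars false

namespace Pool.Agent.Work.MP_787500_nt.QP

open Matrix
open Pool.Agent.Work.MP_787500_nt.GP (A0 hf smul_hf IsAct tw)
open Pool.Agent.Work.MP_787500_nt.KR (FSys Z1 Z2 Sm1 Smooth IsChar)
open Pool.Agent.Work.MP_787500_nt.KT
open Pool.Agent.Work.MP_787500_nt.GA (IsReal invR z1_real)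

variable {F : Type*} [Field F] [Finite F] [CharP F 2] [Algebra (ZMod 2) F] {n : ℕ} [Sy F n]

section sum

variable {G : Type*} [Group G] {S : FSys G} {I : Type*} [Fintype I] {D : I → Type*}
  [∀ i, Group (D i)] {SD : ∀ i, FSys (D i)} {j : ∀ i, D i →* G} {χ : G → ℤ_[2]}
  {inv : ∀ i, (D i → D i → A0) → A0} {tr : ((G → G → G → A0) × (∀ i, D i → D i → A0)) →+ A0}
  {A : G →* Matrix (Fin n) (Fin n) F} {ε : G → ZMod 2}
  {sp : I → Prop} {X : ∀ i, Submodule F (D i → Fin n → F)} {t : I → ℕ}

/-- the local coboundaries as a product -/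
noncomputable def cobE (H : KH S SD j χ inv tr A ε sp X t) :
    CobN SD j A sp ≃ₗ[F] ∀ i : {i // ¬ sp i}, cobS (Ai j A i.1) where
  toFun x i := ⟨(x.1 i).1, x.2 i⟩
  invFun y := ⟨fun i => ⟨(y i).1, cob_Z1 H i.1 (y i).2⟩, fun i => (y i).2⟩
  left_inv _ := rfl
  right_inv _ := rfl
  map_add' _ _ := rfl
  map_smul' _ _ := rfl

open scoped Classical in
/-- THE KRAMER STEP with local numbers. -/
theorem kramer_sum (H : KH S SD j χ inv tr A ε sp X t) (m : I → ℕ)
    (hm : ∀ i, ¬ sp i → Module.finrank F (cocS (SD i) (Ai j A i : D i → Matrix (Fin n) (Fin n) F)) =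
      Module.finrank F (cobS (Ai j A i : D i → Matrix (Fin n) (Fin n) F)) + 2 * m i) :
    FiniteDimensional F (Sel S j A ε sp X) ∧
      Even (Module.finrank F (Sel S j A ε sp X) + ∑ i, if sp i then 0 else m i + t i) := by
  have hf3 := H.finLoc
  have hfd : ∀ i, FiniteDimensional F (cocS (SD i) (Ai j A i : D i → Matrix (Fin n) (Fin n) F)) :=
    fun i => Module.Finite.of_finite
  have hfd' : ∀ i, FiniteDimensional F (cobS (Ai j A i : D i → Matrix (Fin n) (Fin n) F)) := by
    intro i
    have hle : cobS (Ai j A i : D i → Matrix (Fin n) (Fin n) F) ≤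
        cocS (SD i) (Ai j A i : D i → Matrix (Fin n) (Fin n) F) := fun x hx => cob_Z1 H i hx
    exact Submodule.finiteDimensional_of_le hle
  have h1 : Module.finrank F (LocN SD j A sp) = ∑ i : {i // ¬ sp i},
      Module.finrank F (cocS (SD i.1) (Ai j A i.1 : D i.1 → Matrix (Fin n) (Fin n) F)) :=
    Module.finrank_pi_fintype F
  have h2 : Module.finrank F (CobN SD j A sp) = ∑ i : {i // ¬ sp i},
      Module.finrank F (cobS (Ai j A i.1 : D i.1 → Matrix (Fin n) (Fin n) F)) := by
    rw [(cobE H).finrank_eq]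
    exact Module.finrank_pi_fintype F
  have h3 : ∑ i : {i // ¬ sp i}, m i.1 = ∑ i, if sp i then 0 else m i := by
    rw [← Finset.sum_subtype (Finset.univ.filter fun i => ¬ sp i) (by simp) m, Finset.sum_filter]
    refine Finset.sum_congr rfl fun i _ => ?_
    by_cases h : sp i
    · rw [if_pos h, if_neg (not_not.2 h)]
    · rw [if_neg h, if_pos h]
  obtain ⟨h4, h5⟩ := kramer H (m := ∑ i, if sp i then 0 else m i) (by
    rw [h1, h2, ← h3, Finset.mul_sum, ← Finset.sum_add_distrib]
    exact Finset.sum_congr rfl fun i _ => hm i.1 i.2)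
  refine ⟨h4, ?_⟩
  rw [add_assoc, ← Finset.sum_add_distrib] at h5
  convert h5 using 2
  refine Finset.sum_congr rfl fun i _ => ?_
  split_ifs <;> rfl

end sum

/-! ## The real place -/

section real

variable {D : Type*} [Group D] {c : D} {SD : FSys D} {χ : D → ℤ_[2]} {A : D →* Matrix (Fin n) (Fin n) F}

theorem real_fix (h : IsReal c SD χ) : fixG A = fixv (A c) := by
  ext m
  constructor
  · exact fun h => h c
  · intro h1 g
    rcases h.all g with rfl | rfl
    · rw [map_one, one_mulVec]
    · exact h1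

/-- the cocycles at a real place -/
theorem real_count (h : IsReal c SD χ) (hc : c ≠ 1) :
    Module.finrank F (cocS SD (A : D → Matrix (Fin n) (Fin n) F)) = Module.finrank F (fixG A) := by
  classical
  rw [real_fix h]
  let L : cocS SD (A : D → Matrix (Fin n) (Fin n) F) →ₗ[F] fixv (A c) :=
    { toFun := fun x => ⟨x.1 c, by
        have h1 : x.1 c + A c *ᵥ x.1 c = 0 := ((z1_real h (isAct_act A)).1 x.2).2
        exact (add_eq_zero2.1 h1).symm⟩
      map_add' := fun _ _ => rfl
      map_smul' := fun _ _ => rfl }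
  have hL : Function.Bijective L := by
    constructor
    · rw [injective_iff_map_eq_zero]
      intro x hx
      have h1 : x.1 c = 0 := congrArg Subtype.val hx
      have h2 := ((z1_real h (isAct_act A)).1 x.2).1
      refine Subtype.ext (funext fun g => ?_)
      rcases h.all g with rfl | rfl
      · exact h2
      · exact h1
    · rintro ⟨u, hu⟩
      refine ⟨⟨fun d => if d = 1 then 0 else u, (z1_real h (isAct_act A)).2 ⟨if_pos rfl, ?_⟩⟩,
        Subtype.ext (if_neg hc)⟩
      rw [if_neg hc]
      have h3 : A c *ᵥ u = u := hu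
      show u + A c *ᵥ u = 0
      rw [h3, vadd_self]
  exact (LinearEquiv.ofBijective L hL).finrank_eq

/-- THE NUMBERS AT THE REAL PLACE. -/
theorem real_num (h : IsReal c SD χ) (hc : c ≠ 1) {ε : D → ZMod 2} (h1 : ε 1 = 0) (hε : ε c = 1) :
    ∃ m : ℕ, Module.finrank F (cocS SD (A : D → Matrix (Fin n) (Fin n) F)) =
      Module.finrank F (cobS (A : D → Matrix (Fin n) (Fin n) F)) + 2 * m ∧
      Even (m + Module.finrank F (fixv (A c)) + n / 2) ∧
      invR c (fun d d' => hf (ε d * (Module.finrank F (fixv (A d')) : ZMod 2))) =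
        hf (Module.finrank F (fixv (A c)) : ZMod 2) := by
  have h2 := real_count (A := A) h hc
  have h3 := finrank_cobS A
  have h4 : Module.finrank F (cobS (A : D → Matrix (Fin n) (Fin n) F)) ≤
      Module.finrank F (cocS SD (A : D → Matrix (Fin n) (Fin n) F)) := by
    have hfin : Finite D := h.fin
    have : Module.Finite F (D → Fin n → F) := inferInstance
    refine Submodule.finrank_mono ?_
    rintro x ⟨m, hm⟩
    show Z1 SD (KT.act (A : D → Matrix (Fin n) (Fin n) F)) x
    rw [z1_real h (isAct_act A)]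
    constructor
    · rw [hm, map_one, one_mulVec, vadd_self]
    · rw [hm]
      show A c *ᵥ m + m + A c *ᵥ (A c *ᵥ m + m) = 0
      rw [mulVec_add, mulVec_mulVec, ← map_mul, h.sq, map_one, one_mulVec, add_comm m (A c *ᵥ m),
        vadd_self]
  obtain ⟨r, hr⟩ := n_even F n
  rw [← real_fix h]
  refine ⟨Module.finrank F (fixG A) - r, by omega, ⟨Module.finrank F (fixG A), by omega⟩, ?_⟩
  show hf (ε c * (Module.finrank F (fixv (A c)) : ZMod 2)) +
    hf (ε 1 * (Module.finrank F (fixv (A 1)) : ZMod 2)) = _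
  rw [hε, h1, one_mul, zero_mul, real_fix h]
  have : hf (0 : ZMod 2) = 0 := GP.hf_zero
  rw [this, add_zero]

end real

end Pool.Agent.Work.MP_787500_nt.QP
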