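import Mathlib
import Pool.Agent.Work.MP_787500_nt.QP.N4
import Pool.Agent.Work.MP_787500_nt.QS.KQ
import Pool.Agent.Work.MP_787500_nt.KS.V10

/-!
# The parity of the Selmer space for the family of places of `QS.KQ`

`RamPl`, `InfPl`: the ramified places and the place at infinity. `RamPl.num`, `InfPl.num`: the local numbers. `RamPl.unr`, `InfPl.unr`: at these
places `y` is a coboundary if and only if `a` vanishes on inertia. `selQ_parity`: the parity.
-/

set_option autoImplicit false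
set_option linter.unusedSectionVars false

namespace Pool.Agent.Work.MP_787500_nt.QP

open Matrix
open Pool.Agent.Work.MP_787500_nt.GP (A0 hf smul_hf IsAct tw cup11 iota)
open Pool.Agent.Work.MP_787500_nt.KR (FSys Z1 Z2 Sm1 Smooth IsChar LocH LDual d0_Z1 big two)
open Pool.Agent.Work.MP_787500_nt.KS (ep)
open Pool.Agent.Work.MP_787500_nt.KT
open Pool.Agent.Work.MP_787500_nt.GA (IsReal invR)
open Pool.Agent.Work.MP_787500_nt.QS (Two KQ gQ sQ jQ iQ)

universe u v

variable {F : Type v} [Field F] [Finite F] [CharP F 2] [Algebra (ZMod 2) F] {n : ℕ} [Sy F n]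

/-! ## Cocycles `(a, a + y)` -/

section pair

variable {X : Type*} [Group X] {A : X →* Matrix (Fin n) (Fin n) F} {ε : X → ZMod 2}
  {a y : X → Fin n → F}

theorem pr_one (hy : ∀ g h, y (g * h) = y g + A g *ᵥ y h)
    (ha : ∀ g h, a (g * h) = a g + A g *ᵥ a h + ε g • (A g *ᵥ y h)) : a 1 = 0 := by
  have h1 := ha 1 1
  rw [one_mul, map_one, one_mulVec, one_mulVec, co_one hy, smul_zero, add_zero] at h1
  exact left_eq_add.1 h1

end pair

/-! ## The ramified places -/

section ram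

variable {X Γ : Type*} [Group X] [Group Γ] {T : FSys X} {jx : X →* Γ} {iv : (X → X → A0) → A0}
  {χq : Γ → ℤ_[2]} {ε : Γ → ZMod 2} {In : Set X} {I : Subgroup X} {A : Γ →* Matrix (Fin n) (Fin n) F}

/-- a ramified place: `I` is the inertia group, `In` the inertia group of the quadratic field -/
structure RamPl (T : FSys X) (jx : X →* Γ) (iv : (X → X → A0) → A0) (χq : Γ → ℤ_[2])
    (ε : Γ → ZMod 2) (In : Set X) (I : Subgroup X) : Prop where
  ex : ∃ (S₀ : FSys X) (N : Subgroup X) (a : X → ℤ_[2]) (σ τ : X) (l : ℕ) (φ : X) (u : ℤ_[2]),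
    T = big S₀ N ∧ RamL S₀ (fun d => χq (jx d)) a σ τ l I φ (fun d => ε (jx d)) ∧ IsUnit u ∧
    ∀ f, GP.Z2 (two S₀) (tw fun d => χq (jx d)) f → iv f = u • iota σ τ l f
  mem : ∀ d, d ∈ In ↔ d ∈ I ∧ ε (jx d) = 0

/-- the place at infinity -/
structure InfPl (T : FSys X) (jx : X →* Γ) (iv : (X → X → A0) → A0) (χq : Γ → ℤ_[2]) (c : Γ)
    (In : Set X) (t : X) : Prop where
  real : IsReal t T fun d => χq (jx d)
  ne : t ≠ 1
  jt : jx t = c
  iv : iv = invR t
  mem : ∀ d ∈ In, d = 1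

/-- THE NUMBERS at a ramified place. -/
theorem RamPl.num (R : RamPl T jx iv χq ε In I)
    (hsm : Smooth T (KT.act (A.comp jx : X → Matrix (Fin n) (Fin n) F))) (hI : ∀ d ∈ I, A (jx d) = 1)
    (hsp : ∀ g, IsSp (A g)) :
    (∃ g₀ : X, ∀ d, ∃ m : ℕ, A (jx d) = A (jx g₀) ^ m) ∧
    ∃ m : ℕ, Module.finrank F (cocS T (A.comp jx : X → Matrix (Fin n) (Fin n) F)) =
      Module.finrank F (cobS (A.comp jx : X → Matrix (Fin n) (Fin n) F)) + 2 * m ∧
      iv (fun d d' => hf (ε (jx d) * (Module.finrank F (fixv (A (jx d'))) : ZMod 2))) =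
        hf (m : ZMod 2) := by
  obtain ⟨S₀, N, a, σ, τ, l, φ, u, rfl, R', hu, hiv⟩ := R.ex
  have hsm0 := sm_big hsm
  have hI' : ∀ g ∈ I, (A.comp jx) g = 1 := hI
  have hsp' : ∀ g, IsSp ((A.comp jx) g) := fun g => hsp _
  refine ⟨⟨φ, fun d => R'.cyc hsm0 hI' d⟩, Module.finrank F (fixG (A.comp jx)), ?_, ?_⟩
  · rw [cocS_big hsm, R'.count hsm0 hI']
    have h4 := finrank_cobS (A.comp jx)
    omega
  · exact R'.term hsm0 hI' hsp' hu hiv R'.tame.char

/-- At a ramified place `y` is a coboundary if and only if `a` vanishes on the inertia group of the quadratic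
field. -/
theorem RamPl.unr (R : RamPl T jx iv χq ε In I)
    (hsm : Smooth T (KT.act (A.comp jx : X → Matrix (Fin n) (Fin n) F))) (hI : ∀ d ∈ I, A (jx d) = 1)
    {a y : X → Fin n → F} (hy : Z1 T (KT.act (A.comp jx : X → Matrix (Fin n) (Fin n) F)) y)
    (ha : Sm1 T a) (hc : ∀ g h, a (g * h) = a g + A (jx g) *ᵥ a h + ε (jx g) • (A (jx g) *ᵥ y h)) :
    (∀ d ∈ In, a d = 0) ↔ ∃ p : Fin n → F, ∀ d, y d = A (jx d) *ᵥ p + p := by
  obtain ⟨S₀, N, a', σ, τ, l, φ, u, rfl, R', hu, hiv⟩ := R.ex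
  have hsm0 := sm_big hsm
  have hI' : ∀ g ∈ I, (A.comp jx) g = 1 := hI
  have hy2 : ∀ g h, y (g * h) = y g + A (jx g) *ᵥ y h := hy.2
  have hy1 : y 1 = 0 := co_one (A := A.comp jx) hy2
  have ha1 : a 1 = 0 := pr_one (A := A.comp jx) (ε := fun d => ε (jx d)) hy2 hc
  have hadd : ∀ g h, ε (jx (g * h)) = ε (jx g) + ε (jx h) := R'.eadd
  have hinv : ∀ g, ε (jx g⁻¹) = ε (jx g) := R'.eps_inv
  have hτ : ε (jx τ) = 1 := R'.et
  have hAτ : A (jx τ) = 1 := hI τ R'.tI
  constructor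
  · intro h0
    -- `y τ = a (τ τ) = 0`
    have hττ : a (τ * τ) = 0 := by
      refine h0 _ ((R.mem _).2 ⟨I.mul_mem R'.tI R'.tI, ?_⟩)
      rw [hadd, hτ]
      decide
    have hyτ : y τ = 0 := by
      rw [hc, hAτ, one_mulVec, one_mulVec, hτ, one_smul, vadd_self, zero_add] at hττ
      exact hττ
    have key : ∀ g, ε (jx g) = 0 → y g = A (jx g) *ᵥ a τ + a τ := by
      intro g hg
      have h1 : τ * g = (τ * g * τ⁻¹ * g⁻¹) * (g * τ) := by group
      obtain ⟨ι, hι⟩ : ∃ ι, ι = τ * g * τ⁻¹ * g⁻¹ := ⟨_, rfl⟩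
      rw [← hι] at h1
      have hιI : ι ∈ I := by
        rw [hι]
        exact R'.comm τ g
      have hιε : ε (jx ι) = 0 := by
        rw [hι, hadd, hadd, hadd, hinv, hinv, hg, hτ]
        decide
      have hι0 : a ι = 0 := h0 ι ((R.mem ι).2 ⟨hιI, hιε⟩)
      have h2 : a (τ * g) = a τ + a g + y g := by
        rw [hc, hAτ, one_mulVec, one_mulVec, hτ, one_smul]
      have h3 : a (ι * (g * τ)) = a g + A (jx g) *ᵥ a τ := by
        rw [hc, hc g τ, hι0, hI ι hιI, one_mulVec, hιε, zero_smul, hg, zero_smul, add_zero, add_zero,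
          zero_add]
      rw [h1, h3] at h2
      have h4 : y g = (a g + A (jx g) *ᵥ a τ) + (a g + a τ) := by
        rw [h2]
        have e : ∀ p q r : Fin n → F, r = p + q + r + (q + p) := by
          intro p q r
          have h : p + q + r + (q + p) = (p + p) + (q + q) + r := by abel
          rw [h, vadd_self, vadd_self, zero_add, zero_add]
        exact e _ _ _
      rw [h4]
      have e : ∀ p q r : Fin n → F, p + q + (p + r) = q + r := by
        intro p q r
        have h : p + q + (p + r) = (p + p) + (q + r) := by abel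
        rw [h, vadd_self, zero_add]
      exact e _ _ _
    refine ⟨a τ, fun d => ?_⟩
    by_cases hd : ε (jx d) = 0
    · exact key d hd
    · have hd1 : ε (jx d) = 1 := by
        have : ∀ a : ZMod 2, a ≠ 0 → a = 1 := by decide
        exact this _ hd
      have h1 : ε (jx (d * τ⁻¹)) = 0 := by
        rw [hadd, hinv, hd1, hτ]
        decide
      have h2 := hy2 (d * τ⁻¹) τ
      rw [inv_mul_cancel_right, hyτ, mulVec_zero, add_zero, key _ h1, map_mul, map_mul, map_inv,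
        ] at h2
      have h3 : A (jx τ)⁻¹ = 1 := by
        have h4 : A (jx τ)⁻¹ * A (jx τ) = 1 := by rw [← map_mul, inv_mul_cancel, map_one]
        rwa [hAτ, mul_one] at h4
      rw [h3, mul_one] at h2
      exact h2
  · rintro ⟨p, hp⟩ d hd
    obtain ⟨hdI, hdε⟩ := (R.mem d).1 hd
    -- the cocycle `a'' = a + d (p, 0)`
    have h3 : Z1 S₀ (KT.act (A.comp jx : X → Matrix (Fin n) (Fin n) F))
        (fun g => a g + if ε (jx g) = 0 then A (jx g) *ᵥ p + p else p) := by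
      obtain ⟨W, ⟨-, ⟨V, hV, hVW⟩, -⟩, h1⟩ := ha
      obtain ⟨W₁, hW₁, h4⟩ := sm_one hsm0
      obtain ⟨⟨Wε, ⟨-, ⟨Vε, hVε, hVWε⟩, -⟩, h1ε⟩, -⟩ := R'.eps
      have hE : ∀ w ∈ Vε, ∀ g, ε (jx (g * w)) = ε (jx g) := fun w hw g => h1ε g w (hVWε hw)
      refine ⟨⟨V ⊓ (W₁ ⊓ Vε), S₀.inf hV (S₀.inf hW₁ hVε), fun g w hw => ?_⟩, fun g h => ?_⟩
      · have h5 : A (jx w) = 1 := h4 w hw.2.1
        beta_reduce
        rw [h1 g w (hVW hw.1), hE w hw.2.2 g, map_mul, map_mul, h5, mul_one]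
      · have h6 : A (jx (g * h)) = A (jx g) * A (jx h) := by rw [map_mul, map_mul]
        show a (g * h) + (if ε (jx (g * h)) = 0 then A (jx (g * h)) *ᵥ p + p else p) =
          a g + (if ε (jx g) = 0 then A (jx g) *ᵥ p + p else p) +
            A (jx g) *ᵥ (a h + if ε (jx h) = 0 then A (jx h) *ᵥ p + p else p)
        rw [hc, hp h, hadd, h6]
        have hz : ∀ z : ZMod 2, z = 0 ∨ z = 1 := by decide
        have h01 : (0 : ZMod 2) + 1 = 1 := by decide
        have h10 : (1 : ZMod 2) + 0 = 1 := by decide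
        have h11 : (1 : ZMod 2) + 1 = 0 := by decide
        have h1n : (1 : ZMod 2) ≠ 0 := by decide
        have e : ∀ q : Fin n → F, q + q = 0 := vadd_self
        rcases hz (ε (jx g)) with hg | hg <;> rcases hz (ε (jx h)) with hh | hh
        · rw [hg, hh, add_zero, if_pos rfl, if_pos rfl, if_pos rfl, zero_smul, add_zero]
          simp only [mulVec_add, mulVec_mulVec]
          have : a g + A (jx g) *ᵥ a h + ((A (jx g) * A (jx h)) *ᵥ p + p) =
            a g + A (jx g) *ᵥ a h + ((A (jx g) * A (jx h)) *ᵥ p + p) +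
              (A (jx g) *ᵥ p + A (jx g) *ᵥ p) := by rw [e, add_zero]
          rw [this]
          abel
        · rw [hg, hh, h01, if_neg h1n, if_pos rfl, if_neg h1n, zero_smul, add_zero]
          simp only [mulVec_add, mulVec_mulVec]
          have : a g + A (jx g) *ᵥ a h + p =
            a g + A (jx g) *ᵥ a h + p + (A (jx g) *ᵥ p + A (jx g) *ᵥ p) := by rw [e, add_zero]
          rw [this]
          abel
        · rw [hg, hh, h10, if_neg h1n, if_neg h1n, if_pos rfl, one_smul]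
          simp only [mulVec_add, mulVec_mulVec]
          abel
        · rw [hg, hh, h11, if_pos rfl, if_neg h1n, if_neg h1n, one_smul]
          simp only [mulVec_add, mulVec_mulVec]
          have : a g + A (jx g) *ᵥ a h + ((A (jx g) * A (jx h)) *ᵥ p + A (jx g) *ᵥ p) +
              ((A (jx g) * A (jx h)) *ᵥ p + p) =
            a g + A (jx g) *ᵥ a h + p + A (jx g) *ᵥ p +
              ((A (jx g) * A (jx h)) *ᵥ p + (A (jx g) * A (jx h)) *ᵥ p) := by abel
          rw [this, e, add_zero]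
          abel
    have h4 := R'.co_zero hsm0 hI' h3 hdI hdε
    beta_reduce at h4
    rw [if_pos hdε, hI d hdI, one_mulVec, vadd_self, add_zero] at h4
    exact h4

theorem InfPl.num {c : Γ} {t : X} (R : InfPl T jx iv χq c In t) (h1 : ε 1 = 0) (hc : ε c = 1) :
    (∃ g₀ : X, ∀ d, ∃ m : ℕ, A (jx d) = A (jx g₀) ^ m) ∧
    ∃ m r : ℕ, Module.finrank F (cocS T (A.comp jx : X → Matrix (Fin n) (Fin n) F)) =
      Module.finrank F (cobS (A.comp jx : X → Matrix (Fin n) (Fin n) F)) + 2 * m ∧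
      Even (m + r + n / 2) ∧
      iv (fun d d' => hf (ε (jx d) * (Module.finrank F (fixv (A (jx d'))) : ZMod 2))) =
        hf (r : ZMod 2) := by
  constructor
  · refine ⟨t, fun d => ?_⟩
    rcases R.real.all d with rfl | rfl
    · exact ⟨0, by rw [map_one, map_one, pow_zero]⟩
    · exact ⟨1, by rw [pow_one]⟩
  · obtain ⟨m, h2, h3, h4⟩ := real_num (A := A.comp jx) R.real R.ne (ε := fun d => ε (jx d))
      (by show ε (jx 1) = 0; rw [map_one, h1]) (by show ε (jx t) = 1; rw [R.jt, hc])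
    refine ⟨m, _, h2, h3, ?_⟩
    rw [R.iv]
    exact h4

theorem InfPl.unr {c : Γ} {t : X} (R : InfPl T jx iv χq c In t) (hε : ε c = 1)
    {a y : X → Fin n → F} (hy : Z1 T (KT.act (A.comp jx : X → Matrix (Fin n) (Fin n) F)) y)
    (hc : ∀ g h, a (g * h) = a g + A (jx g) *ᵥ a h + ε (jx g) • (A (jx g) *ᵥ y h)) :
    (∀ d ∈ In, a d = 0) ↔ ∃ p : Fin n → F, ∀ d, y d = A (jx d) *ᵥ p + p := by
  have hy2 : ∀ g h, y (g * h) = y g + A (jx g) *ᵥ y h := hy.2
  have hy1 : y 1 = 0 := co_one (A := A.comp jx) hy2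
  have ha1 : a 1 = 0 := pr_one (A := A.comp jx) (ε := fun d => ε (jx d)) hy2 hc
  constructor
  · intro _
    refine ⟨a t, fun d => ?_⟩
    rcases R.real.all d with rfl | rfl
    · rw [hy1, map_one, map_one, one_mulVec, vadd_self]
    · have h1 := hc d d
      rw [R.real.sq, ha1, R.jt, hε, one_smul] at h1
      rw [R.jt]
      have hcc : A c * A c = 1 := by
        rw [← R.jt, ← map_mul, ← map_mul, R.real.sq, map_one, map_one]
      have h2 : A c *ᵥ (a d + A c *ᵥ a d + A c *ᵥ y d) = 0 := by rw [← h1, mulVec_zero]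
      rw [mulVec_add, mulVec_add, mulVec_mulVec, mulVec_mulVec, hcc, one_mulVec, one_mulVec] at h2
      exact (add_eq_zero2.1 h2).symm
  · intro _ d hd
    rw [R.mem d hd, ha1]

end ram

/-! ## The parity -/

section main

variable {G : Type*} [Group G] {S : FSys G} {Φ Ψ : Type*} [Fintype Φ] [Fintype Ψ] {D : Φ → Type u}
  [∀ w, Group (D w)] {SD : ∀ w, FSys (D w)} {j : ∀ w, D w →* G} {χ : G → ℤ_[2]}
  {inv : ∀ w, (D w → D w → A0) → A0} {κ : G →* G} {Γ : Type*} [Group Γ]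
  {Sq : FSys Γ} {E : Ψ → Type u} [∀ p, Group (E p)] {SE : ∀ p, FSys (E p)} {je : ∀ p, E p →* Γ}
  {χq : Γ → ℤ_[2]} {inve : ∀ p, (E p → E p → A0) → A0} {e : G →* Γ} {c : Γ}
  {In : ∀ p, Set (E p)}
  {tr : ((Γ → Γ → Γ → A0) × (∀ i, gQ D E i → gQ D E i → A0)) →+ A0}
  {A : Γ →* Matrix (Fin n) (Fin n) F}

/-- the split places -/
def spS (Φ Ψ : Type*) : Φ ⊕ Ψ → Prop
  | .inl _ => True
  | .inr _ => False

/-- the local conditions -/
def XS (D : Φ → Type u) (E : Ψ → Type u) (X : ∀ w, Submodule F (D w → Fin n → F)) :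
    ∀ i, Submodule F (gQ D E i → Fin n → F)
  | .inl w => X w
  | .inr _ => ⊥

/-- the hypotheses on the places in `Ψ`: `p₀` is the place at infinity, the others are ramified -/
structure PlH (e : G →* Γ) (c : Γ) (χq : Γ → ℤ_[2]) (SE : ∀ p, FSys (E p)) (je : ∀ p, E p →* Γ)
    (inve : ∀ p, (E p → E p → A0) → A0) (In : ∀ p, Set (E p)) (J : ∀ p, Subgroup (E p)) (p₀ : Ψ) : Prop where
  ram : ∀ p, p ≠ p₀ → RamPl (SE p) (je p) (inve p) χq (ep e) (In p) (J p)
  inf : ∃ t, InfPl (SE p₀) (je p₀) (inve p₀) χq c (In p₀) t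

theorem ep_e (g : G) : ep e (e g) = 0 := if_pos ⟨g, rfl⟩

theorem ep_c (X : Two e c κ) : ep e c = 1 := if_neg fun ⟨g, h⟩ => X.nc g h

theorem ep_ec (X : Two e c κ) (g : G) : ep e (e g * c) = 1 := if_neg fun ⟨g', h⟩ => X.out g g' h

theorem c_e (X : Two e c κ) (g : G) : c * e g = e (κ g) * c := by
  rw [X.kap, mul_assoc, X.cc, mul_one]

theorem ep_add2 (X : Two e c κ) (σ τ : Γ) : ep e (σ * τ) = ep e σ + ep e τ := by
  rcases X.cases σ with ⟨g, rfl⟩ | ⟨g, rfl⟩ <;> rcases X.cases τ with ⟨k, rfl⟩ | ⟨k, rfl⟩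
  · rw [← map_mul, ep_e, ep_e, ep_e, add_zero]
  · rw [← mul_assoc, ← map_mul, ep_ec X, ep_e, ep_ec X, zero_add]
  · rw [mul_assoc, c_e X, ← mul_assoc, ← map_mul, ep_ec X, ep_ec X, ep_e, add_zero]
  · rw [mul_assoc, ← mul_assoc c, c_e X, mul_assoc, X.cc, mul_one, ← map_mul, ep_e, ep_ec X, ep_ec X]
    decide

theorem smQ (K : KQ.{u, v} S SD j χ inv κ Sq SE je χq inve e c In tr)
    (hsm : Smooth S (KT.act (A.comp e : G → Matrix (Fin n) (Fin n) F))) :
    Smooth Sq (KT.act (A : Γ → Matrix (Fin n) (Fin n) F)) := by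
  obtain ⟨W, hW, h1⟩ := hsm
  obtain ⟨W', hW', h2⟩ := K.up W hW
  refine ⟨W', hW', fun σ hσ m => ?_⟩
  obtain ⟨g, hg, rfl⟩ := h2 σ hσ
  exact h1 g hg m

theorem epQ_sm (K : KQ.{u, v} S SD j χ inv κ Sq SE je χq inve e c In tr) : Sm1 Sq (ep e) := by
  obtain ⟨W, hW⟩ := S.ex
  obtain ⟨W', hW', h2⟩ := K.up W hW
  refine ⟨W', hW', fun σ w hw => ?_⟩
  obtain ⟨g, -, rfl⟩ := h2 w hw
  rw [ep_add2 K.two, ep_e, add_zero]

open scoped Classical in
/-- THE PARITY OF THE SELMER SPACE. -/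
theorem selQ_parity (K : KQ.{u, v} S SD j χ inv κ Sq SE je χq inve e c In tr)
    {J : ∀ p, Subgroup (E p)} {p₀ : Ψ} (P : PlH e c χq SE je inve In J p₀)
    (hsp : ∀ g, IsSp (A g)) (hsm : Smooth S (KT.act (A.comp e : G → Matrix (Fin n) (Fin n) F)))
    (hJ : ∀ p, p ≠ p₀ → ∀ d ∈ J p, A (je p d) = 1)
    {X : ∀ w, Submodule F (D w → Fin n → F)}
    (hlag : ∀ w x, x ∈ X w ↔ Z1 (SD w) (KT.act fun d => A (e (j w d))) x ∧
        ∀ y ∈ X w, inv w (cup11 (KT.act fun d => A (e (j w d))) BU x y) = 0) :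
    FiniteDimensional F (Sel Sq (jQ e j je) A (ep e) (spS Φ Ψ) (XS D E X)) ∧
      Even (Module.finrank F (Sel Sq (jQ e j je) A (ep e) (spS Φ Ψ) (XS D E X)) + n / 2) := by
  have hsmQ := smQ K hsm
  have hglob := K.glob.glob
  have hpair : KR.Pair Sq χq (KT.act (A : Γ → Matrix (Fin n) (Fin n) F))
      (KT.act (A : Γ → Matrix (Fin n) (Fin n) F)) (BU : (Fin n → F) →+ (Fin n → F) →+ A0) :=
    pair_BU hglob.char hsp hsmQ
  have he1 : ep e 1 = 0 := by
    rw [← map_one e]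
    exact ep_e 1
  -- the numbers
  have key : ∀ i : Φ ⊕ Ψ, ∃ m t : ℕ, ¬ spS Φ Ψ i →
      (∃ g₀ : gQ D E i, ∀ d, ∃ r : ℕ, A (jQ e j je i d) = A (jQ e j je i g₀) ^ r) ∧
      Module.finrank F (cocS (sQ SD SE i) (Ai (jQ e j je) A i :
        gQ D E i → Matrix (Fin n) (Fin n) F)) =
        Module.finrank F (cobS (Ai (jQ e j je) A i : gQ D E i → Matrix (Fin n) (Fin n) F)) + 2 * m ∧
      iQ inv inve i (fun d d' => hf (ep e (jQ e j je i d) *
        (Module.finrank F (fixv (A (jQ e j je i d'))) : ZMod 2))) = hf (t : ZMod 2) ∧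
      Even (m + t + if i = .inr p₀ then n / 2 else 0) := by
    intro i
    match i with
    | .inl w => exact ⟨0, 0, fun h => absurd trivial h⟩
    | .inr p =>
      by_cases hp : p = p₀
      · subst hp
        obtain ⟨t, R⟩ := P.inf
        obtain ⟨h1, m, r, h2, h3, h4⟩ := R.num (A := A) (ε := ep e) he1 (ep_c K.two)
        refine ⟨m, r, fun _ => ⟨h1, h2, h4, ?_⟩⟩
        rw [if_pos rfl]
        exact h3
      · obtain ⟨h1, m, h2, h3⟩ := (P.ram p hp).num (A := A) (hsmQ.comp (hglob.jsm (.inr p)))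
          (hJ p hp) hsp
        refine ⟨m, m, fun _ => ⟨h1, h2, h3, ?_⟩⟩
        rw [if_neg (fun h => hp (Sum.inr_injective h)), add_zero]
        exact ⟨m, rfl⟩
  choose m t hmt using key
  have hKH : KT.KH Sq (sQ SD SE) (jQ e j je) χq (iQ inv inve) tr A (ep e) (spS Φ Ψ) (XS D E X) t :=
    { glob := hglob
      istr := K.glob.istr
      pp := K.glob.pp hpair
      ld := fun i => K.glob.ld i hpair
      fin := K.glob.fin hpair
      det := hsp
      sm := hsmQ
      eadd := ep_add2 K.two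
      esm := epQ_sm K
      esp := fun i hi d => by
        match i, hi with
        | .inl w, _ => exact ep_e (j w d)
      lag := fun i hi => by
        match i, hi with
        | .inl w, _ => exact hlag w
      cyc := fun i hi => (hmt i hi).1
      tau := fun i hi => (hmt i hi).2.2.1 }
  obtain ⟨h1, h2⟩ := kramer_sum hKH m fun i hi => (hmt i hi).2.1
  refine ⟨h1, ?_⟩
  have h3 : Even ((∑ i, if spS Φ Ψ i then 0 else m i + t i) + n / 2) := by
    have h4 : (∑ i, if spS Φ Ψ i then 0 else m i + t i) + n / 2 =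
        ∑ i : Φ ⊕ Ψ, ((if spS Φ Ψ i then 0 else m i + t i) + if i = .inr p₀ then n / 2 else 0) := by
      rw [Finset.sum_add_distrib, Finset.sum_ite_eq' Finset.univ (Sum.inr p₀)]
      simp
    rw [h4]
    refine Finset.sum_induction _ Even (fun a b ha hb => ha.add hb) Even.zero fun i _ => ?_
    by_cases hi : spS Φ Ψ i
    · have hne' : i ≠ .inr p₀ := by
        rintro rfl
        exact hi
      rw [if_pos hi, if_neg hne']
      exact Even.zero
    · rw [if_neg hi]
      exact (hmt i hi).2.2.2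
  obtain ⟨r, hr⟩ := h2.add h3
  exact ⟨r - ∑ i, (if spS Φ Ψ i then 0 else m i + t i), by omega⟩

end main

end Pool.Agent.Work.MP_787500_nt.QP
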