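import Mathlib
import Pool.Agent.Work.MP_787500_nt.KS.LA
import Pool.Agent.Work.MP_787500_nt.KS.Alg

/-!
# A symmetric form of even rank over a perfect field of characteristic 2 has a Lagrangian subspace
-/

set_option autoImplicit false
set_option linter.unusedSectionVars false

namespace Pool.Agent.Work.MP_787500_nt.QP

open Pool.Agent.Work.MP_787500_nt.KS (ann mem_ann finrank_ann ker_le_ann rt rt_sq rt_of_sq)

variable {F : Type*} [Field F] [CharP F 2] [PerfectRing F 2] {W : Type*} [AddCommGroup W] [Module F W]
  [FiniteDimensional F W]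

/-- A LAGRANGIAN SUBSPACE. -/
theorem exists_lag {b : W →ₗ[F] W →ₗ[F] F} (hs : ∀ x y, b x y = b y x)
    (he : Even (Module.finrank F W + Module.finrank F (LinearMap.ker b))) :
    ∃ X : Submodule F W, ann b X = X ∧
      2 * Module.finrank F X = Module.finrank F W + Module.finrank F (LinearMap.ker b) := by
  -- take an isotropic subspace of maximal dimension
  have hex : ∃ n, ∃ X : Submodule F W, X ≤ ann b X ∧ Module.finrank F W - Module.finrank F X = n :=
    ⟨_, ⊥, bot_le, rfl⟩
  classical
  obtain ⟨X, h1, h2⟩ := Nat.find_spec hex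
  have hmin := fun n (hn : n < Nat.find hex) => Nat.find_min hex hn
  -- an orthogonal isotropic vector belongs to the subspace
  have key : ∀ x ∈ ann b X, b x x = 0 → x ∈ X := by
    intro x hx hxx
    by_contra hxX
    have h3 : X ⊔ Submodule.span F {x} ≤ ann b (X ⊔ Submodule.span F {x}) := by
      intro y hy z hz
      obtain ⟨y₁, hy₁, y₂, hy₂, rfl⟩ := Submodule.mem_sup.1 hy
      obtain ⟨z₁, hz₁, z₂, hz₂, rfl⟩ := Submodule.mem_sup.1 hz
      obtain ⟨c, rfl⟩ := Submodule.mem_span_singleton.1 hy₂
      obtain ⟨c', rfl⟩ := Submodule.mem_span_singleton.1 hz₂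
      simp only [map_add, map_smul, LinearMap.add_apply, LinearMap.smul_apply, hxx, smul_zero,
        add_zero]
      rw [h1 hy₁ z₁ hz₁, hs y₁ x, hx y₁ hy₁, hx z₁ hz₁]
      simp
    have h4 : X < X ⊔ Submodule.span F {x} := by
      refine lt_of_le_of_ne le_sup_left fun h5 => hxX ?_
      rw [h5]
      exact Submodule.mem_sup_right (Submodule.mem_span_singleton_self x)
    have h5 := Submodule.finrank_lt_finrank_of_lt h4
    have h6 := Submodule.finrank_le (X ⊔ Submodule.span F {x})
    exact hmin (Module.finrank F W - Module.finrank F (X ⊔ Submodule.span F {x} : Submodule F W))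
      (by omega) ⟨_, h3, rfl⟩
  have hker : LinearMap.ker b ≤ X := by
    intro x hx
    refine key x (ker_le_ann X hx) ?_
    rw [LinearMap.mem_ker] at hx
    rw [hx, LinearMap.zero_apply]
  -- the square root of the diagonal
  let q : ann b X →ₗ[F] F :=
    { toFun := fun x => rt (b x.1 x.1)
      map_add' := fun x y => by
        rw [← map_add]
        congr 1
        show b (x.1 + y.1) (x.1 + y.1) = b x.1 x.1 + b y.1 y.1
        simp only [map_add, LinearMap.add_apply]
        rw [hs y.1 x.1]
        have h3 : b x.1 y.1 + b x.1 y.1 = 0 := CharTwo.add_self_eq_zero _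
        linear_combination h3
      map_smul' := fun a x => by
        show rt (b (a • x.1) (a • x.1)) = a * rt (b x.1 x.1)
        simp only [map_smul, LinearMap.smul_apply, smul_eq_mul]
        rw [← mul_assoc, ← pow_two, map_mul, rt_of_sq] }
  have hq : LinearMap.ker q = X.comap (ann b X).subtype := by
    ext x
    rw [LinearMap.mem_ker, Submodule.mem_comap]
    constructor
    · intro h3
      refine key x.1 x.2 ?_
      rw [← rt_sq (b x.1 x.1)]
      have h4 : rt (b x.1 x.1) = 0 := h3
      rw [h4, zero_pow two_ne_zero]
    · intro h3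
      show rt (b x.1 x.1) = 0
      rw [x.2 x.1 h3, map_zero]
  have h3 := LinearMap.finrank_range_add_finrank_ker q
  have h4 : Module.finrank F (LinearMap.range q) ≤ 1 := by
    have := Submodule.finrank_le (LinearMap.range q)
    rwa [Module.finrank_self] at this
  have h5 : Module.finrank F (LinearMap.ker q) = Module.finrank F X := by
    rw [hq]
    exact (Submodule.comapSubtypeEquivOfLe h1).finrank_eq
  have h6 := finrank_ann hs hker
  rw [h5] at h3
  obtain ⟨r, hr⟩ := he
  have h7 : Module.finrank F (ann b X) = Module.finrank F X := by omega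
  exact ⟨X, (Submodule.eq_of_le_of_finrank_eq h1 h7.symm).symm, by omega⟩

end Pool.Agent.Work.MP_787500_nt.QP
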