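import Mathlib
import Pool.Agent.Work.MP_787500_nt.QP.M1
import Pool.Agent.Work.MP_787500_nt.QP.N1
import Pool.Agent.Work.MP_787500_nt.KS.Main

/-!
# Local conditions that are their own annihilators
-/

set_option autoImplicit false
set_option linter.unusedSectionVars false

namespace Pool.Agent.Work.MP_787500_nt.QP

open Matrix
open Pool.Agent.Work.MP_787500_nt.GP (A0 hf smul_hf IsAct tw cup11)
open Pool.Agent.Work.MP_787500_nt.KR (FSys Z1 Z2 Sm1 Smooth IsChar LocH LDual d0_Z1)
open Pool.Agent.Work.MP_787500_nt.KS (ann mem_ann trace_trick hfT hfT_nondeg)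
open Pool.Agent.Work.MP_787500_nt.KT

variable {F : Type*} [Field F] [Finite F] [CharP F 2] [Algebra (ZMod 2) F] {n : ℕ} [Sy F n]

variable {D : Type*} [Group D] {SD : FSys D} {χ : D → ℤ_[2]} {inv : (D → D → A0) → A0}
  {A : D →* Matrix (Fin n) (Fin n) F}

theorem cob_coc (hs : Smooth SD (KT.act (A : D → Matrix (Fin n) (Fin n) F))) :
    cobS (A : D → Matrix (Fin n) (Fin n) F) ≤ cocS SD (A : D → Matrix (Fin n) (Fin n) F) := by
  rintro x ⟨m, hm⟩
  have h := d0_Z1 (isAct_act A) hs m
  show Z1 SD (KT.act (A : D → Matrix (Fin n) (Fin n) F)) x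
  convert h using 1
  funext g
  rw [d0_act, hm]

/-- LOCAL CONDITIONS THAT ARE THEIR OWN ANNIHILATORS. -/
theorem exists_locLag (L : LocH SD χ inv) (hA : ∀ g, IsSp (A g))
    (hs : Smooth SD (KT.act (A : D → Matrix (Fin n) (Fin n) F)))
    (ld : LDual SD inv (KT.act (A : D → Matrix (Fin n) (Fin n) F))
      (KT.act (A : D → Matrix (Fin n) (Fin n) F)) (BU : (Fin n → F) →+ (Fin n → F) →+ A0))
    (he : Even (Module.finrank F (cocS SD (A : D → Matrix (Fin n) (Fin n) F)) +
      Module.finrank F (cobS (A : D → Matrix (Fin n) (Fin n) F)))) :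
    ∃ X : Submodule F (D → Fin n → F),
      (∀ x, x ∈ X ↔ Z1 SD (KT.act (A : D → Matrix (Fin n) (Fin n) F)) x ∧
        ∀ y ∈ X, inv (cup11 (KT.act (A : D → Matrix (Fin n) (Fin n) F)) BU x y) = 0) ∧
      cobS (A : D → Matrix (Fin n) (Fin n) F) ≤ X ∧
      2 * Module.finrank F X = Module.finrank F (cocS SD (A : D → Matrix (Fin n) (Fin n) F)) +
        Module.finrank F (cobS (A : D → Matrix (Fin n) (Fin n) F)) := by
  have hfin : Finite (cocS SD (A : D → Matrix (Fin n) (Fin n) F)) := ld.fin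
  have hfd : FiniteDimensional F (cocS SD (A : D → Matrix (Fin n) (Fin n) F)) := Module.Finite.of_finite
  let τ : cocS SD (A : D → Matrix (Fin n) (Fin n) F) →+
      cocS SD (A : D → Matrix (Fin n) (Fin n) F) →+ A0 :=
    AddMonoidHom.mk' (fun z => AddMonoidHom.mk' (fun t =>
        inv (cup11 (KT.act (A : D → Matrix (Fin n) (Fin n) F)) BU z.1 t.1))
        (fun t t' => inv_add_right L hA hs z.2 t.2 t'.2))
      (fun z z' => by
        refine DFunLike.ext _ _ fun t => ?_
        exact inv_add_left L hA hs z.2 z'.2 t.2)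
  have hτ : ∀ z t, τ z t = inv (cup11 (KT.act (A : D → Matrix (Fin n) (Fin n) F)) BU z.1 t.1) :=
    fun _ _ => rfl
  have hbal : ∀ (c : F) y z, τ (c • y) z = τ y (c • z) := by
    intro c y z
    rw [hτ, hτ]
    congr 1
    exact cup_smul c y.1 z.1
  obtain ⟨b, hb⟩ := trace_trick τ hbal
  have hone : ∀ y z, τ y z = hfT (b y z) := by
    intro y z
    have := hb 1 y z
    rwa [one_smul, one_mul] at this
  have hsym : ∀ x y, b x y = b y x := by
    intro x y
    rw [← sub_eq_zero]
    refine hfT_nondeg fun a => ?_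
    rw [mul_sub, map_sub, ← hb, ← hb, hbal, sub_eq_zero, hτ, hτ]
    exact inv_symm L hA hs x.2 (a • y).2
  have hker : ∀ x : cocS SD (A : D → Matrix (Fin n) (Fin n) F), x ∈ LinearMap.ker b ↔
      x.1 ∈ cobS (A : D → Matrix (Fin n) (Fin n) F) := by
    intro x
    rw [LinearMap.mem_ker]
    constructor
    · intro h
      obtain ⟨m, hm⟩ := ld.one x.1 x.2 fun y hy => by
        have h1 := hone x ⟨y, hy⟩
        rw [h, LinearMap.zero_apply, map_zero, hτ] at h1
        exact h1
      exact ⟨m, fun g => by rw [hm, d0_act]⟩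
    · rintro h
      refine LinearMap.ext fun y => ?_
      rw [LinearMap.zero_apply]
      refine hfT_nondeg fun a => ?_
      rw [← hb, hbal, hτ]
      exact inv_cob_left L hA hs h (a • y).2
  have hkr : LinearMap.ker b = (cobS (A : D → Matrix (Fin n) (Fin n) F)).comap
      (cocS SD (A : D → Matrix (Fin n) (Fin n) F)).subtype := by
    ext x
    exact hker x
  have hkf : Module.finrank F (LinearMap.ker b) =
      Module.finrank F (cobS (A : D → Matrix (Fin n) (Fin n) F)) := by
    rw [hkr]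
    exact (Submodule.comapSubtypeEquivOfLe (cob_coc hs)).finrank_eq
  obtain ⟨X₀, h1, h2⟩ := exists_lag hsym (by rw [hkf]; exact he)
  have hiff : ∀ x : cocS SD (A : D → Matrix (Fin n) (Fin n) F), x ∈ X₀ ↔
      ∀ y ∈ X₀, τ x y = 0 := by
    intro x
    constructor
    · intro h y hy
      rw [← h1] at h
      rw [hone, h y hy, map_zero]
    · intro h
      rw [← h1]
      intro y hy
      refine hfT_nondeg fun a => ?_
      rw [← hb, hbal]
      exact h _ (X₀.smul_mem a hy)
  refine ⟨X₀.map (cocS SD (A : D → Matrix (Fin n) (Fin n) F)).subtype, fun x => ?_, fun x hx => ?_, ?_⟩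
  · constructor
    · rintro ⟨x, hx, rfl⟩
      refine ⟨x.2, ?_⟩
      rintro _ ⟨y, hy, rfl⟩
      exact (hiff x).1 hx y hy
    · rintro ⟨h3, h4⟩
      exact ⟨⟨x, h3⟩, (hiff ⟨x, h3⟩).2 fun y hy => h4 _ ⟨y, hy, rfl⟩, rfl⟩
  · refine ⟨⟨x, cob_coc hs hx⟩, ?_, rfl⟩
    rw [SetLike.mem_coe, ← h1]
    exact KS.ker_le_ann _ ((hker _).2 hx)
  · rw [← hkf, ← h2]
    congr 1
    exact (Submodule.equivMapOfInjective _ (Submodule.subtype_injective _) X₀).finrank_eq.symm

end Pool.Agent.Work.MP_787500_nt.QP
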