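import Mathlib
import Pool.Agent.Work.MP_787500_nt.QP.M3

/-!
# The Selmer space over the rational numbers and over the quadratic field

`SelK`: the cocycles over the quadratic field that satisfy the conditions at the split places and their conjugates. `sel_equiv`: the space
`KT.Sel` is isomorphic to `SelK × F ^ n`: `(a, y)` corresponds to the restriction of `a` and to `a c`.
-/

set_option autoImplicit false
set_option linter.unusedSectionVars false

namespace Pool.Agent.Work.MP_787500_nt.QP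

open Matrix
open Pool.Agent.Work.MP_787500_nt.GP (A0 hf smul_hf IsAct tw cup11 iota)
open Pool.Agent.Work.MP_787500_nt.KR (FSys Z1 Z2 Sm1 Smooth IsChar LocH LDual d0_Z1 big two)
open Pool.Agent.Work.MP_787500_nt.KS (ep)
open Pool.Agent.Work.MP_787500_nt.KT
open Pool.Agent.Work.MP_787500_nt.GA (IsReal invR)
open Pool.Agent.Work.MP_787500_nt.QS (Two KQ gQ sQ jQ iQ)

universe u v

variable {F : Type v} [Field F] [Finite F] [CharP F 2] [Algebra (ZMod 2) F] {n : ℕ} [Sy F n]

section alg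

variable {G Γ : Type*} [Group G] [Group Γ] {e : G →* Γ} {c : Γ} {κ : G →* G}
  {A : Γ →* Matrix (Fin n) (Fin n) F}

theorem A_cc (X : Two e c κ) (m : Fin n → F) : A c *ᵥ (A c *ᵥ m) = m := by
  rw [mulVec_mulVec, ← map_mul, X.cc, map_one, one_mulVec]

theorem A_mul (σ τ : Γ) (m : Fin n → F) : A (σ * τ) *ᵥ m = A σ *ᵥ (A τ *ᵥ m) := by
  rw [map_mul, mulVec_mulVec]

theorem A_ce (X : Two e c κ) (g : G) (m : Fin n → F) :
    A c *ᵥ (A (e g) *ᵥ m) = A (e (κ g)) *ᵥ (A c *ᵥ m) := by
  rw [← A_mul, ← A_mul, c_e X]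

theorem A_ck (X : Two e c κ) (g : G) (m : Fin n → F) :
    A c *ᵥ (A (e (κ g)) *ᵥ m) = A (e g) *ᵥ (A c *ᵥ m) := by
  rw [A_ce X, X.kk]

/-- the value of `y` at `c` -/
theorem y_c (X : Two e c κ) {a y : Γ → Fin n → F} (hy : ∀ σ τ, y (σ * τ) = y σ + A σ *ᵥ y τ)
    (ha : ∀ σ τ, a (σ * τ) = a σ + A σ *ᵥ a τ + ep e σ • (A σ *ᵥ y τ)) :
    y c = A c *ᵥ a c + a c := by
  have ha1 : a 1 = 0 := pr_one hy ha
  have h1 := ha c c
  rw [X.cc, ha1, ep_c X, one_smul] at h1
  have h2 : A c *ᵥ (a c + A c *ᵥ a c + A c *ᵥ y c) = 0 := by rw [← h1, mulVec_zero]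
  rw [mulVec_add, mulVec_add, A_cc X, A_cc X] at h2
  exact (add_eq_zero2.1 h2).symm

/-- the value at the conjugate -/
theorem a_kap (X : Two e c κ) {a y : Γ → Fin n → F} (hy : ∀ σ τ, y (σ * τ) = y σ + A σ *ᵥ y τ)
    (ha : ∀ σ τ, a (σ * τ) = a σ + A σ *ᵥ a τ + ep e σ • (A σ *ᵥ y τ)) (g : G) :
    A c *ᵥ a (e (κ g)) = a (e g) + y (e g) + (A (e g) *ᵥ (A c *ᵥ a c) + A c *ᵥ a c) := by
  have h1 := y_c X hy ha
  have h2 : a (e (κ g)) = a c + A c *ᵥ a (e g * c) + A c *ᵥ y (e g * c) := by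
    rw [X.kap, mul_assoc, ha, ep_c X, one_smul]
  have h3 : a (e g * c) = a (e g) + A (e g) *ᵥ a c := by
    rw [ha, ep_e, zero_smul, add_zero]
  rw [h2, mulVec_add, mulVec_add, A_cc X, A_cc X, h3, hy, h1, mulVec_add]
  have e' : ∀ p q r s t : Fin n → F, p + (q + r) + (s + (t + r)) = q + s + (t + p) + (r + r) := by
    intro p q r s t
    abel
  rw [e', vadd_self, add_zero]

/-! ### The inverse map -/

variable (A) in
open scoped Classical in
/-- a function on the large group with given values -/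
noncomputable def ext2 (e : G →* Γ) (f g : G → Fin n → F) (c : Γ) (σ : Γ) : Fin n → F :=
  if h : ∃ k, e k = σ then f h.choose
  else if h : ∃ k, e k * c = σ then g h.choose else 0

theorem ext2_e (X : Two e c κ) (f g : G → Fin n → F) (k : G) : ext2 e f g c (e k) = f k := by
  have h : ∃ k', e k' = e k := ⟨k, rfl⟩
  have h1 : h.choose = k := X.inj h.choose_spec
  rw [ext2, dif_pos h, h1]

theorem ext2_ec (X : Two e c κ) (f g : G → Fin n → F) (k : G) : ext2 e f g c (e k * c) = g k := by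
  have h0 : ¬∃ k', e k' = e k * c := fun ⟨k', h⟩ => X.out k k' h
  have h : ∃ k', e k' * c = e k * c := ⟨k, rfl⟩
  have h1 : h.choose = k := X.inj (mul_right_cancel h.choose_spec)
  rw [ext2, dif_neg h0, dif_pos h, h1]

variable (A) in
/-- the second cocycle over the quadratic field -/
noncomputable def betK (e : G →* Γ) (c : Γ) (κ : G →* G) (x : G → Fin n → F) (m : Fin n → F) (g : G) :
    Fin n → F :=
  A c *ᵥ x (κ g) + (A (e g) *ᵥ (A c *ᵥ m) + A c *ᵥ m)

variable (A) in
/-- the function `y` -/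
noncomputable def yK (e : G →* Γ) (c : Γ) (κ : G →* G) (x : G → Fin n → F) (m : Fin n → F) :
    Γ → Fin n → F :=
  ext2 e (fun g => x g + betK A e c κ x m g)
    (fun g => x g + betK A e c κ x m g + A (e g) *ᵥ (A c *ᵥ m + m)) c

variable (A) in
/-- the function `a` -/
noncomputable def aK (e : G →* Γ) (c : Γ) (x : G → Fin n → F) (m : Fin n → F) :
    Γ → Fin n → F := ext2 e x (fun g => x g + A (e g) *ᵥ m) c

theorem betK_coc (X : Two e c κ) {x : G → Fin n → F} (hx : ∀ g h, x (g * h) = x g + A (e g) *ᵥ x h)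
    (m : Fin n → F) (g h : G) :
    betK A e c κ x m (g * h) = betK A e c κ x m g + A (e g) *ᵥ betK A e c κ x m h := by
  unfold betK
  rw [map_mul κ, hx, mulVec_add, A_ck X, map_mul e, A_mul, mulVec_add, mulVec_add]
  have e' : ∀ p q r s t : Fin n → F, p + q + (r + s) = p + (t + s) + (q + (r + t)) := by
    intro p q r s t
    have : p + (t + s) + (q + (r + t)) = p + q + (r + s) + (t + t) := by abel
    rw [this, vadd_self, add_zero]
  exact e' _ _ _ _ _

theorem betK_kap (X : Two e c κ) (x : G → Fin n → F) (m : Fin n → F) (g : G) :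
    A c *ᵥ betK A e c κ x m g + m = x (κ g) + A (e (κ g)) *ᵥ m := by
  unfold betK
  rw [mulVec_add, mulVec_add, A_cc X, A_cc X, A_ce X, A_cc X]
  have : x (κ g) + (A (e (κ g)) *ᵥ m + m) + m = x (κ g) + A (e (κ g)) *ᵥ m + (m + m) := by abel
  rw [this, vadd_self, add_zero]

theorem yK_coc (X : Two e c κ) {x : G → Fin n → F} (hx : ∀ g h, x (g * h) = x g + A (e g) *ᵥ x h)
    (m : Fin n → F) (σ τ : Γ) :
    yK A e c κ x m (σ * τ) = yK A e c κ x m σ + A σ *ᵥ yK A e c κ x m τ := by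
  have hb := betK_coc X hx m
  -- the values of `A c` on `α + β`
  have key : ∀ h : G, A c *ᵥ (x h + betK A e c κ x m h) + (A c *ᵥ m + m) =
      x (κ h) + betK A e c κ x m (κ h) + A (e (κ h)) *ᵥ (A c *ᵥ m + m) := by
    intro h
    have h1 := betK_kap (A := A) X x m h
    have h2 : A c *ᵥ betK A e c κ x m h = x (κ h) + A (e (κ h)) *ᵥ m + m := by
      rw [← h1, add_assoc, vadd_self, add_zero]
    rw [mulVec_add, h2]
    have h3 : betK A e c κ x m (κ h) = A c *ᵥ x h + (A (e (κ h)) *ᵥ (A c *ᵥ m) + A c *ᵥ m) := by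
      unfold betK
      rw [X.kk]
    rw [h3, mulVec_add]
    have e' : ∀ p q r s t u : Fin n → F, p + (q + r + s) + (t + s) = q + (p + (u + t)) + (u + r) := by
      intro p q r s t u
      have h1 : p + (q + r + s) + (t + s) = p + q + r + t + (s + s) := by abel
      have h2 : q + (p + (u + t)) + (u + r) = p + q + r + t + (u + u) := by abel
      rw [h1, h2, vadd_self, vadd_self]
    exact e' _ _ _ _ _ _
  unfold yK
  rcases X.cases σ with ⟨g, rfl⟩ | ⟨g, rfl⟩ <;> rcases X.cases τ with ⟨h, rfl⟩ | ⟨h, rfl⟩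
  · rw [← map_mul, ext2_e X, ext2_e X, ext2_e X, hx, hb, mulVec_add]
    abel
  · rw [← mul_assoc, ← map_mul, ext2_ec X, ext2_e X, ext2_ec X, hx, hb, map_mul e, A_mul]
    simp only [mulVec_add]
    abel
  · have h1 : e g * c * e h = e (g * κ h) * c := by
      rw [mul_assoc, c_e X, ← mul_assoc, ← map_mul]
    rw [h1, ext2_ec X, ext2_ec X, ext2_e X, A_mul, hx, hb, map_mul e, A_mul]
    have h2 := key h
    have h3 : A c *ᵥ (x h + betK A e c κ x m h) = x (κ h) + betK A e c κ x m (κ h) +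
        A (e (κ h)) *ᵥ (A c *ᵥ m + m) + (A c *ᵥ m + m) := by
      rw [← h2, add_assoc, vadd_self, add_zero]
    rw [h3, mulVec_add (A (e g)) _ (A c *ᵥ m + m), mulVec_add (A (e g)) _ (A (e (κ h)) *ᵥ _),
      mulVec_add (A (e g)) (x (κ h)) _]
    have e' : ∀ p q r s t u : Fin n → F, p + q + (r + s) + t =
        p + r + u + (q + s + t + u) := by
      intro p q r s t u
      have : p + r + u + (q + s + t + u) = p + q + (r + s) + t + (u + u) := by abel
      rw [this, vadd_self, add_zero]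
    exact e' _ _ _ _ _ _
  · have h1 : e g * c * (e h * c) = e (g * κ h) := by
      rw [← mul_assoc, mul_assoc (e g), c_e X, ← mul_assoc, ← map_mul, mul_assoc, X.cc, mul_one]
    rw [h1, ext2_e X, ext2_ec X, ext2_ec X, A_mul, hx, hb, mulVec_add (A c) _ (A (e h) *ᵥ _),
      A_ce X]
    have h2 := key h
    have h3 : A c *ᵥ (x h + betK A e c κ x m h) = x (κ h) + betK A e c κ x m (κ h) +
        A (e (κ h)) *ᵥ (A c *ᵥ m + m) + (A c *ᵥ m + m) := by
      rw [← h2, add_assoc, vadd_self, add_zero]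
    have h4 : A c *ᵥ (A c *ᵥ m + m) = A c *ᵥ m + m := by
      rw [mulVec_add, A_cc X, add_comm]
    rw [h3, h4]
    have h5 : x (κ h) + betK A e c κ x m (κ h) + A (e (κ h)) *ᵥ (A c *ᵥ m + m) + (A c *ᵥ m + m) +
        A (e (κ h)) *ᵥ (A c *ᵥ m + m) = x (κ h) + betK A e c κ x m (κ h) + (A c *ᵥ m + m) := by
      have : x (κ h) + betK A e c κ x m (κ h) + A (e (κ h)) *ᵥ (A c *ᵥ m + m) + (A c *ᵥ m + m) +
          A (e (κ h)) *ᵥ (A c *ᵥ m + m) = x (κ h) + betK A e c κ x m (κ h) + (A c *ᵥ m + m) +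
          (A (e (κ h)) *ᵥ (A c *ᵥ m + m) + A (e (κ h)) *ᵥ (A c *ᵥ m + m)) := by abel
      rw [this, vadd_self, add_zero]
    rw [h5, mulVec_add (A (e g)) _ (A c *ᵥ m + m), mulVec_add (A (e g)) (x (κ h)) _]
    have e' : ∀ p q r s t : Fin n → F, p + q + (r + s) = p + r + t + (q + s + t) := by
      intro p q r s t
      have : p + r + t + (q + s + t) = p + q + (r + s) + (t + t) := by abel
      rw [this, vadd_self, add_zero]
    exact e' _ _ _ _ _

theorem aK_coc (X : Two e c κ) {x : G → Fin n → F} (hx : ∀ g h, x (g * h) = x g + A (e g) *ᵥ x h)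
    (m : Fin n → F) (σ τ : Γ) :
    aK A e c x m (σ * τ) = aK A e c x m σ + A σ *ᵥ aK A e c x m τ +
      ep e σ • (A σ *ᵥ yK A e c κ x m τ) := by
  have hk := betK_kap (A := A) X x m
  unfold aK yK
  rcases X.cases σ with ⟨g, rfl⟩ | ⟨g, rfl⟩ <;> rcases X.cases τ with ⟨h, rfl⟩ | ⟨h, rfl⟩
  · rw [ep_e, zero_smul, add_zero, ← map_mul, ext2_e X, ext2_e X, ext2_e X, hx]
  · rw [ep_e, zero_smul, add_zero, ← mul_assoc, ← map_mul, ext2_ec X, ext2_e X, ext2_ec X, hx,
      map_mul e, A_mul, mulVec_add]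
    abel
  · have h1 : e g * c * e h = e (g * κ h) * c := by
      rw [mul_assoc, c_e X, ← mul_assoc, ← map_mul]
    rw [ep_ec X, one_smul, h1, ext2_ec X, ext2_ec X, ext2_e X, ext2_e X, A_mul, A_mul, hx,
      map_mul e, A_mul, mulVec_add (A c) (x h) _, mulVec_add (A (e g)) (A c *ᵥ x h) _]
    have h2 : A c *ᵥ betK A e c κ x m h = x (κ h) + A (e (κ h)) *ᵥ m + m := by
      rw [← hk h, add_assoc, vadd_self, add_zero]
    rw [h2, mulVec_add, mulVec_add]
    have e' : ∀ p q r s t : Fin n → F, p + q + r = p + s + t + (t + (q + r + s)) := by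
      intro p q r s t
      have : p + s + t + (t + (q + r + s)) = p + q + r + (s + s) + (t + t) := by abel
      rw [this, vadd_self, vadd_self, add_zero, add_zero]
    exact e' _ _ _ _ _
  · have h1 : e g * c * (e h * c) = e (g * κ h) := by
      rw [← mul_assoc, mul_assoc (e g), c_e X, ← mul_assoc, ← map_mul, mul_assoc, X.cc, mul_one]
    rw [ep_ec X, one_smul, h1, ext2_e X, ext2_ec X, ext2_ec X, ext2_ec X, hx, A_mul, A_mul]
    have h2 : A c *ᵥ betK A e c κ x m h = x (κ h) + A (e (κ h)) *ᵥ m + m := by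
      rw [← hk h, add_assoc, vadd_self, add_zero]
    have h3 : A c *ᵥ (x h + betK A e c κ x m h + A (e h) *ᵥ (A c *ᵥ m + m)) =
        A c *ᵥ (x h + A (e h) *ᵥ m) + x (κ h) + m := by
      simp only [mulVec_add]
      rw [h2, A_ce X, A_cc X]
      have e' : ∀ p q r s t : Fin n → F, p + (q + r + s) + (r + t) = p + t + q + s := by
        intro p q r s t
        have : p + (q + r + s) + (r + t) = p + t + q + s + (r + r) := by abel
        rw [this, vadd_self, add_zero]
      exact e' _ _ _ _ _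
    rw [h3, mulVec_add (A (e g)) _ m, mulVec_add (A (e g)) _ (x (κ h))]
    have e' : ∀ p q r s : Fin n → F, p + q = p + s + r + (r + q + s) := by
      intro p q r s
      have : p + s + r + (r + q + s) = p + q + (s + s) + (r + r) := by abel
      rw [this, vadd_self, vadd_self, add_zero, add_zero]
    exact e' _ _ _ _

end alg

end Pool.Agent.Work.MP_787500_nt.QP
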