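import Mathlib
import Pool.Agent.Work.MP_787500_nt.QP.M4

/-!
# The Selmer space over the rational numbers and over the quadratic field

`SelK`: the cocycles over the quadratic field that satisfy the conditions at the split places and their conjugates. `finrank_sel`: the dimension
of `KT.Sel` is the dimension of `SelK` plus `n`. `selK_parity`: the parity of the dimension of `SelK`.
-/

set_option autoImplicit false
set_option linter.unusedSectionVars false

namespace Pool.Agent.Work.MP_787500_nt.QP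

open Matrix
open Pool.Agent.Work.MP_787500_nt.GP (A0 hf smul_hf IsAct tw cup11 iota)
open Pool.Agent.Work.MP_787500_nt.KR (FSys Z1 Z2 Sm1 Smooth IsChar LocH LDual d0_Z1 big two)
open Pool.Agent.Work.MP_787500_nt.KS (ep)
open Pool.Agent.Work.MP_787500_nt.KT
open Pool.Agent.Work.MP_787500_nt.GA (IsReal invR)
open Pool.Agent.Work.MP_787500_nt.QS (Two KQ gQ sQ jQ iQ)

universe u v

variable {F : Type v} [Field F] [Finite F] [CharP F 2] [Algebra (ZMod 2) F] {n : ℕ} [Sy F n]
  {G : Type*} [Group G] {S : FSys G} {Φ Ψ : Type*} [Fintype Φ] [Fintype Ψ] {D : Φ → Type u}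
  [∀ w, Group (D w)] {SD : ∀ w, FSys (D w)} {j : ∀ w, D w →* G} {χ : G → ℤ_[2]}
  {inv : ∀ w, (D w → D w → A0) → A0} {κ : G →* G} {Γ : Type*} [Group Γ]
  {Sq : FSys Γ} {E : Ψ → Type u} [∀ p, Group (E p)] {SE : ∀ p, FSys (E p)} {je : ∀ p, E p →* Γ}
  {χq : Γ → ℤ_[2]} {inve : ∀ p, (E p → E p → A0) → A0} {e : G →* Γ} {c : Γ}
  {In : ∀ p, Set (E p)}
  {tr : ((Γ → Γ → Γ → A0) × (∀ i, gQ D E i → gQ D E i → A0)) →+ A0}
  {A : Γ →* Matrix (Fin n) (Fin n) F} {J : ∀ p, Subgroup (E p)} {p₀ : Ψ}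
  {X : ∀ w, Submodule F (D w → Fin n → F)}

/-- the Selmer space over the quadratic field -/
def SelK (S : FSys G) (j : ∀ w, D w →* G) (κ : G →* G) (e : G →* Γ) (c : Γ)
    (A : Γ →* Matrix (Fin n) (Fin n) F) (X : ∀ w, Submodule F (D w → Fin n → F)) :
    Submodule F (G → Fin n → F) where
  carrier := {x | Z1 S (KT.act (A.comp e : G → Matrix (Fin n) (Fin n) F)) x ∧
    (∀ w, (fun d => x (j w d)) ∈ X w) ∧ ∀ w, (fun d => A c *ᵥ x (κ (j w d))) ∈ X w}
  add_mem' := by
    rintro x y ⟨h1, h2, h3⟩ ⟨h1', h2', h3'⟩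
    refine ⟨(cocS S (A.comp e : G → Matrix (Fin n) (Fin n) F)).add_mem h1 h1',
      fun w => (X w).add_mem (h2 w) (h2' w), fun w => ?_⟩
    have h4 := (X w).add_mem (h3 w) (h3' w)
    convert h4 using 1
    funext d
    show A c *ᵥ (x (κ (j w d)) + y (κ (j w d))) = _
    rw [mulVec_add]
    rfl
  zero_mem' := by
    refine ⟨(cocS S (A.comp e : G → Matrix (Fin n) (Fin n) F)).zero_mem,
      fun w => (X w).zero_mem, fun w => ?_⟩
    have h4 := (X w).zero_mem
    convert h4 using 1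
    funext d
    exact mulVec_zero _
  smul_mem' := by
    rintro a x ⟨h1, h2, h3⟩
    refine ⟨(cocS S (A.comp e : G → Matrix (Fin n) (Fin n) F)).smul_mem a h1,
      fun w => (X w).smul_mem a (h2 w), fun w => ?_⟩
    have h4 := (X w).smul_mem a (h3 w)
    convert h4 using 1
    funext d
    show A c *ᵥ (a • x (κ (j w d))) = _
    rw [mulVec_smul]
    rfl

theorem mem_selK {x : G → Fin n → F} : x ∈ SelK S j κ e c A X ↔
    Z1 S (KT.act (A.comp e : G → Matrix (Fin n) (Fin n) F)) x ∧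
    (∀ w, (fun d => x (j w d)) ∈ X w) ∧ ∀ w, (fun d => A c *ᵥ x (κ (j w d))) ∈ X w := Iff.rfl

/-- at the places in `Ψ` -/
theorem unr_all (K : KQ.{u, v} S SD j χ inv κ Sq SE je χq inve e c In tr)
    (P : PlH e c χq SE je inve In J p₀)
    (hsm : Smooth S (KT.act (A.comp e : G → Matrix (Fin n) (Fin n) F)))
    (hJ : ∀ p, p ≠ p₀ → ∀ d ∈ J p, A (je p d) = 1)
    {a y : Γ → Fin n → F} (hy : Z1 Sq (KT.act (A : Γ → Matrix (Fin n) (Fin n) F)) y) (ha : Sm1 Sq a)
    (hc : ∀ g h, a (g * h) = a g + A g *ᵥ a h + ep e g • (A g *ᵥ y h)) (p : Ψ) :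
    (∀ d ∈ In p, a (je p d) = 0) ↔ ∃ q : Fin n → F, ∀ d, y (je p d) = A (je p d) *ᵥ q + q := by
  have hsmQ := smQ K hsm
  have hjs := K.glob.glob.jsm (.inr p)
  have hy' : Z1 (SE p) (KT.act (A.comp (je p) : E p → Matrix (Fin n) (Fin n) F))
      (fun d => y (je p d)) := Z1.comp hjs hy
  have hc' : ∀ g h : E p, a (je p (g * h)) = a (je p g) + A (je p g) *ᵥ a (je p h) +
      ep e (je p g) • (A (je p g) *ᵥ y (je p h)) := fun g h => by rw [map_mul, hc]
  by_cases hp : p = p₀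
  · subst hp
    obtain ⟨t, R⟩ := P.inf
    exact R.unr (a := fun d => a (je p d)) (y := fun d => y (je p d)) (ε := ep e) (ep_c K.two) hy' hc'
  · refine (P.ram p hp).unr (a := fun d => a (je p d)) (y := fun d => y (je p d)) (hsmQ.comp hjs)
      (hJ p hp) hy' ?_ hc'
    obtain ⟨W, hW, h1⟩ := ha
    obtain ⟨W', hW', h2⟩ := hjs W hW
    exact ⟨W', hW', fun g w hw => by
      show a (je p (g * w)) = a (je p g)
      rw [map_mul]
      exact h1 _ _ (h2 w hw)⟩

/-- THE COMPARISON of the two Selmer spaces. -/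
theorem finrank_sel (K : KQ.{u, v} S SD j χ inv κ Sq SE je χq inve e c In tr)
    (hk : ∀ W, S.mem W → ∃ W', S.mem W' ∧ ∀ v ∈ W', κ v ∈ W)
    (P : PlH e c χq SE je inve In J p₀)
    (hsm : Smooth S (KT.act (A.comp e : G → Matrix (Fin n) (Fin n) F)))
    (hJ : ∀ p, p ≠ p₀ → ∀ d ∈ J p, A (je p d) = 1)
    (hX : ∀ w, cobS (fun d => A (e (j w d))) ≤ X w)
    (hfd : FiniteDimensional F (Sel Sq (jQ e j je) A (ep e) (spS Φ Ψ) (XS D E X))) :
    FiniteDimensional F (SelK S j κ e c A X) ∧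
      Module.finrank F (Sel Sq (jQ e j je) A (ep e) (spS Φ Ψ) (XS D E X)) =
        Module.finrank F (SelK S j κ e c A X) + n := by
  have X2 := K.two
  -- the map
  have hmem : ∀ z : Sel Sq (jQ e j je) A (ep e) (spS Φ Ψ) (XS D E X),
      (fun g => z.1.1 (e g)) ∈ SelK S j κ e c A X := by
    rintro ⟨⟨a, y⟩, ⟨⟨⟨hy, hyX⟩, hyc⟩, hsa, ha, haX⟩⟩
    dsimp only at hy hyX hyc hsa ha haX ⊢
    have hy2 : ∀ σ τ, y (σ * τ) = y σ + A σ *ᵥ y τ := hy.2
    have ha1 : a 1 = 0 := pr_one hy2 ha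
    have hcoc : ∀ g h, a (e (g * h)) = a (e g) + A (e g) *ᵥ a (e h) := by
      intro g h
      rw [map_mul, ha, ep_e, zero_smul, add_zero]
    have hZ : Z1 S (KT.act (A.comp e : G → Matrix (Fin n) (Fin n) F)) (fun g => a (e g)) := by
      obtain ⟨W, hW, h1⟩ := K.smo (ρ := KT.act (A.comp e : G → Matrix (Fin n) (Fin n) F))
        (isAct_act (A.comp e)) hsm (fun g => a (e g)) hcoc (by
          obtain ⟨W, hW, h1⟩ := hsa
          refine ⟨W, hW, fun g hg => ?_⟩
          have h2 := h1 1 (e g) hg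
          rwa [one_mul, ha1] at h2) (fun p d hd g hg => by
          show a (e g) = 0
          rw [hg]
          refine (unr_all K P hsm hJ hy hsa ha p).2 ?_ d hd
          exact hyc (.inr p) (fun h => h))
      refine ⟨⟨W, hW, fun g w hw => ?_⟩, hcoc⟩
      have h2 : a (e w) = 0 := h1 w hw
      show a (e (g * w)) = a (e g)
      rw [hcoc, h2, mulVec_zero, add_zero]
    refine ⟨hZ, fun w => haX (.inl w) trivial, fun w => ?_⟩
    have h1 : (fun d => A c *ᵥ a (e (κ (j w d)))) = (fun d => a (e (j w d))) +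
        (fun d => y (e (j w d))) + fun d => A (e (j w d)) *ᵥ (A c *ᵥ a c) + A c *ᵥ a c := by
      funext d
      exact a_kap X2 hy2 ha (j w d)
    show (fun d => A c *ᵥ a (e (κ (j w d)))) ∈ X w
    rw [h1]
    refine (X w).add_mem ((X w).add_mem (haX (.inl w) trivial) (hyX (.inl w) trivial)) (hX w ?_)
    exact ⟨A c *ᵥ a c, fun d => rfl⟩
  let L : Sel Sq (jQ e j je) A (ep e) (spS Φ Ψ) (XS D E X) →ₗ[F]
      SelK S j κ e c A X × (Fin n → F) :=
    { toFun := fun z => (⟨fun g => z.1.1 (e g), hmem z⟩, z.1.1 c)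
      map_add' := fun _ _ => rfl
      map_smul' := fun _ _ => rfl }
  have hL : Function.Bijective L := by
    constructor
    · rw [injective_iff_map_eq_zero]
      rintro ⟨⟨a, y⟩, ⟨⟨⟨hy, hyX⟩, hyc⟩, hsa, ha, haX⟩⟩ h0
      dsimp only at hy hyX hyc hsa ha haX
      have h1 : ∀ g, a (e g) = 0 := fun g =>
        congrFun (congrArg (fun z : SelK S j κ e c A X × (Fin n → F) => (z.1 : G → Fin n → F)) h0) g
      have h2 : a c = 0 := congrArg Prod.snd h0
      have hy2 : ∀ σ τ, y (σ * τ) = y σ + A σ *ᵥ y τ := hy.2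
      have h3 : y c = 0 := by rw [y_c X2 hy2 ha, h2, mulVec_zero, add_zero]
      have h4 : ∀ g, y (e g) = 0 := by
        intro g
        have h5 := a_kap X2 hy2 ha g
        rw [h1, h1, h2, mulVec_zero, mulVec_zero, add_zero, add_zero, zero_add] at h5
        exact h5.symm
      refine Subtype.ext (Prod.ext (funext fun σ => ?_) (funext fun σ => ?_))
      · show a σ = 0
        rcases X2.cases σ with ⟨g, rfl⟩ | ⟨g, rfl⟩
        · exact h1 g
        · rw [ha, ep_e, zero_smul, h1, h2, mulVec_zero, add_zero, add_zero]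
      · show y σ = 0
        rcases X2.cases σ with ⟨g, rfl⟩ | ⟨g, rfl⟩
        · exact h4 g
        · rw [hy2, h4, h3, mulVec_zero, add_zero]
    · rintro ⟨⟨x, hx, hxX, hxX'⟩, m⟩
      have hx2 : ∀ g h, x (g * h) = x g + A (e g) *ᵥ x h := hx.2
      have hx1 : x 1 = 0 := co_one (A := A.comp e) hx2
      obtain ⟨a, haD⟩ : ∃ a, a = aK A e c x m := ⟨_, rfl⟩
      obtain ⟨y, hyD⟩ : ∃ y, y = yK A e c κ x m := ⟨_, rfl⟩
      have hy2 : ∀ σ τ, y (σ * τ) = y σ + A σ *ᵥ y τ := by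
        rw [hyD]
        exact yK_coc X2 hx2 m
      have ha2 : ∀ σ τ, a (σ * τ) = a σ + A σ *ᵥ a τ + ep e σ • (A σ *ᵥ y τ) := by
        rw [hyD, haD]
        exact aK_coc X2 hx2 m
      have hae : ∀ g, a (e g) = x g := by
        intro g
        rw [haD]
        exact ext2_e X2 _ _ g
      have hac : a c = m := by
        rw [haD]
        have h1 := ext2_ec X2 x (fun g => x g + A (e g) *ᵥ m) 1
        rw [map_one, one_mul, hx1, map_one, one_mulVec, zero_add] at h1
        exact h1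
      have hye : ∀ g, y (e g) = x g + betK A e c κ x m g := by
        intro g
        rw [hyD]
        exact ext2_e X2 _ _ g
      -- smoothness
      obtain ⟨W, hW, hAW, hxW, hxW'⟩ : ∃ W, Sq.mem W ∧ (∀ w ∈ W, A w = 1) ∧
          (∀ w ∈ W, a w = 0) ∧ ∀ w ∈ W, y w = 0 := by
        obtain ⟨W₁, hW₁, h1⟩ := hx.1
        obtain ⟨W₂, hW₂, h2⟩ := hk W₁ hW₁
        obtain ⟨W₃, hW₃, h3⟩ := sm_one hsm
        obtain ⟨W, hW, h4⟩ := K.up (W₁ ⊓ (W₂ ⊓ W₃)) (S.inf hW₁ (S.inf hW₂ hW₃))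
        have hx0 : ∀ g ∈ W₁, x g = 0 := by
          intro g hg
          have := h1 1 g hg
          rwa [one_mul, hx1] at this
        refine ⟨W, hW, fun w hw => ?_, fun w hw => ?_, fun w hw => ?_⟩
        · obtain ⟨g, hg, rfl⟩ := h4 w hw
          exact h3 g hg.2.2
        · obtain ⟨g, hg, rfl⟩ := h4 w hw
          rw [hae, hx0 g hg.1]
        · obtain ⟨g, hg, rfl⟩ := h4 w hw
          have h5 : A (e g) = 1 := h3 g hg.2.2
          rw [hye, hx0 g hg.1, zero_add]
          unfold betK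
          rw [hx0 _ (h2 g hg.2.1), mulVec_zero, zero_add, h5, one_mulVec, vadd_self]
      have hsa : Sm1 Sq a := ⟨W, hW, fun g w hw => by
        rw [ha2, hxW w hw, hxW' w hw, mulVec_zero, smul_zero, add_zero, add_zero]⟩
      have hyZ : Z1 Sq (KT.act (A : Γ → Matrix (Fin n) (Fin n) F)) y :=
        ⟨⟨W, hW, fun g w hw => by rw [hy2, hxW' w hw, mulVec_zero, add_zero]⟩, hy2⟩
      have haX : ∀ w, (fun d => a (e (j w d))) ∈ X w := by
        intro w
        have : (fun d => a (e (j w d))) = fun d => x (j w d) := funext fun d => hae _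
        rw [this]
        exact hxX w
      have hyX : ∀ w, (fun d => y (e (j w d))) ∈ X w := by
        intro w
        have : (fun d => y (e (j w d))) = (fun d => x (j w d)) +
            ((fun d => A c *ᵥ x (κ (j w d))) + fun d => A (e (j w d)) *ᵥ (A c *ᵥ m) + A c *ᵥ m) := by
          funext d
          rw [hye]
          rfl
        rw [this]
        refine (X w).add_mem (hxX w) ((X w).add_mem (hxX' w) (hX w ⟨A c *ᵥ m, fun d => rfl⟩))
      refine ⟨⟨(a, y), ⟨⟨hyZ, ?_⟩, ?_⟩, hsa, ha2, ?_⟩, Prod.ext (Subtype.ext (funext hae)) hac⟩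
      · intro i hi
        match i, hi with
        | .inl w, _ => exact hyX w
      · intro i hi
        match i, hi with
        | .inl w, hi => exact absurd trivial hi
        | .inr p, _ =>
          refine (unr_all K P hsm hJ hyZ hsa ha2 p).1 fun d hd => ?_
          obtain ⟨g, hg, hg'⟩ := K.inz p d hd
          obtain ⟨W₁, hW₁, h1⟩ := hx.1
          rw [← hg, hae]
          have := h1 1 g (hg' W₁ hW₁)
          rwa [one_mul, hx1] at this
      · intro i hi
        match i, hi with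
        | .inl w, _ => exact haX w
  have h1 := (LinearEquiv.ofBijective L hL).finrank_eq
  have hfd2 : FiniteDimensional F (SelK S j κ e c A X × (Fin n → F)) :=
    (LinearEquiv.ofBijective L hL).finiteDimensional
  have hfd3 : FiniteDimensional F (SelK S j κ e c A X) :=
    FiniteDimensional.of_surjective (LinearMap.fst F (SelK S j κ e c A X) (Fin n → F))
      LinearMap.fst_surjective
  refine ⟨hfd3, ?_⟩
  rw [h1, Module.finrank_prod, Module.finrank_fin_fun]

open scoped Classical in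
/-- THE PARITY OVER THE QUADRATIC FIELD. -/
theorem selK_parity (K : KQ.{u, v} S SD j χ inv κ Sq SE je χq inve e c In tr)
    (hk : ∀ W, S.mem W → ∃ W', S.mem W' ∧ ∀ v ∈ W', κ v ∈ W)
    (P : PlH e c χq SE je inve In J p₀) (hsp : ∀ g, IsSp (A g))
    (hsm : Smooth S (KT.act (A.comp e : G → Matrix (Fin n) (Fin n) F)))
    (hJ : ∀ p, p ≠ p₀ → ∀ d ∈ J p, A (je p d) = 1)
    (hX : ∀ w, cobS (fun d => A (e (j w d))) ≤ X w)
    (hlag : ∀ w x, x ∈ X w ↔ Z1 (SD w) (KT.act fun d => A (e (j w d))) x ∧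
        ∀ y ∈ X w, inv w (cup11 (KT.act fun d => A (e (j w d))) BU x y) = 0) :
    FiniteDimensional F (SelK S j κ e c A X) ∧
      Even (Module.finrank F (SelK S j κ e c A X) + n / 2) := by
  obtain ⟨h1, h2⟩ := selQ_parity K P hsp hsm hJ hlag
  obtain ⟨h3, h4⟩ := finrank_sel K hk P hsm hJ hX h1
  refine ⟨h3, ?_⟩
  rw [h4] at h2
  obtain ⟨r, hr⟩ := h2
  obtain ⟨m, hm⟩ := n_even F n
  exact ⟨r - m, by omega⟩

end Pool.Agent.Work.MP_787500_nt.QP
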