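import Mathlib
import Pool.Agent.Work.MP_787500_nt.QP.M2
import Pool.Agent.Work.MP_787500_nt.QP.M5

/-!
# THE PARITY FOR A RESIDUAL MODULE

`ExtQ`: the action on `M` extends to the group of the rational numbers and the form `b (x, c y)` is alternating. `exists_par`: for a vector
space `M` over a finite field `F` of characteristic 2 with such an extension there are local conditions for which the parity holds.
-/

set_option autoImplicit false
set_option linter.unusedSectionVars false

namespace Pool.Agent.Work.MP_787500_nt.QP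

open Matrix
open Pool.Agent.Work.MP_787500_nt.GP (A0 hf smul_hf IsAct d0 tw cup11 EvPow)
open Pool.Agent.Work.MP_787500_nt.KR (FSys Z1 Z2 Sm1 Smooth IsChar LocH LDual d0_Z1 big two ParD SDualF
  perpM selM Betw)
open Pool.Agent.Work.MP_787500_nt.KS (ep hfT hfT_nondeg trace_trick)
open Pool.Agent.Work.MP_787500_nt.KT
open Pool.Agent.Work.MP_787500_nt.QS (Two KQ gQ sQ jQ iQ)

universe u v

/-- An extension of the action to the group of the rational numbers such that the form `b (x, c y)` is
alternating. -/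
structure ExtQ {G Γ : Type*} [Group G] [Group Γ] (e : G →* Γ) (c : Γ) (O : Type*) [CommRing O]
    {M : Type*} [AddCommGroup M] [Module O M] (ρ : G → M → M) (b : M →+ M →+ A0)
    (ρq : Γ → M → M) : Prop where
  act : IsAct ρq
  lin : ∀ σ (a : O) m, ρq σ (a • m) = a • ρq σ m
  res : ∀ g m, ρq (e g) m = ρ g m
  alt : ∀ (a : O) m, b (a • m) (ρq c m) = 0

section mat

variable {F : Type v} [Field F] {n : ℕ} {M : Type v} [AddCommGroup M] [Module F M]
  {Γ : Type*} [Group Γ]

theorem mat_ext {B C : Matrix (Fin n) (Fin n) F} (h : ∀ m : Fin n → F, B *ᵥ m = C *ᵥ m) : B = C := by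
  ext i j
  have h1 := congrFun (h (Pi.single j 1)) i
  rw [mulVec_single_one, mulVec_single_one] at h1
  exact h1

/-- the matrix of a linear map -/
noncomputable def mt (L : M ≃ₗ[F] (Fin n → F)) (f : M → M) (hf : ∀ (a : F) m, f (a • m) = a • f m)
    (ha : ∀ m m', f (m + m') = f m + f m') : Matrix (Fin n) (Fin n) F :=
  LinearMap.toMatrix' ((L : M →ₗ[F] (Fin n → F)).comp
    (LinearMap.comp (⟨⟨f, ha⟩, hf⟩ : M →ₗ[F] M) (L.symm : (Fin n → F) →ₗ[F] M)))

theorem mt_mulVec (L : M ≃ₗ[F] (Fin n → F)) (f : M → M) (hf : ∀ (a : F) m, f (a • m) = a • f m)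
    (ha : ∀ m m', f (m + m') = f m + f m') (m : M) : mt L f hf ha *ᵥ L m = L (f m) := by
  unfold mt
  rw [LinearMap.toMatrix'_mulVec]
  show L (f (L.symm (L m))) = L (f m)
  rw [LinearEquiv.symm_apply_apply]

/-- the matrices of an action -/
noncomputable def mat (L : M ≃ₗ[F] (Fin n → F)) {f : Γ → M → M} (act : IsAct f)
    (lin : ∀ σ (a : F) m, f σ (a • m) = a • f σ m) : Γ →* Matrix (Fin n) (Fin n) F where
  toFun σ := mt L (f σ) (lin σ) (act.add σ)
  map_one' := by
    refine mat_ext fun m => ?_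
    obtain ⟨m, rfl⟩ := L.surjective m
    rw [mt_mulVec, act.one, one_mulVec]
  map_mul' σ τ := by
    refine mat_ext fun m => ?_
    obtain ⟨m, rfl⟩ := L.surjective m
    rw [mt_mulVec, act.mul, ← mulVec_mulVec, mt_mulVec, mt_mulVec]

theorem mat_mulVec (L : M ≃ₗ[F] (Fin n → F)) {f : Γ → M → M} (act : IsAct f)
    (lin : ∀ σ (a : F) m, f σ (a • m) = a • f σ m) (σ : Γ) (m : M) :
    mat L act lin σ *ᵥ L m = L (f σ m) := mt_mulVec L _ _ _ m

end mat

end Pool.Agent.Work.MP_787500_nt.QP
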