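import Mathlib
import Pool.Agent.Work.MP_787500_nt.QP.M6

/-!
# THE PARITY FOR A RESIDUAL MODULE

`exists_par`: for a vector space `M` over a finite field `F` of characteristic 2 with an extension `ExtQ` there are local conditions for which
the parity holds.
-/

set_option autoImplicit false
set_option linter.unusedSectionVars false

namespace Pool.Agent.Work.MP_787500_nt.QP

open Matrix
open Pool.Agent.Work.MP_787500_nt.GP (A0 hf smul_hf IsAct d0 tw cup11 EvPow)
open Pool.Agent.Work.MP_787500_nt.KR (FSys Z1 Z2 Sm1 Smooth IsChar LocH LDual d0_Z1 big two ParD SDualF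
  perpM selM Betw)
open Pool.Agent.Work.MP_787500_nt.KS (ep hfT hfT_nondeg trace_trick hfT_two)
open Pool.Agent.Work.MP_787500_nt.KT
open Pool.Agent.Work.MP_787500_nt.QS (Two KQ gQ sQ jQ iQ)

universe u v

section form

variable {F : Type v} [Field F] [Finite F] [CharP F 2] [Algebra (ZMod 2) F] {n : ℕ} {M : Type v}
  [AddCommGroup M] [Module F M]

/-- a balanced alternating form with values in `A0` comes from an alternating form over `F` -/
theorem exists_form2 (ω : M →+ M →+ A0) (bal : ∀ (a : F) x y, ω (a • x) y = ω x (a • y))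
    (alt : ∀ (a : F) x, ω (a • x) x = 0) (nd : ∀ x, (∀ y, ω x y = 0) → x = 0) :
    ∃ f : M →ₗ[F] M →ₗ[F] F, (∀ (a : F) x y, ω (a • x) y = hfT (a * f x y)) ∧
      (∀ x, f x x = 0) ∧ ∀ x, (∀ y, f x y = 0) → x = 0 := by
  obtain ⟨f, hf⟩ := trace_trick ω bal
  refine ⟨f, hf, fun x => hfT_nondeg fun a => ?_, fun x hx => nd x fun y => ?_⟩
  · rw [← hf, alt]
  · have h1 := hf 1 x y
    rwa [one_smul, hx, mul_zero, map_zero] at h1

/-- the symplectic form on the coordinates -/
@[reducible] def syOf (L : M ≃ₗ[F] (Fin n → F)) (f : M →ₗ[F] M →ₗ[F] F) (h1 : ∀ x, f x x = 0)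
    (h2 : ∀ x, (∀ y, f x y = 0) → x = 0) : Sy F n where
  e := f.compl₁₂ (L.symm : (Fin n → F) →ₗ[F] M) (L.symm : (Fin n → F) →ₗ[F] M)
  alt x := h1 _
  nd x hx := by
    have h3 := h2 (L.symm x) fun y => by
      have h4 := hx (L y)
      rw [LinearMap.compl₁₂_apply] at h4
      simpa using h4
    have h4 := congrArg L h3
    rwa [LinearEquiv.apply_symm_apply, map_zero] at h4

theorem syOf_ee (L : M ≃ₗ[F] (Fin n → F)) (f : M →ₗ[F] M →ₗ[F] F) (h1 : ∀ x, f x x = 0)
    (h2 : ∀ x, (∀ y, f x y = 0) → x = 0) (x y : M) :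
    @ee F _ n (syOf L f h1 h2) (L x) (L y) = f x y := by
  show f (L.symm (L x)) (L.symm (L y)) = f x y
  rw [LinearEquiv.symm_apply_apply, LinearEquiv.symm_apply_apply]

/-- cocycles in coordinates -/
theorem Z1_L {X : Type*} [Group X] {T : FSys X} (L : M ≃ₗ[F] (Fin n → F)) {f : X → M → M}
    {B : X → Matrix (Fin n) (Fin n) F} (hB : ∀ g m, B g *ᵥ L m = L (f g m)) (x : X → M) :
    Z1 T (KT.act B) (fun g => L (x g)) ↔ Z1 T f x := by
  constructor
  · rintro ⟨⟨W, hW, h1⟩, h2⟩
    refine ⟨⟨W, hW, fun g w hw => L.injective (h1 g w hw)⟩, fun g h => L.injective ?_⟩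
    have h3 : L (x (g * h)) = L (x g) + B g *ᵥ L (x h) := h2 g h
    rw [h3, hB, map_add]
  · rintro ⟨⟨W, hW, h1⟩, h2⟩
    refine ⟨⟨W, hW, fun g w hw => ?_⟩, fun g h => ?_⟩
    · show L (x (g * w)) = L (x g)
      rw [h1 g w hw]
    · show L (x (g * h)) = L (x g) + B g *ᵥ L (x h)
      rw [h2, hB, map_add]

/-- functions in coordinates -/
def fnE {X : Type*} (L : M ≃ₗ[F] (Fin n → F)) : (X → M) ≃ (X → Fin n → F) where
  toFun x g := L (x g)
  invFun x g := L.symm (x g)
  left_inv x := funext fun g => L.symm_apply_apply _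
  right_inv x := funext fun g => L.apply_symm_apply _

theorem card_F (V : Type*) [AddCommGroup V] [Module F V] [FiniteDimensional F V] :
    Nat.card V = Nat.card F ^ Module.finrank F V := Module.natCard_eq_pow_finrank

end form

variable {F : Type v} [Field F] [Finite F] [CharP F 2] [Algebra (ZMod 2) F] {M : Type v}
  [AddCommGroup M] [Module F M] [Finite M]
  {G : Type*} [Group G] {S : FSys G} {Φ Ψ : Type*} [Fintype Φ] [Fintype Ψ] {D : Φ → Type u}
  [∀ w, Group (D w)] {SD : ∀ w, FSys (D w)} {j : ∀ w, D w →* G} {χ : G → ℤ_[2]}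
  {inv : ∀ w, (D w → D w → A0) → A0} {κ : G →* G} {Θ : Set (G × G)} {Γ : Type*} [Group Γ]
  {Sq : FSys Γ} {E : Ψ → Type u} [∀ p, Group (E p)] {SE : ∀ p, FSys (E p)} {je : ∀ p, E p →* Γ}
  {χq : Γ → ℤ_[2]} {inve : ∀ p, (E p → E p → A0) → A0} {e : G →* Γ} {c : Γ}
  {In : ∀ p, Set (E p)}
  {tr : ((Γ → Γ → Γ → A0) × (∀ i, gQ D E i → gQ D E i → A0)) →+ A0}
  {J : ∀ p, Subgroup (E p)} {p₀ : Ψ}
  {O : Type*} [CommRing O] [Algebra O F] [Module O M] [IsScalarTower O F M]
  {ρ : G → M → M} {b : M →+ M →+ A0} {ρq : Γ → M → M}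

/-- THE PARITY FOR A RESIDUAL MODULE. -/
theorem exists_par (hsurj : Function.Surjective (algebraMap O F))
    (K : KQ.{u, v} S SD j χ inv κ Sq SE je χq inve e c In tr)
    (H : ParD.{v} S SD j χ inv κ Θ) (h : SDualF S χ κ Θ O ρ b) (Q : ExtQ e c O ρ b ρq)
    (P : PlH e c χq SE je inve In J p₀)
    (hJ : ∀ p, p ≠ p₀ → ∀ d ∈ J p, ∀ m, ρq (je p d) m = m) {a : Φ → ℕ}
    (hnum : ∀ w, Nat.card {x : D w → M // Z1 (SD w) (fun d => ρ (j w d)) x} =
      Nat.card M ^ a w * Nat.card {m : M // ∀ d, ρ (j w d) m = m})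
    (hodd : Odd (∑ w, (a w + 1))) :
    ∃ Λ : ∀ w, Submodule O (D w → M), (∀ w, Betw (SD w) (fun d => ρ (j w d)) (Λ w)) ∧
      EvPow (Nat.card F) (Nat.card (selM h j Λ fun w => perpM H h w (Λ w)) *
        ∏ w, Nat.card (Λ w)) := by
  classical
  have X2 := K.two
  have hfdM : FiniteDimensional F M := Module.Finite.of_finite
  obtain ⟨n, hn⟩ : ∃ n, n = Module.finrank F M := ⟨_, rfl⟩
  obtain ⟨L⟩ : Nonempty (M ≃ₗ[F] (Fin n → F)) := by
    rw [hn]
    exact ⟨(Module.finBasis F M).equivFun⟩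
  -- linearity over `F`
  have hOF : ∀ (a' : O) (m : M), algebraMap O F a' • m = a' • m := fun a' m =>
    algebraMap_smul F a' m
  have linF : ∀ σ (a : F) m, ρq σ (a • m) = a • ρq σ m := by
    intro σ a m
    obtain ⟨a', rfl⟩ := hsurj a
    rw [hOF, Q.lin, hOF]
  have hcc : ∀ m, ρq c (ρq c m) = m := by
    intro m
    rw [← Q.act.mul, X2.cc, Q.act.one]
  have hce : ∀ g m, ρq c (ρ g m) = ρ (κ g) (ρq c m) := by
    intro g m
    rw [← Q.res, ← Q.act.mul, c_e X2, Q.act.mul, Q.res]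
  have hck : ∀ g m, ρq c (ρ (κ g) m) = ρ g (ρq c m) := by
    intro g m
    rw [hce, X2.kk]
  -- the form
  obtain ⟨ω, hω⟩ : ∃ ω : M →+ M →+ A0, ∀ x y, ω x y = b x (ρq c y) :=
    ⟨AddMonoidHom.mk' (fun x => AddMonoidHom.mk' (fun y => b x (ρq c y)) (fun y y' => by
      rw [Q.act.add, map_add])) (fun x x' => by
        refine DFunLike.ext _ _ fun y => ?_
        show b (x + x') (ρq c y) = b x (ρq c y) + b x' (ρq c y)
        rw [map_add, AddMonoidHom.add_apply]), fun _ _ => rfl⟩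
  obtain ⟨f, hf, hf1, hf2⟩ := exists_form2 (F := F) ω (fun a x y => by
    obtain ⟨a', rfl⟩ := hsurj a
    rw [hω, hω, hOF, hOF, h.bal, Q.lin]) (fun a x => by
    obtain ⟨a', rfl⟩ := hsurj a
    rw [hω, hOF, Q.alt]) (fun x hx => h.nd x fun m' => by
    have h1 := hx (ρq c m')
    rwa [hω, hcc] at h1)
  have hf' : ∀ x y, ω x y = hfT (f x y) := by
    intro x y
    have := hf 1 x y
    rwa [one_smul, one_mul] at this
  have hωs : ∀ x y, ω x y = ω y x := by
    intro x y
    have h1 : ω (x + y) (x + y) = 0 := by rw [hf', hf1, map_zero]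
    have h2 : ∀ z, ω z z = 0 := fun z => by rw [hf', hf1, map_zero]
    simp only [map_add, AddMonoidHom.add_apply, h2, zero_add, add_zero] at h1
    have h3 : ω y x + ω y x = 0 := by rw [hf', hfT_two]
    have h4 : ω x y = -ω y x := by
      rw [add_comm] at h1
      exact eq_neg_of_add_eq_zero_left h1
    rw [h4]
    exact (eq_neg_of_add_eq_zero_left h3).symm
  let _ : Sy F n := syOf L f hf1 hf2
  have hee : ∀ x y : M, ee (L x) (L y) = f x y := syOf_ee L f hf1 hf2
  have hBU : ∀ x y : M, BU (L x) (L y) = ω x y := by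
    intro x y
    rw [BU_apply, hee, hf']
  -- the matrices
  obtain ⟨A, hA⟩ : ∃ A : Γ →* Matrix (Fin n) (Fin n) F, ∀ σ m, A σ *ᵥ L m = L (ρq σ m) :=
    ⟨mat L Q.act linF, mat_mulVec L Q.act linF⟩
  have hAe : ∀ g m, A (e g) *ᵥ L m = L (ρ g m) := by
    intro g m
    rw [hA, Q.res]
  have hχ := H.glob.char
  have hinv : ∀ σ x y, ω (ρq σ x) (ρq σ y) = ω x y := by
    have h1 : ∀ g x y, ω (ρ g x) (ρ g y) = ω x y := by
      intro g x y
      rw [hω, hce, h.eqv, ← hω, hf', KS.smul_hfT (hχ.odd g)]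
    have h2 : ∀ x y, ω (ρq c x) (ρq c y) = ω x y := by
      intro x y
      rw [hω, hcc, h.symm, ← hω, hωs]
    intro σ x y
    rcases X2.cases σ with ⟨g, rfl⟩ | ⟨g, rfl⟩
    · rw [Q.res, Q.res, h1]
    · rw [Q.act.mul, Q.act.mul, Q.res, Q.res, h1, h2]
  have hsp : ∀ σ, IsSp (A σ) := by
    intro σ x y
    obtain ⟨x, rfl⟩ := L.surjective x
    obtain ⟨y, rfl⟩ := L.surjective y
    rw [hA, hA, hee, hee, ← sub_eq_zero]
    refine hfT_nondeg fun a => ?_
    rw [mul_sub, map_sub, ← hf, ← hf, ← linF, hinv, sub_self]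
  have hsm : Smooth S (KT.act (A.comp e : G → Matrix (Fin n) (Fin n) F)) := by
    obtain ⟨W, hW, h1⟩ := h.sm
    refine ⟨W, hW, fun w hw m => ?_⟩
    obtain ⟨m, rfl⟩ := L.surjective m
    show A (e w) *ᵥ L m = L m
    rw [hAe, h1 w hw]
  have hJA : ∀ p, p ≠ p₀ → ∀ d ∈ J p, A (je p d) = 1 := by
    intro p hp d hd
    refine mat_ext fun m => ?_
    obtain ⟨m, rfl⟩ := L.surjective m
    rw [hA, hJ p hp d hd, one_mulVec]
  -- the numbers
  have hq1 : 1 < Nat.card F := Finite.one_lt_card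
  obtain ⟨r, hr⟩ := n_even F n
  have hloc : ∀ w, ∃ X : Submodule F (D w → Fin n → F),
      (∀ x, x ∈ X ↔ Z1 (SD w) (KT.act fun d => A (e (j w d))) x ∧
        ∀ y ∈ X, inv w (cup11 (KT.act fun d => A (e (j w d))) BU x y) = 0) ∧
      cobS (fun d => A (e (j w d))) ≤ X ∧ Module.finrank F X = (a w + 1) * r := by
    intro w
    obtain ⟨B, hB⟩ : ∃ B : D w →* Matrix (Fin n) (Fin n) F, B = A.comp (e.comp (j w)) := ⟨_, rfl⟩
    have hBm : ∀ d m, B d *ᵥ L m = L (ρ (j w d) m) := by
      intro d m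
      rw [hB]
      exact hAe _ _
    have hspB : ∀ d, IsSp (B d) := by
      intro d
      rw [hB]
      exact hsp _
    have hsB : Smooth (SD w) (KT.act (B : D w → Matrix (Fin n) (Fin n) F)) := by
      rw [hB]
      exact hsm.comp (H.jsm w)
    have hLH := (H.loc w).toLocH
    have hld : LDual (SD w) (inv w) (KT.act (B : D w → Matrix (Fin n) (Fin n) F))
        (KT.act (B : D w → Matrix (Fin n) (Fin n) F)) (BU : (Fin n → F) →+ (Fin n → F) →+ A0) :=
      (H.loc w).ld (pair_BU hLH.char hspB hsB)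
    have hfin : Finite (cocS (SD w) (B : D w → Matrix (Fin n) (Fin n) F)) := hld.fin
    have hfd : FiniteDimensional F (cocS (SD w) (B : D w → Matrix (Fin n) (Fin n) F)) :=
      Module.Finite.of_finite
    have hc1 : Nat.card {x : D w → M // Z1 (SD w) (fun d => ρ (j w d)) x} =
        Nat.card (cocS (SD w) (B : D w → Matrix (Fin n) (Fin n) F)) :=
      Nat.card_congr ((fnE L).subtypeEquiv fun x => (Z1_L L hBm x).symm)
    have hc2 : Nat.card {m : M // ∀ d, ρ (j w d) m = m} = Nat.card (fixG B) := by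
      refine Nat.card_congr (L.toEquiv.subtypeEquiv fun m => ?_)
      show _ ↔ ∀ d, B d *ᵥ L m = L m
      refine forall_congr' fun d => ?_
      rw [hBm]
      exact ⟨fun h1 => by rw [h1], fun h1 => L.injective h1⟩
    have h1 := hnum w
    have hfM : Module.finrank F M = n := hn.symm
    rw [hc1, hc2, card_F (F := F), card_F (F := F) M, card_F (F := F) (fixG B), hfM, ← pow_mul,
      ← pow_add] at h1
    have h2 := Nat.pow_right_injective hq1 h1
    have h3 := finrank_cobS B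
    have h4 : Module.finrank F (cocS (SD w) (B : D w → Matrix (Fin n) (Fin n) F)) +
        Module.finrank F (cobS (B : D w → Matrix (Fin n) (Fin n) F)) = 2 * ((a w + 1) * r) := by
      have h8 : n * a w = 2 * (a w * r) := by
        have h11 : n * a w = (r + r) * a w := congrArg (fun k => k * a w) hr
        rw [h11]
        ring
      have h9 : (a w + 1) * r = a w * r + r := by ring
      have h10 : Module.finrank F (cocS (SD w) (B : D w → Matrix (Fin n) (Fin n) F)) =
          n * a w + Module.finrank F (fixG B) := h2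
      omega
    obtain ⟨X, h5, h6, h7⟩ := exists_locLag hLH hspB hsB hld ⟨(a w + 1) * r, by omega⟩
    refine ⟨X, ?_, ?_, by omega⟩
    · rw [hB] at h5
      exact h5
    · rw [hB] at h6
      exact h6
  choose X hX1 hX2 hX3 using hloc
  obtain ⟨hfdK, hpar⟩ := selK_parity K H.ksys P hsp hsm hJA hX2 hX1
  -- the local conditions
  let Λ : ∀ w, Submodule O (D w → M) := fun w =>
    { carrier := {x | (fun d => L (x d)) ∈ X w}
      add_mem' := fun {x y} hx hy => by
        have h1 := (X w).add_mem hx hy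
        show (fun d => L (x d + y d)) ∈ X w
        simp only [map_add]
        exact h1
      zero_mem' := by
        show (fun _ => L 0) ∈ X w
        rw [map_zero]
        exact (X w).zero_mem
      smul_mem' := fun a' x hx => by
        have h1 := (X w).smul_mem (algebraMap O F a') hx
        show (fun d => L (a' • x d)) ∈ X w
        simp only [← hOF, map_smul]
        exact h1 }
  have hΛ : ∀ w x, x ∈ Λ w ↔ (fun d => L (x d)) ∈ X w := fun _ _ => Iff.rfl
  have hbetw : ∀ w, Betw (SD w) (fun d => ρ (j w d)) (Λ w) := by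
    intro w
    refine ⟨fun m => ?_, fun x hx => ?_⟩
    · rw [hΛ]
      refine hX2 w ⟨L m, fun d => ?_⟩
      show L (ρ (j w d) m - m) = A (e (j w d)) *ᵥ L m + L m
      rw [hAe, map_sub, KT.U_sub]
    · exact (Z1_L L (fun d m => hAe (j w d) m) x).1 ((hX1 w _).1 hx).1
  -- the dual conditions
  have hperp : ∀ w (y : D w → M), y ∈ perpM H h w (Λ w) ↔ (fun d => L (ρq c (y d))) ∈ X w := by
    intro w y
    have hspB : ∀ d, IsSp (A.comp (e.comp (j w)) d) := fun d => hsp _
    have hsB : Smooth (SD w) (KT.act (A.comp (e.comp (j w)) : D w → Matrix (Fin n) (Fin n) F)) :=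
      hsm.comp (H.jsm w)
    have hLH := (H.loc w).toLocH
    have hZ : Z1 (SD w) (fun d => ρ (κ (j w d))) y ↔
        Z1 (SD w) (KT.act fun d => A (e (j w d))) (fun d => L (ρq c (y d))) := by
      rw [Z1_L L (f := fun d => ρ (j w d)) (fun d m => hAe (j w d) m)]
      constructor
      · rintro ⟨⟨W, hW, h1⟩, h2⟩
        refine ⟨⟨W, hW, fun g w' hw => congrArg (ρq c) (h1 g w' hw)⟩, fun g g' => ?_⟩
        show ρq c (y (g * g')) = ρq c (y g) + ρ (j w g) (ρq c (y g'))
        rw [h2, Q.act.add, hck]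
      · rintro ⟨⟨W, hW, h1⟩, h2⟩
        have hinj : ∀ m m', ρq c m = ρq c m' → m = m' := fun m m' h3 => by
          rw [← hcc m, h3, hcc]
        refine ⟨⟨W, hW, fun g w' hw => hinj _ _ (h1 g w' hw)⟩, fun g g' => hinj _ _ ?_⟩
        have h3 : ρq c (y (g * g')) = ρq c (y g) + ρ (j w g) (ρq c (y g')) := h2 g g'
        rw [h3, Q.act.add, hck]
    have hcup : ∀ x : D w → M, cup11 (fun d => ρ (κ (j w d))) b x y =
        cup11 (KT.act fun d => A (e (j w d))) BU (fun d => L (x d)) (fun d => L (ρq c (y d))) := by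
      intro x
      funext s t
      show b (x s) (ρ (κ (j w s)) (y t)) = BU (L (x s)) (A (e (j w s)) *ᵥ L (ρq c (y t)))
      rw [hAe, hBU, hω, hce, hcc]
    have hsy : ∀ x y : D w → Fin n → F, Z1 (SD w) (KT.act fun d => A (e (j w d))) x →
        Z1 (SD w) (KT.act fun d => A (e (j w d))) y →
        inv w (cup11 (KT.act fun d => A (e (j w d))) BU x y) =
        inv w (cup11 (KT.act fun d => A (e (j w d))) BU y x) := fun x y hx hy =>
      inv_symm (A := A.comp (e.comp (j w))) hLH hspB hsB hx hy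
    rw [hX1 w]
    constructor
    · rintro ⟨h1, h2⟩
      have h1' := hZ.1 h1
      refine ⟨h1', fun z hz => ?_⟩
      have hz1 := ((hX1 w z).1 hz).1
      rw [hsy _ _ h1' hz1]
      obtain ⟨x, hx⟩ : ∃ x : D w → M, (fun d => L (x d)) = z :=
        ⟨fun d => L.symm (z d), funext fun d => L.apply_symm_apply _⟩
      have h3 := h2 x (by rw [hΛ, hx]; exact hz)
        ((Z1_L L (fun d m => hAe (j w d) m) x).1 (by rw [hx]; exact hz1))
      rw [hcup, hx] at h3
      exact h3
    · rintro ⟨h1, h2⟩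
      refine ⟨hZ.2 h1, fun x hx hx1 => ?_⟩
      have hx1' := ((hX1 w _).1 hx).1
      rw [hcup, hsy _ _ hx1' h1]
      exact h2 _ hx
  -- the Selmer groups
  have hsel : Nat.card (selM h j Λ fun w => perpM H h w (Λ w)) = Nat.card (SelK S j κ e c A X) := by
    refine Nat.card_congr ((fnE L).subtypeEquiv fun x => ?_)
    show (Z1 S ρ x ∧ (∀ w, (fun d => x (j w d)) ∈ Λ w) ∧
      ∀ w, (fun d => x (κ (j w d))) ∈ perpM H h w (Λ w)) ↔
      Z1 S (KT.act (A.comp e : G → Matrix (Fin n) (Fin n) F)) (fun g => L (x g)) ∧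
      (∀ w, (fun d => L (x (j w d))) ∈ X w) ∧ ∀ w, (fun d => A c *ᵥ L (x (κ (j w d)))) ∈ X w
    rw [Z1_L (B := (A.comp e : G → Matrix (Fin n) (Fin n) F)) L (fun g m => hAe g m)]
    refine and_congr Iff.rfl (and_congr Iff.rfl (forall_congr' fun w => ?_))
    rw [hperp]
    have : (fun d => A c *ᵥ L (x (κ (j w d)))) = fun d => L (ρq c (x (κ (j w d)))) :=
      funext fun d => hA c _
    rw [this]
  have hcardΛ : ∀ w, Nat.card (Λ w) = Nat.card F ^ ((a w + 1) * r) := by
    intro w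
    have hfin : Finite (X w) := by
      have hLH := (H.loc w).toLocH
      have hld : LDual (SD w) (inv w) (KT.act (A.comp (e.comp (j w)) :
          D w → Matrix (Fin n) (Fin n) F)) (KT.act (A.comp (e.comp (j w)) :
          D w → Matrix (Fin n) (Fin n) F)) (BU : (Fin n → F) →+ (Fin n → F) →+ A0) :=
        (H.loc w).ld (pair_BU hLH.char (fun d => hsp _) (hsm.comp (H.jsm w)))
      have hf3 := hld.fin
      refine Finite.of_injective (fun z : X w => (⟨z.1, ((hX1 w z.1).1 z.2).1⟩ :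
        {x : D w → Fin n → F // Z1 (SD w) (KT.act (A.comp (e.comp (j w)) :
          D w → Matrix (Fin n) (Fin n) F)) x})) fun z z' h => Subtype.ext ?_
      simpa using h
    have hfd : FiniteDimensional F (X w) := Module.Finite.of_finite
    rw [← hX3 w, ← card_F (F := F)]
    exact Nat.card_congr ((fnE L).subtypeEquiv fun x => Iff.rfl)
  refine ⟨Λ, hbetw, ?_⟩
  rw [hsel, card_F (F := F) (SelK S j κ e c A X), Finset.prod_congr rfl fun w _ => hcardΛ w,
    Finset.prod_pow_eq_pow_sum, ← pow_add, ← Finset.sum_mul]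
  have hn2 : n / 2 = r := by omega
  rw [hn2] at hpar
  obtain ⟨s, hs⟩ := hpar
  obtain ⟨k, hk⟩ := hodd
  refine ⟨s + k * r, ?_⟩
  congr 1
  rw [hk]
  have : (2 * k + 1) * r = 2 * (k * r) + r := by ring
  omega

end Pool.Agent.Work.MP_787500_nt.QP
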