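import Mathlib
import Pool.Agent.Work.MP_787500_nt.QP.M7

/-!
# The extension of the action to the group of the rational numbers

`exq`: the extension defined by an involution `C` with `C (ρ (κ g) m) = ρ g (C m)`; `extQ_of`, and the pairings over both groups.
-/

set_option autoImplicit false
set_option linter.unusedSectionVars false

namespace Pool.Agent.Work.MP_787500_nt.QP

open Pool.Agent.Work.MP_787500_nt.GP (A0 hf smul_hf IsAct d0 tw cup11 EvPow)
open Pool.Agent.Work.MP_787500_nt.KR (FSys Z1 Z2 Sm1 Smooth IsChar LocH LDual big two ParD SDualF Pair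
  perpM selM Betw)
open Pool.Agent.Work.MP_787500_nt.QS (Two KQ gQ sQ jQ iQ)

universe u v

section ext

variable {G Γ : Type*} [Group G] [Group Γ] {e : G →* Γ} {c : Γ} {κ : G →* G} {M : Type*}
  [AddCommGroup M] {ρ : G → M → M} {C : M → M}

open scoped Classical in
/-- the extension of the action -/
noncomputable def exq (e : G →* Γ) (c : Γ) (ρ : G → M → M) (C : M → M) (σ : Γ) (m : M) : M :=
  if h : ∃ g, e g = σ then ρ h.choose m
  else if h : ∃ g, e g * c = σ then ρ h.choose (C m) else m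

theorem exq_e (X : Two e c κ) (g : G) (m : M) : exq e c ρ C (e g) m = ρ g m := by
  have h : ∃ g', e g' = e g := ⟨g, rfl⟩
  have h1 : h.choose = g := X.inj h.choose_spec
  rw [exq, dif_pos h, h1]

theorem exq_ec (X : Two e c κ) (g : G) (m : M) : exq e c ρ C (e g * c) m = ρ g (C m) := by
  have h0 : ¬∃ g', e g' = e g * c := fun ⟨g', h⟩ => X.out g g' h
  have h : ∃ g', e g' * c = e g * c := ⟨g, rfl⟩
  have h1 : h.choose = g := X.inj (mul_right_cancel h.choose_spec)
  rw [exq, dif_neg h0, dif_pos h, h1]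

theorem exq_c (X : Two e c κ) (h : IsAct ρ) (m : M) : exq e c ρ C c m = C m := by
  have h1 := exq_ec (ρ := ρ) (C := C) X 1 m
  rw [map_one, one_mul, h.one] at h1
  exact h1

/-- an involution that intertwines the action and its twist, linear over `O` -/
structure InvC (κ : G →* G) (O : Type*) [CommRing O] [Module O M] (ρ : G → M → M)
    (b : M →+ M →+ A0) (C : M → M) : Prop where
  add : ∀ m m', C (m + m') = C m + C m'
  lin : ∀ (a : O) m, C (a • m) = a • C m
  sq : ∀ m, C (C m) = m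
  kap : ∀ g m, C (ρ (κ g) m) = ρ g (C m)
  alt : ∀ (a : O) m, b (a • m) (C m) = 0

variable {O : Type*} [CommRing O] [Module O M] {b : M →+ M →+ A0}

theorem extQ_of (X : Two e c κ) (act : IsAct ρ) (lin : ∀ g (a : O) m, ρ g (a • m) = a • ρ g m)
    (h : InvC κ O ρ b C) : ExtQ e c O ρ b (exq e c ρ C) where
  act :=
    { one := fun m => by
        rw [← map_one e, exq_e X, act.one]
      mul := fun σ τ m => by
        have hk : ∀ k m, C (ρ k m) = ρ (κ k) (C m) := by
          intro k m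
          have h1 := h.kap (κ k) m
          rwa [X.kk] at h1
        rcases X.cases σ with ⟨g, rfl⟩ | ⟨g, rfl⟩ <;> rcases X.cases τ with ⟨k, rfl⟩ | ⟨k, rfl⟩
        · rw [← map_mul, exq_e X, exq_e X, exq_e X, act.mul]
        · rw [← mul_assoc, ← map_mul, exq_ec X, exq_e X, exq_ec X, act.mul]
        · rw [mul_assoc, c_e X, ← mul_assoc, ← map_mul, exq_ec X, exq_ec X, exq_e X, act.mul, hk]
        · rw [mul_assoc, ← mul_assoc c, c_e X, mul_assoc (e (κ k)), X.cc, mul_one, ← map_mul, exq_e X,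
            exq_ec X, exq_ec X, act.mul, hk, h.sq]
      add := fun σ m m' => by
        rcases X.cases σ with ⟨g, rfl⟩ | ⟨g, rfl⟩
        · rw [exq_e X, exq_e X, exq_e X, act.add]
        · rw [exq_ec X, exq_ec X, exq_ec X, h.add, act.add] }
  lin σ a m := by
    rcases X.cases σ with ⟨g, rfl⟩ | ⟨g, rfl⟩
    · rw [exq_e X, exq_e X, lin]
    · rw [exq_ec X, exq_ec X, h.lin, lin]
  res g m := exq_e X g m
  alt a m := by
    rw [exq_c X act]
    exact h.alt a m

end ext

section pair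

variable {G : Type*} [Group G] {S : FSys G} {Φ Ψ : Type*} [Fintype Φ] [Fintype Ψ] {D : Φ → Type u}
  [∀ w, Group (D w)] {SD : ∀ w, FSys (D w)} {j : ∀ w, D w →* G} {χ : G → ℤ_[2]}
  {inv : ∀ w, (D w → D w → A0) → A0} {κ : G →* G} {Θ : Set (G × G)} {Γ : Type*} [Group Γ]
  {Sq : FSys Γ} {E : Ψ → Type u} [∀ p, Group (E p)] {SE : ∀ p, FSys (E p)} {je : ∀ p, E p →* Γ}
  {χq : Γ → ℤ_[2]} {inve : ∀ p, (E p → E p → A0) → A0} {e : G →* Γ} {c : Γ}
  {In : ∀ p, Set (E p)}
  {tr : ((Γ → Γ → Γ → A0) × (∀ i, gQ D E i → gQ D E i → A0)) →+ A0}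
  {M : Type v} [AddCommGroup M] {O : Type*} [CommRing O] [Module O M]
  {ρ : G → M → M} {b : M →+ M →+ A0} {ρq : Γ → M → M}

/-- The alternating form and the pairs over both groups. -/
theorem exists_pairQ (K : KQ.{u, v} S SD j χ inv κ Sq SE je χq inve e c In tr)
    (h : SDualF S χ κ Θ O ρ b) (Q : ExtQ e c O ρ b ρq) :
    ∃ ω : M →+ M →+ A0, (∀ x y, ω x y = b x (ρq c y)) ∧ Pair Sq χq ρq ρq ω ∧ Pair S χ ρ ρ ω := by
  have X2 := K.two
  have hcc : ∀ m, ρq c (ρq c m) = m := by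
    intro m
    rw [← Q.act.mul, X2.cc, Q.act.one]
  have hce : ∀ g m, ρq c (ρ g m) = ρ (κ g) (ρq c m) := by
    intro g m
    rw [← Q.res, ← Q.act.mul, c_e X2, Q.act.mul, Q.res]
  obtain ⟨ω, hω⟩ : ∃ ω : M →+ M →+ A0, ∀ x y, ω x y = b x (ρq c y) :=
    ⟨AddMonoidHom.mk' (fun x => AddMonoidHom.mk' (fun y => b x (ρq c y)) (fun y y' => by
      rw [Q.act.add, map_add])) (fun x x' => by
        refine DFunLike.ext _ _ fun y => ?_
        show b (x + x') (ρq c y) = b x (ρq c y) + b x' (ρq c y)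
        rw [map_add, AddMonoidHom.add_apply]), fun _ _ => rfl⟩
  have h0 : ∀ z, ω z z = 0 := by
    intro z
    have h1 := Q.alt 1 z
    rw [one_smul] at h1
    rw [hω, h1]
  have hanti : ∀ x y, ω y x = -ω x y := by
    intro x y
    have h1 := h0 (x + y)
    simp only [map_add, AddMonoidHom.add_apply, h0, zero_add, add_zero] at h1
    exact eq_neg_of_add_eq_zero_left h1
  have hnd : ∀ x, (∀ y, ω x y = 0) → x = 0 := fun x hx => h.nd x fun m' => by
    have h1 := hx (ρq c m')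
    rwa [hω, hcc] at h1
  have hnd' : ∀ y, (∀ x, ω x y = 0) → y = 0 := fun y hy => hnd y fun x => by
    rw [hanti, hy, neg_zero]
  have h1 : ∀ g x y, ω (ρ g x) (ρ g y) = χ g • ω x y := by
    intro g x y
    rw [hω, hce, h.eqv, ← hω]
  have hsmq : Smooth Sq ρq := by
    obtain ⟨W, hW, h2⟩ := h.sm
    obtain ⟨W', hW', h3⟩ := K.up W hW
    refine ⟨W', hW', fun σ hσ m => ?_⟩
    obtain ⟨g, hg, rfl⟩ := h3 σ hσ
    rw [Q.res]
    exact h2 g hg m
  refine ⟨ω, hω, ⟨Q.act, Q.act, hsmq, hsmq, fun σ x y => ?_, hnd, hnd'⟩,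
    ⟨h.act, h.act, h.sm, h.sm, h1, hnd, hnd'⟩⟩
  have hχ := K.glob.glob.char
  rcases X2.cases σ with ⟨g, rfl⟩ | ⟨g, rfl⟩
  · rw [Q.res, Q.res, h1, K.chi]
  · rw [Q.act.mul, Q.act.mul, Q.res, Q.res, h1, hχ.mul, K.chi, K.chic, mul_neg_one, neg_smul, hω, hcc,
      h.symm, ← hω, hanti, smul_neg]

end pair

end Pool.Agent.Work.MP_787500_nt.QP
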