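import Mathlib
import Pool.Agent.Work.MP_787500_nt.QP.N2
import Pool.Agent.Work.MP_787500_nt.GA.Inert
import Pool.Agent.Work.MP_787500_nt.GA.LocBQ
import Pool.Agent.Work.MP_787500_nt.LB.ArithB
import Pool.Agent.Work.MP_787500_nt.RQ.ComI
import Pool.Agent.Work.MP_787500_nt.RQ.Basic

/-!
# The decomposition groups over the rational numbers at odd primes

`frob_densQ`: the decomposition group modulo inertia is topologically generated by a Frobenius element. `cyQ_frob`: the cyclotomic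
character of a Frobenius element. `exists_ramL`: the structure `RamL` at a prime where a quadratic character is ramified.
-/

set_option autoImplicit false
set_option linter.unusedSectionVars false

namespace Pool.Agent.Work.MP_787500_nt.QP

open Matrix NumberField
open Pool.Agent.Work.MP_787500_nt.GP (A0 hf smul_hf IsAct TameD tame_gen tw iota stabD)
open Pool.Agent.Work.MP_787500_nt.PA (TwoSys homs)
open Pool.Agent.Work.MP_787500_nt.KR (FSys Z1 Z2 Sm1 Smooth two res zM big CountsF Opn IsChar fullC)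
open Pool.Agent.Work.MP_787500_nt.HP
open Pool.Agent.Work.MP_787500_nt.GA

universe u

section rat

variable {Ω : Type u} [Field Ω] [CharZero Ω] [IsAlgClosed Ω] {l : ℕ} {Q : Ideal (𝓞 Ω)}

/-- The decomposition group modulo inertia is topologically generated by a Frobenius element. -/
theorem frob_densQ (halg : Alg Ω) (hl : l.Prime) (hQ : Q.IsPrime) (hlQ : (l : 𝓞 Ω) ∈ Q) {φ : stb Q}
    (hφ : ∀ x : 𝓞 Ω, og (φ : Ω ≃+* Ω) x - x ^ l ∈ Q) {W : Subgroup (stb Q)}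
    (hW : (fullC (stb Q)).mem W) (g : stb Q) :
    ∃ i : ℕ, ∃ n ∈ (inr Q).subgroupOf (stb Q), (φ ^ i * n)⁻¹ * g ∈ W := by
  obtain ⟨α⟩ := exists_ratEquiv halg
  have hle : stb Q ≤ (emb α).range := by
    rw [range_rat]
    exact le_top
  have hD : (stb Q).comap (emb α) = stabD (pb α Q) := by
    ext σ
    exact emb_stb α
  -- the open subgroup
  have h1 : (fullC (stb Q)).mem ((W.comap ((cmEquiv α hle).symm : _ →* stb Q)).comap
      ((cmEquiv α hle) : stb Q →* (stb Q).comap (emb α))) := by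
    have : (W.comap ((cmEquiv α hle).symm : _ →* stb Q)).comap
        ((cmEquiv α hle) : stb Q →* (stb Q).comap (emb α)) = W := by
      ext x
      simp [Subgroup.mem_comap]
    rw [this]
    exact hW
  rw [fullC_iso α (cmEquiv α hle) (emb_cmEquiv α hle)] at h1
  obtain ⟨-, -, U, hU, hUW⟩ := h1
  -- the elements
  have hemb : ∀ x : stb Q, ∃ y : stabD (pb α Q), emb α (y : AbsGal ℚ) = (x : Ω ≃+* Ω) := by
    intro x
    refine ⟨⟨(cmEquiv α hle x : AbsGal ℚ), ?_⟩, emb_cmEquiv α hle x⟩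
    rw [← hD]
    exact (cmEquiv α hle x).2
  obtain ⟨φ', hφ'⟩ := hemb φ
  obtain ⟨g', hg'⟩ := hemb g
  have hf : ∀ x : 𝓞 (AlgebraicClosure ℚ), (φ' : AbsGal ℚ) • x - x ^ l ∈ pb α Q := by
    intro x
    rw [mem_pb, map_sub, map_pow, ← og_emb, hφ']
    exact hφ _
  have hUo : IsOpen ((U.subgroupOf (stabD (pb α Q)) : Subgroup (stabD (pb α Q))) :
      Set (stabD (pb α Q))) := hU.preimage continuous_subtype_val
  obtain ⟨i, n, hn, h2⟩ := LB.frob_dense (pb_prime α hQ) hl ((pb_nat α l).2 hlQ) hf g' hUo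
  have hnI : emb α (n : AbsGal ℚ) ∈ inr Q := (emb_inr α).2 (Subgroup.mem_subgroupOf.1 hn)
  refine ⟨i, ⟨emb α (n : AbsGal ℚ), inr_le_stb Q hnI⟩, hnI, ?_⟩
  obtain ⟨y, hy⟩ : ∃ y, y = (φ ^ i * ⟨emb α (n : AbsGal ℚ), inr_le_stb Q hnI⟩)⁻¹ * g := ⟨_, rfl⟩
  rw [← hy]
  have h3 : emb α (((φ' ^ i * n)⁻¹ * g' : stabD (pb α Q)) : AbsGal ℚ) = (y : Ω ≃+* Ω) := by
    rw [hy]
    show emb α ((((φ' : AbsGal ℚ) ^ i * (n : AbsGal ℚ))⁻¹ * (g' : AbsGal ℚ))) =
      ((φ : Ω ≃+* Ω) ^ i * emb α (n : AbsGal ℚ))⁻¹ * (g : Ω ≃+* Ω)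
    rw [map_mul, map_inv, map_mul, map_pow, hφ', hg']
  have h4 : (cmEquiv α hle y : AbsGal ℚ) = ((φ' ^ i * n)⁻¹ * g' : stabD (pb α Q)) := by
    apply emb_inj α
    rw [emb_cmEquiv, h3]
  have h5 : cmEquiv α hle y ∈ U.subgroupOf ((stb Q).comap (emb α)) := by
    rw [Subgroup.mem_subgroupOf, h4]
    exact Subgroup.mem_subgroupOf.1 h2
  have h6 := hUW h5
  rw [Subgroup.mem_comap] at h6
  simpa using h6

/-- The cyclotomic character of a Frobenius element. -/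
theorem cyQ_frob (h2 : (2 : 𝓞 Ω) ∉ Q) {g : Ω ≃+* Ω} (hg : ∀ x : 𝓞 Ω, og g x - x ^ l ∈ Q) :
    cyQ g = (l : ℤ_[2]) := by
  rw [← PadicInt.ext_of_toZModPow]
  intro n
  obtain ⟨ζ, hζ⟩ : ∃ ζ : Ω, IsPrimitiveRoot ζ (2 ^ n) :=
    HasEnoughRootsOfUnity.exists_primitiveRoot _ _
  have hζi : IsIntegral ℤ ζ := hζ.isIntegral (by positivity)
  let z : 𝓞 Ω := ⟨ζ, hζi⟩
  have hz : z ^ 2 ^ n = 1 := by
    apply RingOfIntegers.ext
    show ζ ^ 2 ^ n = 1
    exact hζ.pow_eq_one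
  have hgz : og g z = z ^ (PadicInt.toZModPow n (cyQ g)).val := by
    apply RingOfIntegers.ext
    exact cyclotomicCharacter.spec 2 g ζ hζ.pow_eq_one
  have h3 := hg z
  rw [hgz] at h3
  have h4 := LB.inert_root h2 hz h3
  have h5 : ζ ^ (PadicInt.toZModPow n (cyQ g)).val = ζ ^ l :=
    congrArg (algebraMap (𝓞 Ω) Ω) h4
  have : NeZero (2 ^ n) := ⟨by positivity⟩
  have h7 : ζ ^ l = ζ ^ (l % 2 ^ n) := by
    conv_lhs => rw [← Nat.mod_add_div l (2 ^ n), pow_add, pow_mul, hζ.pow_eq_one, one_pow, mul_one]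
  rw [h7] at h5
  have h8 := hζ.pow_inj (ZMod.val_lt _) (Nat.mod_lt _ (by positivity)) h5
  have h9 : ((PadicInt.toZModPow n (cyQ g)).val : ZMod (2 ^ n)) = (l : ℕ) := by
    rw [h8, ZMod.natCast_mod]
  rw [ZMod.natCast_zmod_val] at h9
  rw [h9, map_natCast]

/-- The decomposition group at a prime where a quadratic character is ramified. -/
theorem exists_ramL (halg : Alg Ω) (hl : l.Prime) (h2 : (2 : 𝓞 Ω) ∉ Q) (hQ : Q.IsPrime)
    (hlQ : (l : 𝓞 Ω) ∈ Q) {a : stb Q → ℤ_[2]} {σ τ : stb Q}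
    (hT : TameD (fsys (stb Q)) (fun d => cyQ (d : Ω ≃+* Ω)) a σ τ l)
    (hτ : (τ : Ω ≃+* Ω) ∈ inr Q) {ε : stb Q → ZMod 2}
    (hε : ε ∈ homs (two (fullC (stb Q))) (⊤ : Subgroup (stb Q))) (hετ : ε τ = 1) :
    ∃ φ : stb Q, RamL (fullC (stb Q)) (fun d => cyQ (d : Ω ≃+* Ω)) a σ τ l
      ((inr Q).subgroupOf (stb Q)) φ ε := by
  obtain ⟨g, hg, hf⟩ := exists_frobQ halg hl hQ hlQ
  have hb : Q ≠ ⊥ := by
    rintro rfl
    rw [Ideal.mem_bot] at hlQ
    exact hl.ne_zero (by exact_mod_cast hlQ)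
  obtain ⟨α⟩ := exists_ratEquiv halg
  refine ⟨⟨g, hg⟩, ⟨?_, ?_, RQ.char_lfull (stb Q), fun g hg => cyQ_inr hQ h2 hg, cyQ_frob h2 hf, hε,
    hτ, hετ, fun a b => RQ.comm_inr hQ hl hlQ a.2 b.2, fun W hW g => frob_densQ halg hl hQ hlQ hf hW g⟩⟩
  · rwa [KR.two_fullC]
  · have h1 := countsF_Q α hQ hb
    rwa [if_neg h2] at h1

end rat

end Pool.Agent.Work.MP_787500_nt.QP
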