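import Mathlib
import Pool.Agent.Work.MP_787500_nt.QP.N3
import Pool.Agent.Work.MP_787500_nt.QP.M7
import Pool.Agent.Work.MP_787500_nt.QF.Glob4
import Pool.Agent.Work.MP_787500_nt.GA.DualQ
import Pool.Agent.Work.MP_787500_nt.KS.V18

/-!
# The places of the rational numbers that do not split, for the imaginary quadratic field

`plH_K`: the hypotheses `PlH` for the place at infinity and the prime divisors of `D`.
-/

set_option autoImplicit false
set_option linter.unusedSectionVars false

namespace Pool.Agent.Work.MP_787500_nt.QP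

open Matrix NumberField
open Pool.Agent.Work.MP_787500_nt.PA (cyc)
open Pool.Agent.Work.MP_787500_nt.GP (A0 hf IsAct TameD tw cup11 stabD)
open Pool.Agent.Work.MP_787500_nt.KR (FSys Z1 Z2 Sm1 Smooth two res zM big CountsF Opn IsChar fullC fullQ
  fullK fullD)
open Pool.Agent.Work.MP_787500_nt.HP (IsQ Spl IsP cyQ stb emb inr Alg QDat alg_closure emb_sq inr_neg)
open Pool.Agent.Work.MP_787500_nt.GA (HQ SQ jQ iQ isReal_inf)
open Pool.Agent.Work.MP_787500_nt.KS (Ar iK sQ c_sq iK_cases iK_nc push ep ep_add ep_zero res_stb ep_homs)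
open Pool.Agent.Work.MP_787500_nt.RQ (LocF)
open Pool.Agent.Work.MP_787500_nt.QF (plQ InQ exists_conj_ne)

universe u v

variable {K : Type u} [Field K] [NumberField K] {D : ℕ} {s : K}
  {c : AlgebraicClosure K ≃+* AlgebraicClosure K} {κ : AbsGal K →* AbsGal K} {T : Finset ℕ}
  {P : ℕ → Ideal (𝓞 (AlgebraicClosure K))} {N₀ : Subgroup (AbsGal K)}
  {invQ invFQ : ∀ w : Option (T ∪ D.primeFactors : Finset ℕ),
      (stb (HP.PP P w) → stb (HP.PP P w) → A0) → A0}

/-- the inertia groups at the places that do not split -/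
noncomputable def JQ (c : AlgebraicClosure K ≃+* AlgebraicClosure K) (T : Finset ℕ) (D : ℕ)
    (P : ℕ → Ideal (𝓞 (AlgebraicClosure K))) : ∀ q : Option D.primeFactors,
      Subgroup (HQ c P (plQ T D q))
  | none => ⊥
  | some p => (inr (P p)).subgroupOf (stb (P p))

theorem mem_JQ {p : D.primeFactors} {d : HQ c P (plQ T D (some p))} :
    d ∈ JQ c T D P (some p) ↔ (d : AlgebraicClosure K ≃+* AlgebraicClosure K) ∈ inr (P p) := Iff.rfl

/-- THE PLACES THAT DO NOT SPLIT. -/
theorem plH_K (hK : IsQ K D s) (hc : PA.IsConj s c)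
    (hκ : ∀ (σ : AbsGal K) (x : AlgebraicClosure K), κ σ x = c (σ (c x)))
    (hT : ∀ l ∈ T, Spl D l) (hP : IsP (T ∪ D.primeFactors) P)
    (hQ : QDat c (T ∪ D.primeFactors) P invQ)
    (hF : ∀ w, LocF (stb (HP.PP P w)) (invQ w) (invFQ w)) :
    PlH (iK K) c cyQ (fun q : Option D.primeFactors => SQ c P (N₀.map (iK K)) (plQ T D q))
      (fun q => jQ c P (plQ T D q)) (fun q => iQ c P invFQ (plQ T D q)) (InQ c T D P)
      (JQ c T D P) none := by
  have H : Ar s c κ D T P := ⟨hK, hc, hκ, hT, hP⟩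
  refine ⟨fun q hq => ?_, ?_⟩
  · match q, hq with
    | some p, _ =>
      have hm : (p : ℕ) ∈ T ∪ D.primeFactors := Finset.mem_union_right _ p.2
      have hpp := hP.prime p hm
      have hQp := hP.isPrime p (Or.inl hm)
      have hpQ := hP.mem p (Or.inl hm)
      have h2 := QF.two_P hP p.2
      obtain ⟨a, u, σ, τ, hu, hτ, hττ, hTam, hinv⟩ := hQ.tame ⟨p, hm⟩
      have hτn : ep (iK K) (τ : AlgebraicClosure K ≃+* AlgebraicClosure K) = 1 := by
        refine if_neg fun h1 => ?_
        have h2 := (emb_sq (RingEquiv.refl (AlgebraicClosure K)) hK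
          (τ : AlgebraicClosure K ≃+* AlgebraicClosure K)).1 h1
        have h3 := inr_neg (RingEquiv.refl (AlgebraicClosure K)) hK hpp
          (Nat.dvd_of_mem_primeFactors p.2) hQp hpQ hτ hττ
        exact KS.s_ne hK (h2.symm.trans h3)
      obtain ⟨φ, R⟩ := exists_ramL (alg_closure K) hpp h2 hQp hpQ hTam hτ (ep_homs H (stb (P p))) hτn
      refine ⟨⟨fullC (stb (P p)), (N₀.map (iK K)).subgroupOf (stb (P p)), a, σ, τ, p, φ, u, rfl, R, hu,
        fun f hf' => ?_⟩, fun d => ?_⟩
      · have hf2 : GP.Z2 (two (fullC (stb (P p)))) (tw fun d : stb (P p) =>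
            cyQ (d : AlgebraicClosure K ≃+* AlgebraicClosure K)) f := hf'
        rw [KR.two_fullC] at hf2
        exact ((hF (some ⟨p, hm⟩)).ext f hf2).trans (hinv f)
      · rw [mem_JQ, ep_zero]
        rfl
  · have hne := exists_conj_ne hK hc
    have hc1 : (⟨c, Subgroup.mem_zpowers c⟩ : Subgroup.zpowers c) ≠ 1 := by
      intro h
      obtain ⟨x, hx⟩ := hne
      exact hx (congrArg (fun g : Subgroup.zpowers c => (g : AlgebraicClosure K ≃+* AlgebraicClosure K) x) h)
    exact ⟨(⟨c, Subgroup.mem_zpowers c⟩ : Subgroup.zpowers c),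
      isReal_inf (T := T ∪ D.primeFactors) hc.sq hne P (N₀.map (iK K)), hc1, rfl, rfl,
      fun d hd => absurd hd (Set.notMem_empty d)⟩

end Pool.Agent.Work.MP_787500_nt.QP
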