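import Mathlib
import Pool.Agent.Work.MP_787500_nt.QP.Pl
import Pool.Agent.Work.MP_787500_nt.QP.Ext
import Pool.Agent.Work.MP_787500_nt.QL.Lag
import Pool.Agent.Work.MP_787500_nt.QL.TameQ
import Pool.Agent.Work.MP_787500_nt.EF.Final
import Pool.Agent.Work.MP_787500_nt.EU.Lag

/-!
# THE PARITY AT THE LEVEL ONE

`level_one`: the parity for a finite module over the residue field of a local ring, self-dual over the imaginary quadratic field, whose action
extends to the group of the rational numbers (`InvC`).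
-/

set_option autoImplicit false
set_option linter.unusedSectionVars false

namespace Pool.Agent.Work.MP_787500_nt.QP

open Matrix NumberField
open Pool.Agent.Work.MP_787500_nt.PA (cyc)
open Pool.Agent.Work.MP_787500_nt.GP (A0 hf IsAct TameD tw cup11 stabD EvPow)
open Pool.Agent.Work.MP_787500_nt.KR (FSys Z1 Z2 Sm1 Smooth two res zM big CountsF Opn IsChar fullC fullQ
  fullK fullD ParD SDualF Betw selM perpM Pair z1s b1s)
open Pool.Agent.Work.MP_787500_nt.HP (IsQ Spl IsP cyQ stb emb inr Alg QDat alg_closure emb_sq inr_neg)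
open Pool.Agent.Work.MP_787500_nt.GA (HQ SQ jQ iQ isReal_inf jsmQ)
open Pool.Agent.Work.MP_787500_nt.KS (Ar iK sQ c_sq iK_cases iK_nc push ep ep_add ep_zero res_stb ep_homs)
open Pool.Agent.Work.MP_787500_nt.RQ (LocF)
open Pool.Agent.Work.MP_787500_nt.QF (plQ InQ exists_conj_ne lIso_split isP_left PP_incl LIso)

universe u v

variable {K : Type u} [Field K] [NumberField K] {D : ℕ} {s : K}
  {c : AlgebraicClosure K ≃+* AlgebraicClosure K} {κ : AbsGal K →* AbsGal K} {T : Finset ℕ}
  {P : ℕ → Ideal (𝓞 (AlgebraicClosure K))} {N₀ : Subgroup (AbsGal K)}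
  {invQ invFQ : ∀ w : Option (T ∪ D.primeFactors : Finset ℕ),
      (stb (HP.PP P w) → stb (HP.PP P w) → A0) → A0}
  {invF : ∀ w : Option T, (stabD (HP.PP P w) → stabD (HP.PP P w) → A0) → A0}
  {θ φ : ℕ → AbsGal K}
  {tr : (((AlgebraicClosure K ≃+* AlgebraicClosure K) → (AlgebraicClosure K ≃+* AlgebraicClosure K) →
    (AlgebraicClosure K ≃+* AlgebraicClosure K) → A0) ×
    (∀ i, QS.gQ (fun w : Option T => stabD (HP.PP P w))
        (fun q : Option D.primeFactors => HQ c P (plQ T D q)) i →
      QS.gQ (fun w : Option T => stabD (HP.PP P w))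
        (fun q : Option D.primeFactors => HQ c P (plQ T D q)) i → A0)) →+ A0}
  {M : Type v} [AddCommGroup M] [Finite M] {O : Type*} [CommRing O] [Module O M]
  {ρ : AbsGal K → M → M} {b : M →+ M →+ A0}
  {ρq : (AlgebraicClosure K ≃+* AlgebraicClosure K) → M → M}

/-- the number of cocycles at a prime different from 2 -/
theorem card_tame {X : Type*} [Group X] {S : FSys X} {χ a : X → ℤ_[2]} {σ τ : X} {l : ℕ}
    {I : Subgroup X} {inv : (X → X → A0) → A0} {υ : X → M → M} {B : M →+ M →+ A0}
    (h : QL.TameF S χ a σ τ l I) (L : KR.LocH S χ inv) (hp : Pair S χ υ υ B)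
    (hl : KR.LDual S inv υ υ B) :
    Nat.card {x : X → M // Z1 S υ x} = Nat.card M ^ 1 * Nat.card {m : M // ∀ d, υ d m = m} := by
  have h1 := QL.h1_eq h L hp hl
  have h2 := KR.card_z1s hp
  have h3 := QL.card_b1s hp
  rw [h1, ← mul_assoc, mul_comm (Nat.card (b1s hp.act)), h3] at h2
  rw [pow_one]
  exact h2.symm

/-- THE NUMBERS at the places that split. -/
theorem num_K (hK : IsQ K D s) (hc : PA.IsConj s c)
    (hκ : ∀ (σ : AbsGal K) (x : AlgebraicClosure K), κ σ x = c (σ (c x)))
    (hT : ∀ l ∈ T, Spl D l) (hP : IsP (T ∪ D.primeFactors) P)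
    (hQ : QDat c (T ∪ D.primeFactors) P invQ)
    (hF : ∀ w, LocF (stb (HP.PP P w)) (invQ w) (invFQ w))
    (hrel : ∀ (w : Option T) (f : (AlgebraicClosure K ≃+* AlgebraicClosure K) →
      (AlgebraicClosure K ≃+* AlgebraicClosure K) → A0),
      invF w (fun a b => f (iK K (a : AbsGal K)) (iK K (b : AbsGal K))) =
        invFQ (RQ.incl Finset.subset_union_left w) (fun a b => f a b))
    (H : ParD.{v} (big (fullK (K := K) T) N₀)
      (fun w : Option T => big (fullD (stabD (HP.PP P w)))
        (N₀.comap (stabD (HP.PP P w)).subtype))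
      (fun w => (stabD (HP.PP P w)).subtype) cyc invF κ
      {p | ∃ n ∈ D.primeFactors, p = (θ n, φ n)})
    (Q : QS.KQ.{u, v} (big (fullK (K := K) T) N₀)
      (D := fun w : Option T => stabD (HP.PP P w))
      (fun w => big (fullD (stabD (HP.PP P w))) (N₀.comap (stabD (HP.PP P w)).subtype))
      (fun w => (stabD (HP.PP P w)).subtype) cyc invF κ (big (KS.sQ K T D) (N₀.map (iK K)))
      (E := fun q : Option D.primeFactors => HQ c P (plQ T D q))
      (fun q => SQ c P (N₀.map (iK K)) (plQ T D q)) (fun q => GA.jQ c P (plQ T D q)) cyQ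
      (fun q => iQ c P invFQ (plQ T D q)) (iK K) c (InQ c T D P) tr)
    (h : SDualF (big (fullK (K := K) T) N₀) cyc κ {p | ∃ n ∈ D.primeFactors, p = (θ n, φ n)} O ρ b)
    (X : ExtQ (iK K) c O ρ b ρq) (h2 : ∀ m : M, m + m = 0) (w : Option T) :
    Nat.card {x : stabD (HP.PP P w) → M // Z1 (big (fullD (stabD (HP.PP P w)))
      (N₀.comap (stabD (HP.PP P w)).subtype)) (fun d => ρ ((stabD (HP.PP P w)).subtype d)) x} =
    Nat.card M ^ (if w = none then 2 else 1) *
      Nat.card {m : M // ∀ d, ρ ((stabD (HP.PP P w)).subtype d) m = m} := by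
  obtain ⟨ω, hω, hpq, hp⟩ := exists_pairQ Q h X
  obtain ⟨e, he⟩ := lIso_split hK hT (isP_left hP) N₀ w (PP_incl w) (hrel w)
  have hres : ∀ (w : Option T) (d : stabD (HP.PP P w)),
      ρq (((iK K).comp (stabD (HP.PP P w)).subtype) d) = ρ ((stabD (HP.PP P w)).subtype d) :=
    fun w d => funext fun m => X.res _ m
  match w, e, he with
  | none, e, he =>
    rw [if_pos rfl]
    obtain ⟨α⟩ := GA.exists_ratEquiv (alg_closure K)
    -- the number over the rational numbers
    have hp0 : Pair (big (fullC (stb (P 2))) ((N₀.map (iK K)).subgroupOf (stb (P 2))))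
        (fun d => cyQ (jQ (T := T ∪ D.primeFactors) c P (some none) d))
        (fun d => ρq (jQ (T := T ∪ D.primeFactors) c P (some none) d))
        (fun d => ρq (jQ (T := T ∪ D.primeFactors) c P (some none) d)) ω :=
      hpq.comp (jsmQ (T := T ∪ D.primeFactors) c P (N₀.map (iK K)) (some none))
    have h3 := EF.euler_big (alg_closure K) α
      (hP.isPrime 2 (Or.inr rfl)) (by exact_mod_cast hP.mem 2 (Or.inr rfl)) (hQ.loc none) (hF none)
      hp0.act hp0.sm h2
    have h4 := EU.card_fixD (fun g => Q.glob.glob.char.odd _) hp0 h2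
    rw [← h4] at h3
    have h5 : Nat.card (EU.fixD hp0.act) =
        Nat.card {m : M // ∀ d, ρ ((stabD (HP.PP P (none : Option T))).subtype d) m = m} := by
      refine Nat.card_congr (Equiv.subtypeEquivRight fun m => ?_)
      constructor
      · intro h6 d
        rw [← hres]
        have h7 := h6 (e d)
        rw [← he.j]
        exact h7
      · intro h6 g
        obtain ⟨d, rfl⟩ := e.surjective g
        have h7 := h6 d
        rw [← hres, ← he.j] at h7
        exact h7
    rw [h5] at h3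
    rw [← h3]
    refine (Nat.card_congr ((Equiv.arrowCongr e.toEquiv (Equiv.refl M)).symm.subtypeEquiv fun x => ?_)).symm
    have h6 := he.z1 (ρ := ρq) (x := x)
    simp only [hres] at h6
    exact h6.symm
  | some l, e, he =>
    rw [if_neg (by simp)]
    have hl1 : (l : ℕ) ∈ T ∪ D.primeFactors := Finset.mem_union_left _ l.2
    obtain ⟨a, σ, τ, hTam⟩ := QL.exists_tameQ_big (alg_closure K) (hP.prime l hl1) (by
        intro h0
        have h1 := hP.odd l hl1
        rw [h0] at h1
        exact absurd h1 (by decide)) (hP.isPrime l (Or.inl hl1)) (hP.mem l (Or.inl hl1))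
      ((N₀.map (iK K)).subgroupOf (stb (P l)))
    have hχ : (fun g : stabD (HP.PP P (some l)) =>
        cyQ ((e g : stb (P l)) : AlgebraicClosure K ≃+* AlgebraicClosure K)) =
        fun g => cyc ((stabD (HP.PP P (some l))).subtype g) := by
      funext g
      rw [← Q.chi]
      exact congrArg cyQ (he.j g)
    obtain ⟨a', σ', τ', I', h3⟩ : ∃ (a' : stabD (HP.PP P (some l)) → ℤ_[2])
        (σ' τ' : stabD (HP.PP P (some l))) (I' : Subgroup (stabD (HP.PP P (some l)))),
        QL.TameF (big (fullD (stabD (HP.PP P (some l))))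
        (N₀.comap (stabD (HP.PP P (some l))).subtype))
        (fun g => cyc ((stabD (HP.PP P (some l))).subtype g)) a' σ' τ' l I' := by
      rw [← hχ]
      exact ⟨_, _, _, _, hTam.iso e he.sys⟩
    exact card_tame h3 (H.loc (some l)).toLocH (hp.comp (H.jsm (some l)))
      ((H.loc (some l)).ld (hp.comp (H.jsm (some l))))

/-- The inertia groups at the prime divisors of `D` act trivially. -/
theorem inr_triv (hK : IsQ K D s) (hc : PA.IsConj s c) (hT : ∀ l ∈ T, Spl D l)
    (hP : IsP (T ∪ D.primeFactors) P) (hsm : Smooth (big (fullK (K := K) T) N₀) ρ)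
    (X : ExtQ (iK K) c O ρ b ρq) {p : ℕ} (hp : p ∈ D.primeFactors) {t : AbsGal K}
    (ht : iK K t * c ∈ inr (P p)) (htm : ∀ m, ρ t (ρq c m) = m)
    {d : AlgebraicClosure K ≃+* AlgebraicClosure K} (hd : d ∈ inr (P p)) (m : M) : ρq d m = m := by
  have h0 : ∀ g, iK K g ∈ inr (P p) → ∀ m, ρ g m = m := by
    intro g hg m
    obtain ⟨W, ⟨-, ⟨W₁, hW₁, hle⟩, -⟩, h1⟩ := hsm
    exact h1 g (hle (QF.mem_full hW₁ (hP.isPrime p (Or.inl (Finset.mem_union_right _ hp)))
      (QF.two_P hP hp) (QF.T_P hT hP hp) hg)) m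
  rcases iK_cases hK hc d with ⟨n, rfl⟩ | ⟨n, rfl⟩
  · rw [X.res]
    exact h0 n hd m
  · have h1 : iK K (n * t⁻¹) ∈ inr (P p) := by
      have e1 : iK K (n * t⁻¹) = iK K n * c * (iK K t * c)⁻¹ := by
        rw [map_mul, map_inv]
        group
      rw [e1]
      exact mul_mem hd (inv_mem ht)
    have h2 := h0 _ h1 (ρ t (ρq c m))
    rw [← X.res, ← X.res, ← X.act.mul, ← map_mul, inv_mul_cancel_right, ← X.act.mul, X.res, htm] at h2
    exact h2

/-- THE PARITY AT THE LEVEL ONE. -/
theorem level_one (hK : IsQ K D s) (hc : PA.IsConj s c)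
    (hκ : ∀ (σ : AbsGal K) (x : AlgebraicClosure K), κ σ x = c (σ (c x)))
    (hT : ∀ l ∈ T, Spl D l) (hP : IsP (T ∪ D.primeFactors) P)
    (hQ : QDat c (T ∪ D.primeFactors) P invQ)
    (hF : ∀ w, LocF (stb (HP.PP P w)) (invQ w) (invFQ w))
    (hrel : ∀ (w : Option T) (f : (AlgebraicClosure K ≃+* AlgebraicClosure K) →
      (AlgebraicClosure K ≃+* AlgebraicClosure K) → A0),
      invF w (fun a b => f (iK K (a : AbsGal K)) (iK K (b : AbsGal K))) =
        invFQ (RQ.incl Finset.subset_union_left w) (fun a b => f a b))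
    (hθ : ∀ p ∈ D.primeFactors, iK K (θ p) * c ∈ inr (P p))
    (H : ParD.{v} (big (fullK (K := K) T) N₀)
      (fun w : Option T => big (fullD (stabD (HP.PP P w)))
        (N₀.comap (stabD (HP.PP P w)).subtype))
      (fun w => (stabD (HP.PP P w)).subtype) cyc invF κ
      {p | ∃ n ∈ D.primeFactors, p = (θ n, φ n)})
    (Q : QS.KQ.{u, v} (big (fullK (K := K) T) N₀)
      (D := fun w : Option T => stabD (HP.PP P w))
      (fun w => big (fullD (stabD (HP.PP P w))) (N₀.comap (stabD (HP.PP P w)).subtype))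
      (fun w => (stabD (HP.PP P w)).subtype) cyc invF κ (big (KS.sQ K T D) (N₀.map (iK K)))
      (E := fun q : Option D.primeFactors => HQ c P (plQ T D q))
      (fun q => SQ c P (N₀.map (iK K)) (plQ T D q)) (fun q => GA.jQ c P (plQ T D q)) cyQ
      (fun q => iQ c P invFQ (plQ T D q)) (iK K) c (InQ c T D P) tr)
    {O : Type v} [CommRing O] [IsLocalRing O] [Finite (IsLocalRing.ResidueField O)]
    (h2 : (2 : O) ∈ IsLocalRing.maximalIdeal O)
    {M : Type v} [AddCommGroup M] [Module O M] [Finite M]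
    (hM : ∀ a ∈ IsLocalRing.maximalIdeal O, ∀ m : M, a • m = 0)
    {ρ : AbsGal K → M → M} {b : M →+ M →+ A0}
    (h : SDualF (big (fullK (K := K) T) N₀) cyc κ {p | ∃ n ∈ D.primeFactors, p = (θ n, φ n)} O ρ b)
    {C : M → M} (hC : InvC κ O ρ b C) (hCθ : ∀ p ∈ D.primeFactors, ∀ m, ρ (θ p) (C m) = m) :
    ∃ Λ : ∀ w : Option T, Submodule O (stabD (HP.PP P w) → M),
      (∀ w, Betw (big (fullD (stabD (HP.PP P w))) (N₀.comap (stabD (HP.PP P w)).subtype))
        (fun d => ρ ((stabD (HP.PP P w)).subtype d)) (Λ w)) ∧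
      EvPow (Nat.card (IsLocalRing.ResidueField O))
        (Nat.card (selM h (fun w : Option T => (stabD (HP.PP P w)).subtype) Λ
            fun w => perpM H h w (Λ w)) * ∏ w, Nat.card (Λ w)) := by
  classical
  have hF2 : (2 : IsLocalRing.ResidueField O) = 0 := by
    have h3 : IsLocalRing.residue O 2 = 0 := (IsLocalRing.residue_eq_zero_iff 2).2 h2
    rwa [map_ofNat] at h3
  have : CharP (IsLocalRing.ResidueField O) 2 :=
    (CharP.charP_iff_prime_eq_zero Nat.prime_two).2 (by exact_mod_cast hF2)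
  let _ : Algebra (ZMod 2) (IsLocalRing.ResidueField O) := ZMod.algebra _ 2
  have hM' : Module.IsTorsionBySet O M (IsLocalRing.maximalIdeal O : Set O) := fun m a => hM a a.2 m
  let iM : Module (IsLocalRing.ResidueField O) M :=
    (hM'.module : Module (O ⧸ IsLocalRing.maximalIdeal O) M)
  have hsc : IsScalarTower O (IsLocalRing.ResidueField O) M := by
    have h5 : ∀ (y : O) (m : M), IsLocalRing.residue O y • m = y • m := fun _ _ => rfl
    refine ⟨fun a x m => ?_⟩
    obtain ⟨y, rfl⟩ := IsLocalRing.residue_surjective x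
    have e : a • (IsLocalRing.residue O y) = IsLocalRing.residue O (a * y) := by
      rw [Algebra.smul_def, map_mul]
      rfl
    rw [e, h5, h5, mul_smul]
  have h2M : ∀ m : M, m + m = 0 := fun m => by
    rw [← two_smul O m]
    exact hM 2 h2 m
  have X := extQ_of Q.two h.act h.lin hC
  have hE := exists_par (F := IsLocalRing.ResidueField O) (J := JQ c T D P) (p₀ := none)
    (a := fun w : Option T => if w = none then 2 else 1) IsLocalRing.residue_surjective Q H h X
    (plH_K hK hc hκ hT hP hQ hF) (fun q hq d hd m => ?_)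
    (fun w => num_K hK hc hκ hT hP hQ hF hrel H Q h X h2M w) ?_
  · exact hE
  · match q, hq with
    | some p, _ =>
      refine inr_triv hK hc hT hP h.sm X p.2 (hθ p p.2) (fun m => ?_) hd m
      rw [exq_c Q.two h.act]
      exact hCθ p p.2 m
  · have h3 : ∑ w : Option T, ((if w = none then 2 else 1) + 1) = 3 + 2 * Fintype.card T := by
      rw [Fintype.sum_option]
      simp
      ring
    rw [h3]
    exact ⟨1 + Fintype.card T, by ring⟩

end Pool.Agent.Work.MP_787500_nt.QP
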