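import Mathlib
import Pool.Agent.Work.MP_787500_nt.QP.N3
import Pool.Agent.Work.MP_787500_nt.QP.N4
import Pool.Agent.Work.MP_787500_nt.GA.DualQ
import Pool.Agent.Work.MP_787500_nt.KS.V18

/-!
# THE PARITY OF THE SELMER SPACE OVER THE QUADRATIC FIELD, residual coefficients

`sel_parity`: for a representation `A` of the group of the rational numbers in the symplectic group of `F ^ n`, `F` a finite field of
characteristic 2, that is trivial on the inertia groups at the primes that divide `D`, and for all local conditions at the split places that are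
their own annihilators, the dimension of the Selmer space over the quadratic field is congruent to `n / 2` modulo 2.
-/

set_option autoImplicit false
set_option linter.unusedSectionVars false

namespace Pool.Agent.Work.MP_787500_nt.QP

open Matrix NumberField
open Pool.Agent.Work.MP_787500_nt.GP (A0 hf smul_hf IsAct TameD tw cup11)
open Pool.Agent.Work.MP_787500_nt.PA (TwoSys homs)
open Pool.Agent.Work.MP_787500_nt.KR (FSys Z1 Z2 Sm1 Smooth two res zM big CountsF Opn IsChar fullC fullQ)
open Pool.Agent.Work.MP_787500_nt.HP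
open Pool.Agent.Work.MP_787500_nt.GA
open Pool.Agent.Work.MP_787500_nt.KS (Ar iK sQ c_sq iK_cases iK_nc push ep ep_add ep_zero res_stb ep_homs)
open Pool.Agent.Work.MP_787500_nt.KT
open Pool.Agent.Work.MP_787500_nt.RQ (LocF)

universe u v

variable {K : Type u} [Field K] [NumberField K] {D : ℕ} {s : K}
  {c : AlgebraicClosure K ≃+* AlgebraicClosure K} {κ : AbsGal K →* AbsGal K} {T : Finset ℕ}
  {P : ℕ → Ideal (𝓞 (AlgebraicClosure K))}

/-- the places of the rational numbers that split in the quadratic field -/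
def spl (T : Finset ℕ) (D : ℕ) : Option (Option (T ∪ D.primeFactors : Finset ℕ)) → Prop
  | none => False
  | some none => True
  | some (some p) => (p : ℕ) ∈ T

/-- the character of the quadratic field -/
noncomputable abbrev epK (K : Type u) [Field K] :
    (AlgebraicClosure K ≃+* AlgebraicClosure K) → ZMod 2 := ep (iK K)

theorem range_normal (H : Ar s c κ D T P) : (iK K).range.Normal :=
  Subgroup.normal_of_index_eq_two (range_index H.hK (RingEquiv.refl (AlgebraicClosure K)))

/-- the group of the quadratic field is a member of the system -/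
theorem range_big (H : Ar s c κ D T P)
    (N₀ : Subgroup (AlgebraicClosure K ≃+* AlgebraicClosure K)) :
    (big (sQ K T D) N₀).mem (iK K).range := by
  refine ⟨range_normal H, ⟨_, range_mem H.hK (RingEquiv.refl (AlgebraicClosure K)) fun p hp hpD => ?_,
    le_rfl⟩, ?_⟩
  · exact Finset.mem_union_right _ (Nat.mem_primeFactors.2 ⟨hp, hpD, H.hK.sqf.ne_zero⟩)
  · have hn := range_normal H
    have h1 : (iK K).range.relIndex N₀ ∣ 2 ^ 1 := by
      rw [pow_one, ← range_index H.hK (RingEquiv.refl (AlgebraicClosure K))]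
      exact Subgroup.relIndex_dvd_index_of_normal _ _
    obtain ⟨k, -, hk⟩ := (Nat.dvd_prime_pow Nat.prime_two).1 h1
    exact ⟨k, hk⟩

theorem ep_sm (H : Ar s c κ D T P) (N₀ : Subgroup (AlgebraicClosure K ≃+* AlgebraicClosure K)) :
    Sm1 (big (sQ K T D) N₀) (epK K) := by
  refine ⟨_, range_big H N₀, fun g w hw => ?_⟩
  show ep (iK K) (g * w) = ep (iK K) g
  rw [ep_add H.hK H.hc H.hκ, (ep_zero w).2 hw, add_zero]

theorem ep_spl (H : Ar s c κ D T P) (i : Option (Option (T ∪ D.primeFactors : Finset ℕ)))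
    (hi : spl T D i) (d : HQ c P i) : epK K (jQ c P i d) = 0 := by
  rw [epK, ep_zero]
  match i, hi with
  | some none, _ =>
    exact stb_le (RingEquiv.refl (AlgebraicClosure K)) H.hK (l := 2) (Or.inl rfl)
      (PP_prime H.hP none) (pOf_mem H.hP none) d.2
  | some (some p), hp =>
    exact stb_le (RingEquiv.refl (AlgebraicClosure K)) H.hK (l := p) (Or.inr (H.hT p hp))
      (PP_prime H.hP (some p)) (pOf_mem H.hP (some p)) d.2

variable {F : Type v} [Field F] [Finite F] [CharP F 2] [Algebra (ZMod 2) F] {n : ℕ} [Sy F n]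
  {N₀ : Subgroup (AlgebraicClosure K ≃+* AlgebraicClosure K)}
  {invQ ivF : ∀ w : Option (T ∪ D.primeFactors : Finset ℕ),
      (stb (HP.PP P w) → stb (HP.PP P w) → A0) → A0}
  {A : (AlgebraicClosure K ≃+* AlgebraicClosure K) →* Matrix (Fin n) (Fin n) F}

/-- the numbers at a prime divisor of `D` -/
theorem ram_num (H : Ar s c κ D T P) (hQ : QDat c (T ∪ D.primeFactors) P invQ)
    (hF : ∀ w, LocF (stb (HP.PP P w)) (invQ w) (ivF w))
    (hsp : ∀ g, IsSp (A g)) (hsm : Smooth (big (sQ K T D) N₀)
      (KT.act (A : (AlgebraicClosure K ≃+* AlgebraicClosure K) → Matrix (Fin n) (Fin n) F)))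
    (hin : ∀ p ∈ D.primeFactors, ∀ g ∈ inr (P p), A g = 1)
    {p : (T ∪ D.primeFactors : Finset ℕ)} (hp : (p : ℕ) ∈ D.primeFactors) :
    (∃ g₀ : HQ c P (some (some p)), ∀ d, ∃ m : ℕ,
      A (jQ c P (some (some p)) d) = A (jQ c P (some (some p)) g₀) ^ m) ∧
    ∃ m : ℕ,
      Module.finrank F (cocS (SQ c P N₀ (some (some p)))
        (Ai (jQ c P) A (some (some p)) : HQ c P (some (some p)) → Matrix (Fin n) (Fin n) F)) =
      Module.finrank F (cobS (Ai (jQ c P) A (some (some p)) :
        HQ c P (some (some p)) → Matrix (Fin n) (Fin n) F)) + 2 * m ∧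
      iQ c P ivF (some (some p)) (fun d d' => hf (epK K (jQ c P (some (some p)) d) *
        (Module.finrank F (fixv (A (jQ c P (some (some p)) d'))) : ZMod 2))) =
        hf (m : ZMod 2) := by
  have hpp := H.hP.prime p p.2
  have hQp := H.hP.isPrime p (Or.inl p.2)
  have hpQ := H.hP.mem p (Or.inl p.2)
  have h2 := Ar.two_P H hp
  obtain ⟨a, u, σ, τ, hu, hτ, hττ, hTam, hinv⟩ := hQ.tame p
  have hτn : ep (iK K) (τ : AlgebraicClosure K ≃+* AlgebraicClosure K) = 1 := by
    refine if_neg fun h1 => ?_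
    have h2 := (emb_sq (RingEquiv.refl (AlgebraicClosure K)) H.hK
      (τ : AlgebraicClosure K ≃+* AlgebraicClosure K)).1 h1
    have h3 := inr_neg (RingEquiv.refl (AlgebraicClosure K)) H.hK hpp
      (Nat.dvd_of_mem_primeFactors hp) hQp hpQ hτ hττ
    exact KS.s_ne H.hK (h2.symm.trans h3)
  obtain ⟨φ, R⟩ := exists_ramL (alg_closure K) hpp h2 hQp hpQ hTam hτ (ep_homs H (stb (P p))) hτn
  -- the representation
  obtain ⟨B, hB⟩ : ∃ B : stb (P p) →* Matrix (Fin n) (Fin n) F,
    B = A.comp (stb (P p)).subtype := ⟨_, rfl⟩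
  have hI : ∀ g ∈ (inr (P p)).subgroupOf (stb (P p)), B g = 1 := by
    intro g hg
    rw [hB]
    exact hin p hp g hg
  have hspB : ∀ g, IsSp (B g) := by
    intro g
    rw [hB]
    exact hsp _
  have hsm' : Smooth (big (fullC (stb (P p))) (N₀.subgroupOf (stb (P p))))
      (KT.act (B : stb (P p) → Matrix (Fin n) (Fin n) F)) := by
    rw [hB]
    exact hsm.comp (jsmQ (T := T ∪ D.primeFactors) c P N₀ (some (some p)))
  have hsmB : Smooth (fullC (stb (P p))) (KT.act (B : stb (P p) → Matrix (Fin n) (Fin n) F)) :=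
    sm_big hsm'
  constructor
  · refine ⟨φ, fun d => ?_⟩
    obtain ⟨m, hm⟩ := R.cyc hsmB hI d
    rw [hB] at hm
    exact ⟨m, hm⟩
  · refine ⟨Module.finrank F (fixG B), ?_, ?_⟩
    · have h3 : Module.finrank F (cocS (big (fullC (stb (P p))) (N₀.subgroupOf (stb (P p))))
          (B : stb (P p) → Matrix (Fin n) (Fin n) F)) =
          Module.finrank F (cobS (B : stb (P p) → Matrix (Fin n) (Fin n) F)) +
            2 * Module.finrank F (fixG B) := by
        rw [cocS_big hsm', R.count hsmB hI]
        have h4 := finrank_cobS B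
        omega
      rw [hB] at h3 ⊢
      exact h3
    · have h4 := R.term hsmB hI hspB hu (inv := ivF (some p)) (fun f hf' => by
        rw [KR.two_fullC] at hf'
        exact ((hF (some p)).ext f hf').trans (hinv f)) (by
        rw [KR.two_fullC]
        exact isChar_stb _)
      rw [hB] at h4 ⊢
      exact h4

open scoped Classical in
/-- THE PARITY OF THE SELMER SPACE. -/
theorem sel_parity (H : Ar s c κ D T P) {C : Subgroup (AlgebraicClosure K ≃+* AlgebraicClosure K)}
    [Fintype ((AlgebraicClosure K ≃+* AlgebraicClosure K) ⧸ C)]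
    (hQ : QDat c (T ∪ D.primeFactors) P invQ)
    (hF : ∀ w, LocF (stb (HP.PP P w)) (invQ w) (ivF w))
    (hd : DatQ c (T ∪ D.primeFactors) P N₀ C ivF)
    {tr : (((AlgebraicClosure K ≃+* AlgebraicClosure K) → (AlgebraicClosure K ≃+* AlgebraicClosure K) →
        (AlgebraicClosure K ≃+* AlgebraicClosure K) → A0) ×
      (∀ i : Option (Option (T ∪ D.primeFactors : Finset ℕ)), HQ c P i → HQ c P i → A0)) →+ A0}
    (htr : KR.IsTr (big (sQ K T D) N₀) (SQ c P N₀) (jQ c P) cyQ (iQ c P ivF) tr)
    (hsp : ∀ g, IsSp (A g)) (hsm : Smooth (big (sQ K T D) N₀)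
      (KT.act (A : (AlgebraicClosure K ≃+* AlgebraicClosure K) → Matrix (Fin n) (Fin n) F)))
    (hin : ∀ p ∈ D.primeFactors, ∀ g ∈ inr (P p), A g = 1)
    {X : ∀ i : Option (Option (T ∪ D.primeFactors : Finset ℕ)), Submodule F (HQ c P i → Fin n → F)}
    (hlag : ∀ i, spl T D i → ∀ x, x ∈ X i ↔
      Z1 (SQ c P N₀ i) (KT.act fun d => A (jQ c P i d)) x ∧
        ∀ y ∈ X i, iQ c P ivF i (cup11 (KT.act fun d => A (jQ c P i d)) BU x y) = 0) :
    FiniteDimensional F (Sel (big (sQ K T D) N₀) (jQ c P) A (epK K) (spl T D) X) ∧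
      Even (Module.finrank F (Sel (big (sQ K T D) N₀) (jQ c P) A (epK K) (spl T D) X) + n / 2) := by
  have hne : ∃ x, c x ≠ x := ⟨algebraMap K (AlgebraicClosure K) s, fun h =>
    KS.s_ne H.hK (h.symm.trans H.hc.neg)⟩
  have hpair : KR.Pair (big (sQ K T D) N₀) cyQ
      (KT.act (A : (AlgebraicClosure K ≃+* AlgebraicClosure K) → Matrix (Fin n) (Fin n) F))
      (KT.act (A : (AlgebraicClosure K ≃+* AlgebraicClosure K) → Matrix (Fin n) (Fin n) F))
      (BU : (Fin n → F) →+ (Fin n → F) →+ A0) := pair_BU hd.glob.char hsp hsm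
  have hreal := isReal_inf (T := T ∪ D.primeFactors) H.hc.sq hne P N₀
  have hc1 : (⟨c, Subgroup.mem_zpowers c⟩ : Subgroup.zpowers c) ≠ 1 := by
    intro h
    obtain ⟨x, hx⟩ := hne
    exact hx (congrArg (fun g : Subgroup.zpowers c => (g : AlgebraicClosure K ≃+* AlgebraicClosure K) x) h)
  have hcc : epK K c = 1 := if_neg fun h => by
    obtain ⟨m, hm⟩ := h
    exact iK_nc H.hK H.hc m hm
  have he1 : epK K 1 = 0 := (ep_zero 1).2 ⟨1, map_one _⟩
  -- the numbers
  have key : ∀ i : Option (Option (T ∪ D.primeFactors : Finset ℕ)), ∃ m t : ℕ, ¬ spl T D i →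
      (∃ g₀ : HQ c P i, ∀ d, ∃ r : ℕ, A (jQ c P i d) = A (jQ c P i g₀) ^ r) ∧
      Module.finrank F (cocS (SQ c P N₀ i) (Ai (jQ c P) A i : HQ c P i → Matrix (Fin n) (Fin n) F)) =
        Module.finrank F (cobS (Ai (jQ c P) A i : HQ c P i → Matrix (Fin n) (Fin n) F)) + 2 * m ∧
      iQ c P ivF i (fun d d' => hf (epK K (jQ c P i d) *
        (Module.finrank F (fixv (A (jQ c P i d'))) : ZMod 2))) = hf (t : ZMod 2) ∧
      Even (m + t + if i = none then n / 2 else 0) := by
    intro i
    match i with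
    | none =>
      obtain ⟨m, h1, h2, h3⟩ := real_num (A := Ai (jQ c P) A none) hreal hc1
        (ε := fun d => epK K (jQ c P none d)) he1 hcc
      refine ⟨m, _, fun _ => ⟨⟨(⟨c, Subgroup.mem_zpowers c⟩ : Subgroup.zpowers c), fun d => ?_⟩,
        h1, h3, ?_⟩⟩
      · rcases zpowers_two H.hc.sq d with rfl | rfl
        · refine ⟨0, ?_⟩
          rw [pow_zero]
          exact map_one A
        · refine ⟨1, ?_⟩
          rw [pow_one]
      · rw [if_pos rfl]
        exact h2
    | some none => exact ⟨0, 0, fun h => absurd trivial h⟩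
    | some (some p) =>
      by_cases hp : (p : ℕ) ∈ T
      · exact ⟨0, 0, fun h => absurd hp h⟩
      · have hp' : (p : ℕ) ∈ D.primeFactors := (Finset.mem_union.1 p.2).resolve_left hp
        obtain ⟨h1, m, h2, h3⟩ := ram_num H hQ hF hsp hsm hin hp'
        refine ⟨m, m, fun _ => ⟨h1, h2, h3, ?_⟩⟩
        rw [if_neg (by simp), add_zero]
        exact ⟨m, rfl⟩
  choose m t hmt using key
  have hKH : KT.KH (big (sQ K T D) N₀) (SQ c P N₀) (jQ c P) cyQ (iQ c P ivF) tr A (epK K) (spl T D) X t :=
    { glob := hd.glob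
      istr := htr
      pp := (hd.dual htr hpair).1
      ld := fun i => ldQ (alg_closure K) H.hc.sq hne H.hP hQ.loc hF hd.syl.normal hd.syl.opn i hpair
      fin := hd.finZ hpair
      det := hsp
      sm := hsm
      eadd := ep_add H.hK H.hc H.hκ
      esm := ep_sm H N₀
      esp := ep_spl H
      lag := hlag
      cyc := fun i hi => (hmt i hi).1
      tau := fun i hi => (hmt i hi).2.2.1 }
  obtain ⟨h1, h2⟩ := kramer_sum hKH m fun i hi => (hmt i hi).2.1
  refine ⟨h1, ?_⟩
  have h3 : Even ((∑ i, if spl T D i then 0 else m i + t i) + n / 2) := by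
    have h4 : (∑ i, if spl T D i then 0 else m i + t i) + n / 2 =
        ∑ i : Option (Option (T ∪ D.primeFactors : Finset ℕ)),
          ((if spl T D i then 0 else m i + t i) + if i = none then n / 2 else 0) := by
      rw [Finset.sum_add_distrib, Finset.sum_ite_eq' Finset.univ none]
      simp
    rw [h4]
    refine Finset.sum_induction _ Even (fun a b ha hb => ha.add hb) Even.zero fun i _ => ?_
    by_cases hi : spl T D i
    · have hne' : i ≠ none := by
        rintro rfl
        exact hi
      rw [if_pos hi, if_neg hne']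
      exact Even.zero
    · rw [if_neg hi]
      exact (hmt i hi).2.2.2
  have h4 := h2.add h3
  obtain ⟨r, hr⟩ := h4
  exact ⟨r - ∑ i, (if spl T D i then 0 else m i + t i), by omega⟩

end Pool.Agent.Work.MP_787500_nt.QP
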